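import Pool.Agent.U642.BG.Fin

set_option autoImplicit false

/-! # Short exponential sums with discrete exponentials -/

open Finset

namespace Pool.Agent.U642.BG

theorem shift_sum (f : ℕ → ℂ) (hf : ∀ n, ‖f n‖ ≤ 1) (a N k : ℕ) :
    ‖∑ n ∈ Ico a (a + N), f n - ∑ n ∈ Ico a (a + N), f (n + k)‖ ≤ 2 * k := by
  have h1 : ∑ n ∈ Ico a (a + N), f (n + k) = ∑ n ∈ Ico (a + k) (a + N + k), f n :=
    sum_Ico_add' f a (a + N) k
  have h2 : ∑ n ∈ Ico a (a + N), f n + ∑ n ∈ Ico (a + N) (a + N + k), f n =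
      ∑ n ∈ Ico a (a + N + k), f n := sum_Ico_consecutive f (by omega) (by omega)
  have h3 : ∑ n ∈ Ico a (a + k), f n + ∑ n ∈ Ico (a + k) (a + N + k), f n =
      ∑ n ∈ Ico a (a + N + k), f n := sum_Ico_consecutive f (by omega) (by omega)
  have h4 : ∑ n ∈ Ico a (a + N), f n - ∑ n ∈ Ico a (a + N), f (n + k) =
      ∑ n ∈ Ico a (a + k), f n - ∑ n ∈ Ico (a + N) (a + N + k), f n := by
    rw [h1]
    linear_combination h2 - h3
  have h5 : ∀ b : ℕ, ‖∑ n ∈ Ico b (b + k), f n‖ ≤ k := by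
    intro b
    refine (norm_sum_le _ _).trans ((sum_le_card_nsmul _ _ 1 fun n _ => hf n).trans ?_)
    rw [nsmul_eq_mul, mul_one, Nat.card_Ico]
    simp
  rw [h4]
  refine (norm_sub_le _ _).trans ?_
  linarith [h5 a, h5 (a + N)]

theorem expo (ε : ℝ) (hε : 0 < ε) : ∃ δ : ℝ, 0 < δ ∧ ∃ p₀ : ℕ,
    ∀ (p : ℕ) [Fact p.Prime], p₀ ≤ p → ∀ g : ZMod p, (p : ℝ) ^ ε ≤ orderOf g → ∀ a N : ℕ,
    (p : ℝ) ^ ε ≤ N → ∀ y : ZMod p, y ≠ 0 →
    ‖∑ n ∈ Ico a (a + N), (ZMod.stdAddChar (y * g ^ n) : ℂ)‖ ≤ N * (p : ℝ) ^ (-δ) := by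
  obtain ⟨K, hK⟩ := boxsum (ε / 2) (by positivity)
  obtain ⟨δ₀, hδ₀, p₁, hb⟩ := hK (K + 1)
  obtain ⟨δ, hδ⟩ : ∃ δ : ℝ, δ = min δ₀ (ε / 2) / 2 := ⟨_, rfl⟩
  have hδ0 : 0 < δ := by rw [hδ]; positivity
  have hδ1 : 2 * δ ≤ δ₀ := by rw [hδ]; linarith [min_le_left δ₀ (ε / 2)]
  have hδ2 : 2 * δ ≤ ε / 2 := by rw [hδ]; linarith [min_le_right δ₀ (ε / 2)]
  obtain ⟨p₂, hp₂2, hp₂⟩ := Pool.Agent.H435R3.Paley.exists_large (4 * (K + 1) + 1) δ hδ0
  obtain ⟨p₃, hp₃2, hp₃⟩ := Pool.Agent.H435R3.Paley.exists_large 2 (ε / 2) (by positivity)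
  refine ⟨δ, hδ0, p₁ + p₂ + p₃, fun p _ hp g hg a N hN y hy => ?_⟩
  have hp2 : (2 : ℝ) ≤ p := by exact_mod_cast (Fact.out : p.Prime).two_le
  have hp0 : (0 : ℝ) < p := by linarith
  have hp1 : (1 : ℝ) ≤ p := by linarith
  have hb1 : 4 * ((K : ℝ) + 1) + 1 ≤ (p : ℝ) ^ δ := hp₂ p (by omega)
  have hb2 : 2 ≤ (p : ℝ) ^ (ε / 2) := hp₃ p (by omega)
  have hε2 : (p : ℝ) ^ ε = (p : ℝ) ^ (ε / 2) * (p : ℝ) ^ (ε / 2) := by
    rw [← Real.rpow_add hp0]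
    congr 1
    ring
  have hg0 : g ≠ 0 := by
    rintro rfl
    have h1 : orderOf (0 : ZMod p) = 0 := by
      rw [orderOf_eq_zero_iff']
      intro n hn
      rw [zero_pow (by omega)]
      exact zero_ne_one
    rw [h1, Nat.cast_zero] at hg
    have : 0 < (p : ℝ) ^ ε := by positivity
    linarith
  obtain ⟨N₁, hN₁⟩ : ∃ N₁ : ℕ, N₁ = ⌈(p : ℝ) ^ (ε / 2)⌉₊ := ⟨_, rfl⟩
  have hN1 : (p : ℝ) ^ (ε / 2) ≤ N₁ := by rw [hN₁]; exact Nat.le_ceil _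
  have hN2 : (N₁ : ℝ) ≤ 2 * (p : ℝ) ^ (ε / 2) := by
    have h3 := Nat.ceil_lt_add_one (show 0 ≤ (p : ℝ) ^ (ε / 2) by linarith)
    rw [← hN₁] at h3
    linarith
  have hN3 : N₁ ≤ orderOf g := by
    have h1 : (N₁ : ℝ) ≤ orderOf g := by nlinarith
    exact_mod_cast h1
  have hN0 : (0 : ℝ) < N₁ := by linarith
  have hinj : Set.InjOn (fun m : ℕ => g ^ m) (range N₁ : Set ℕ) := by
    have key : ∀ m m' : ℕ, m ≤ m' → m' < N₁ → g ^ m = g ^ m' → m = m' := by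
      intro m m' h1 h2 h3
      have h4 : g ^ (m' - m) = 1 := by
        have h5 : g ^ m * g ^ (m' - m) = g ^ m * 1 := by
          rw [← pow_add, Nat.add_sub_cancel' h1, mul_one, h3]
        exact mul_left_cancel₀ (pow_ne_zero _ hg0) h5
      have h5 := orderOf_dvd_of_pow_eq_one h4
      by_contra h6
      have := Nat.le_of_dvd (by omega) h5
      omega
    intro m hm m' hm' h
    have hm1 := mem_range.1 (mem_coe.1 hm)
    have hm2 := mem_range.1 (mem_coe.1 hm')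
    rcases le_total m m' with h1 | h1
    · exact key m m' h1 hm2 h
    · exact (key m' m h1 hm1 h.symm).symm
  have hcard : (((range N₁).image fun m : ℕ => g ^ m).card : ℝ) = N₁ := by
    rw [card_image_of_injOn hinj, card_range]
  -- the multilinear sums
  have hmult : ∀ c : ZMod p, c ≠ 0 →
      ‖∑ m ∈ Fintype.piFinset (fun _ : Fin (K + 1) => range N₁),
        (ZMod.stdAddChar (c * g ^ (∑ i, m i)) : ℂ)‖ ≤ (p : ℝ) ^ (-δ₀) * (N₁ : ℝ) ^ (K + 1) := by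
    intro c hc
    have h1 := hb p (by omega) (Fin (K + 1)) (fun _ => (range N₁).image fun m : ℕ => g ^ m)
      (fun _ => by rw [hcard]; exact hN1) univ (by rw [card_univ, Fintype.card_fin]; omega)
      (by rw [card_univ, Fintype.card_fin]) (fun _ _ => 1) (fun _ _ => by simp)
      (fun _ _ _ _ => rfl) c hc
    have hc2 : ∏ _i : Fin (K + 1), (((range N₁).image fun m : ℕ => g ^ m).card : ℝ) =
        (N₁ : ℝ) ^ (K + 1) := by
      rw [hcard, prod_const, card_univ, Fintype.card_fin]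
    rw [Fintype.card_piFinset, Nat.cast_prod, hc2, Fintype.piFinset_image] at h1
    refine le_trans (le_of_eq ?_) h1
    congr 1
    rw [sum_image]
    · refine sum_congr rfl fun m _ => ?_
      rw [prod_const_one, mul_one, prod_pow_eq_pow_sum]
    · intro m hm m' hm' h
      funext i
      exact hinj (mem_coe.2 (Fintype.mem_piFinset.1 (mem_coe.1 hm) i))
        (mem_coe.2 (Fintype.mem_piFinset.1 (mem_coe.1 hm') i)) (congrFun h i)
  obtain ⟨S, hS⟩ : ∃ S : ℂ, S = ∑ n ∈ Ico a (a + N), (ZMod.stdAddChar (y * g ^ n) : ℂ) := ⟨_, rfl⟩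
  rw [← hS]
  set Q := Fintype.piFinset (fun _ : Fin (K + 1) => range N₁) with hQ
  have hQc : (Q.card : ℝ) = (N₁ : ℝ) ^ (K + 1) := by
    rw [hQ, Fintype.card_piFinset, prod_const, card_univ, Fintype.card_fin, card_range]
    push_cast
    rfl
  have hQ0 : (0 : ℝ) < (N₁ : ℝ) ^ (K + 1) := by positivity
  have hshift : ∀ m ∈ Q, ‖S - ∑ n ∈ Ico a (a + N), (ZMod.stdAddChar (y * g ^ (n + ∑ i, m i)) : ℂ)‖ ≤
      2 * ((K + 1) * N₁) := by
    intro m hm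
    have h1 := shift_sum (fun n => (ZMod.stdAddChar (y * g ^ n) : ℂ)) (fun n => (norm_e _).le) a N
      (∑ i, m i)
    rw [← hS] at h1
    refine h1.trans ?_
    have h2 : (∑ i, m i) ≤ (K + 1) * N₁ := by
      calc (∑ i, m i) ≤ ∑ _i : Fin (K + 1), N₁ :=
            sum_le_sum fun i _ => (mem_range.1 (Fintype.mem_piFinset.1 hm i)).le
        _ = _ := by rw [sum_const, card_univ, Fintype.card_fin, smul_eq_mul]
    have h3 : ((∑ i, m i : ℕ) : ℝ) ≤ (K + 1) * N₁ := by exact_mod_cast h2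
    linarith
  have hsum : (N₁ : ℝ) ^ (K + 1) * ‖S‖ ≤
      N * ((p : ℝ) ^ (-δ₀) * (N₁ : ℝ) ^ (K + 1)) + (N₁ : ℝ) ^ (K + 1) * (2 * ((K + 1) * N₁)) := by
    have h1 : (N₁ : ℝ) ^ (K + 1) * ‖S‖ = ‖∑ m ∈ Q, S‖ := by
      rw [sum_const, nsmul_eq_mul, norm_mul, Complex.norm_natCast, hQc]
    have h2 : ∑ m ∈ Q, S = ∑ m ∈ Q, (S - ∑ n ∈ Ico a (a + N),
        (ZMod.stdAddChar (y * g ^ (n + ∑ i, m i)) : ℂ)) + ∑ n ∈ Ico a (a + N), ∑ m ∈ Q,
        (ZMod.stdAddChar (y * g ^ (n + ∑ i, m i)) : ℂ) := by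
      rw [sum_comm (s := Ico a (a + N)), ← sum_add_distrib]
      exact sum_congr rfl fun m _ => by ring
    rw [h1, h2]
    refine (norm_add_le _ _).trans ?_
    rw [add_comm]
    refine add_le_add ?_ ?_
    · refine (norm_sum_le _ _).trans ?_
      refine (sum_le_card_nsmul _ _ ((p : ℝ) ^ (-δ₀) * (N₁ : ℝ) ^ (K + 1)) fun n _ => ?_).trans
        (le_of_eq ?_)
      · have h3 := hmult (y * g ^ n) (mul_ne_zero hy (pow_ne_zero _ hg0))
        refine le_trans (le_of_eq ?_) h3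
        congr 1
        refine sum_congr rfl fun m _ => ?_
        rw [pow_add, mul_assoc]
      · rw [nsmul_eq_mul, Nat.card_Ico]
        congr 2
        omega
    · refine (norm_sum_le _ _).trans ?_
      refine (sum_le_card_nsmul _ _ _ hshift).trans (le_of_eq ?_)
      rw [nsmul_eq_mul, hQc]
  have hS1 : ‖S‖ ≤ N * (p : ℝ) ^ (-δ₀) + 2 * ((K + 1) * N₁) := by
    have h1 : (N₁ : ℝ) ^ (K + 1) * ‖S‖ ≤
        (N₁ : ℝ) ^ (K + 1) * (N * (p : ℝ) ^ (-δ₀) + 2 * ((K + 1) * N₁)) := by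
      refine hsum.trans (le_of_eq ?_)
      ring
    exact le_of_mul_le_mul_left h1 hQ0
  have hNN : (0 : ℝ) ≤ N := Nat.cast_nonneg _
  have h1 : (p : ℝ) ^ (-δ₀) ≤ (p : ℝ) ^ (-δ) * (p : ℝ) ^ (-δ) := by
    rw [← Real.rpow_add hp0]
    exact Real.rpow_le_rpow_of_exponent_le hp1 (by linarith)
  have h2 : (p : ℝ) ^ (ε / 2) ≤ N * ((p : ℝ) ^ (-δ) * (p : ℝ) ^ (-δ)) := by
    have h3 : (p : ℝ) ^ (-(ε / 2)) ≤ (p : ℝ) ^ (-δ) * (p : ℝ) ^ (-δ) := by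
      rw [← Real.rpow_add hp0]
      exact Real.rpow_le_rpow_of_exponent_le hp1 (by linarith)
    calc (p : ℝ) ^ (ε / 2) = (p : ℝ) ^ ε * (p : ℝ) ^ (-(ε / 2)) := by
          rw [← Real.rpow_add hp0]
          congr 1
          ring
      _ ≤ N * ((p : ℝ) ^ (-δ) * (p : ℝ) ^ (-δ)) := by gcongr
  have h6 : (p : ℝ) ^ δ * (p : ℝ) ^ (-δ) = 1 := by
    rw [← Real.rpow_add hp0, add_neg_cancel, Real.rpow_zero]
  have h7 : 0 < (p : ℝ) ^ (-δ) := by positivity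
  set w := (p : ℝ) ^ (-δ) with hw
  have h9 : (4 * ((K : ℝ) + 1) + 1) * w ≤ 1 := by nlinarith
  have hK0 : (0 : ℝ) ≤ K := Nat.cast_nonneg _
  calc ‖S‖ ≤ N * (p : ℝ) ^ (-δ₀) + 2 * ((K + 1) * N₁) := hS1
    _ ≤ N * (w * w) + 2 * ((K + 1) * (2 * (N * (w * w)))) := by
        have a1 : (N : ℝ) * (p : ℝ) ^ (-δ₀) ≤ N * (w * w) := mul_le_mul_of_nonneg_left h1 hNN
        have a2 : ((K : ℝ) + 1) * N₁ ≤ (K + 1) * (2 * (N * (w * w))) :=
          mul_le_mul_of_nonneg_left (by linarith) (by linarith)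
        linarith
    _ = (N * w) * ((4 * ((K : ℝ) + 1) + 1) * w) := by ring
    _ ≤ (N * w) * 1 := mul_le_mul_of_nonneg_left h9 (by positivity)
    _ = N * w := mul_one _

/-- several sums -/
theorem expo_prod (ε : ℝ) (hε : 0 < ε) (r : ℕ) : ∃ δ : ℝ, 0 < δ ∧ ∃ p₀ : ℕ,
    ∀ (p : ℕ) [Fact p.Prime], p₀ ≤ p → ∀ g x : Fin r → ZMod p,
    (∀ j, (p : ℝ) ^ ε ≤ orderOf (g j)) → (∀ j, x j ≠ 0) → ∀ a N : Fin r → ℕ,
    (∀ j, (p : ℝ) ^ ε ≤ N j) → ∀ h : Fin r → ZMod p, h ≠ 0 →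
    ‖∑ n ∈ Fintype.piFinset (fun j => Ico (a j) (a j + N j)),
      (ZMod.stdAddChar (∑ j, h j * (x j * g j ^ n j)) : ℂ)‖ ≤
      ((Fintype.piFinset (fun j => Ico (a j) (a j + N j))).card : ℝ) * (p : ℝ) ^ (-δ) := by
  obtain ⟨δ, hδ, p₀, hb⟩ := expo ε hε
  refine ⟨δ, hδ, p₀, fun p _ hp g x hg hx a N hN h hh => ?_⟩
  have hp0 : (0 : ℝ) < p := by exact_mod_cast (Fact.out : p.Prime).pos
  obtain ⟨j₀, hj₀⟩ : ∃ j₀, h j₀ ≠ 0 := by
    by_contra hcon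
    push Not at hcon
    exact hh (funext hcon)
  have h1 : ∑ n ∈ Fintype.piFinset (fun j => Ico (a j) (a j + N j)),
      (ZMod.stdAddChar (∑ j, h j * (x j * g j ^ n j)) : ℂ) =
      ∏ j, ∑ n ∈ Ico (a j) (a j + N j), (ZMod.stdAddChar (h j * x j * g j ^ n) : ℂ) := by
    rw [prod_univ_sum]
    refine sum_congr rfl fun n _ => ?_
    rw [e_sum]
    exact prod_congr rfl fun j _ => by rw [mul_assoc]
  have h2 : ((Fintype.piFinset (fun j => Ico (a j) (a j + N j))).card : ℝ) = ∏ j, (N j : ℝ) := by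
    rw [Fintype.card_piFinset]
    push_cast
    refine prod_congr rfl fun j _ => ?_
    rw [Nat.card_Ico]
    congr 1
    omega
  rw [h1, h2, norm_prod]
  have h3 : ∀ j, ‖∑ n ∈ Ico (a j) (a j + N j), (ZMod.stdAddChar (h j * x j * g j ^ n) : ℂ)‖ ≤
      N j * if j = j₀ then (p : ℝ) ^ (-δ) else 1 := by
    intro j
    split_ifs with hj
    · subst hj
      exact hb p hp (g j) (hg j) (a j) (N j) (hN j) _ (mul_ne_zero hj₀ (hx j))
    · rw [mul_one]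
      refine (norm_sum_le _ _).trans ((sum_le_card_nsmul _ _ 1 fun n _ => (norm_e _).le).trans ?_)
      rw [nsmul_eq_mul, mul_one, Nat.card_Ico]
      simp
  refine (prod_le_prod (fun j _ => norm_nonneg _) fun j _ => h3 j).trans (le_of_eq ?_)
  rw [prod_mul_distrib, prod_ite_eq' univ j₀ fun _ => (p : ℝ) ^ (-δ), if_pos (mem_univ _)]

end Pool.Agent.U642.BG
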