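import Pool.Agent.U642.BG.Ml2

set_option autoImplicit false

/-! # Multilinear exponential sums over tiny sets with arbitrary lower order functions -/

open Finset

namespace Pool.Agent.U642.BG

open Pool.Agent.Y881.SP (ft conj_std norm_std parseval ft_le ft_zero J sym flat J_le uni uni_nonneg
  uni_sum)

/-- the sum over a box and one more value of a coordinate -/
theorem upd_sum {p : ℕ} {ι E : Type} [Fintype ι] [DecidableEq ι] [AddCommMonoid E]
    (A : ι → Finset (ZMod p)) (i : ι) (F : (ι → ZMod p) → E) :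
    ∑ a ∈ Fintype.piFinset A, ∑ x ∈ A i, F (Function.update a i x) =
      (A i).card • ∑ a ∈ Fintype.piFinset A, F a := by
  have h1 : ∑ a ∈ Fintype.piFinset A, ∑ x ∈ A i, F (Function.update a i x) =
      ∑ q ∈ Fintype.piFinset A ×ˢ A i, F (Function.update q.1 i q.2) := by
    rw [sum_product]
  have h2 : (A i).card • ∑ a ∈ Fintype.piFinset A, F a =
      ∑ q ∈ Fintype.piFinset A ×ˢ A i, F q.1 := by
    rw [sum_product]
    simp only [sum_const]
    rw [← smul_sum]
  rw [h1, h2]
  have hmem : ∀ q ∈ Fintype.piFinset A ×ˢ A i,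
      (Function.update q.1 i q.2, q.1 i) ∈ Fintype.piFinset A ×ˢ A i := by
    intro q hq
    rw [mem_product, Fintype.mem_piFinset] at hq ⊢
    refine ⟨fun j => ?_, hq.1 i⟩
    by_cases hj : j = i
    · subst hj
      simp only [Function.update_self]
      exact hq.2
    · simp only
      rw [Function.update_of_ne hj]
      exact hq.1 j
  refine sum_nbij' (fun q => (Function.update q.1 i q.2, q.1 i))
    (fun q => (Function.update q.1 i q.2, q.1 i)) hmem hmem ?_ ?_ ?_
  · intro q _
    simp
  · intro q _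
    simp
  · intro q _
    rfl

variable {p : ℕ} [Fact p.Prime]

/-- the iterated means for sets -/
noncomputable def RA (A₀ : Finset (ZMod p)) : List (Finset (ZMod p)) → ZMod p → ℝ
  | [] => fun c => ‖∑ a ∈ A₀, (ZMod.stdAddChar (c * a) : ℂ)‖ / A₀.card
  | A :: L => fun c => (∑ a ∈ A, ∑ a' ∈ A, RA A₀ L ((a - a') * c)) / (A.card : ℝ) ^ 2

theorem norm_e (x : ZMod p) : ‖(ZMod.stdAddChar x : ℂ)‖ = 1 := norm_std x

section box
variable {ι : Type} [Fintype ι] [DecidableEq ι]

/-- the summand -/
noncomputable def Ph (i₀ : ι) (L : List ι) (f : ι → (ι → ZMod p) → ℂ) (c : ZMod p)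
    (a : ι → ZMod p) : ℂ :=
  ZMod.stdAddChar (c * (a i₀ * (L.map a).prod)) * (f i₀ a * (L.map fun j => f j a).prod)

theorem box (A : ι → Finset (ZMod p)) (hA : ∀ i, (A i).Nonempty) (i₀ : ι) : ∀ (L : List ι),
    (i₀ :: L).Nodup → ∀ (f : ι → (ι → ZMod p) → ℂ), (∀ j a, ‖f j a‖ ≤ 1) →
    (∀ j ∈ i₀ :: L, ∀ a x, f j (Function.update a j x) = f j a) → ∀ c : ZMod p,
    (‖∑ a ∈ Fintype.piFinset A, Ph i₀ L f c a‖ / (Fintype.piFinset A).card) ^ 2 ^ L.length ≤
      RA (A i₀) (L.map A) c := by
  have hP : (Fintype.piFinset A).Nonempty := Fintype.piFinset_nonempty.2 hA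
  have hn : (0 : ℝ) < (Fintype.piFinset A).card := by exact_mod_cast hP.card_pos
  intro L
  induction L with
  | nil =>
    intro _ f hf1 hf2 c
    have hm : (0 : ℝ) < (A i₀).card := by exact_mod_cast (hA i₀).card_pos
    rw [List.length_nil, pow_zero, pow_one, List.map_nil, RA, div_le_div_iff₀ hn hm]
    have h1 : (((A i₀).card : ℕ) : ℂ) * ∑ a ∈ Fintype.piFinset A, Ph i₀ [] f c a =
        ∑ a ∈ Fintype.piFinset A, f i₀ a * ∑ x ∈ A i₀, (ZMod.stdAddChar (c * x) : ℂ) := by
      rw [← nsmul_eq_mul, ← upd_sum A i₀ (Ph i₀ [] f c)]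
      refine sum_congr rfl fun a _ => ?_
      rw [mul_sum]
      refine sum_congr rfl fun x _ => ?_
      unfold Ph
      rw [hf2 i₀ List.mem_cons_self]
      simp only [Function.update_self, List.map_nil, List.prod_nil, mul_one]
      ring
    have h2 : ‖(((A i₀).card : ℕ) : ℂ) * ∑ a ∈ Fintype.piFinset A, Ph i₀ [] f c a‖ ≤
        (Fintype.piFinset A).card * ‖∑ x ∈ A i₀, (ZMod.stdAddChar (c * x) : ℂ)‖ := by
      rw [h1, ← sum_mul, norm_mul]
      refine mul_le_mul_of_nonneg_right ?_ (norm_nonneg _)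
      refine (norm_sum_le _ _).trans ?_
      refine (sum_le_card_nsmul _ _ 1 fun a _ => hf1 i₀ a).trans (le_of_eq ?_)
      rw [nsmul_eq_mul, mul_one]
    rw [norm_mul, Complex.norm_natCast] at h2
    linarith
  | cons i L ih =>
    intro hnd f hf1 hf2 c
    have hi0 : i₀ ≠ i := by
      rintro rfl
      exact (List.nodup_cons.1 hnd).1 List.mem_cons_self
    have hiL : i ∉ L := (List.nodup_cons.1 (List.nodup_cons.1 hnd).2).1
    have hnd' : (i₀ :: L).Nodup := by
      rw [List.nodup_cons] at hnd ⊢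
      exact ⟨fun h => hnd.1 (List.mem_cons_of_mem _ h), (List.nodup_cons.1 hnd.2).2⟩
    have hji : ∀ j ∈ i₀ :: L, j ≠ i := by
      intro j hj
      rcases List.mem_cons.1 hj with rfl | hj
      · exact hi0
      · rintro rfl
        exact hiL hj
    have hsub : ∀ j ∈ i₀ :: L, j ∈ i₀ :: i :: L := by
      intro j hj
      rcases List.mem_cons.1 hj with rfl | hj
      · exact List.mem_cons_self
      · exact List.mem_cons_of_mem _ (List.mem_cons_of_mem _ hj)
    have hm : (0 : ℝ) < (A i).card := by exact_mod_cast (hA i).card_pos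
    -- the function without `f i`
    obtain ⟨Ψ, hΨ⟩ : ∃ Ψ : (ι → ZMod p) → ℂ, Ψ = fun b =>
      (ZMod.stdAddChar (c * (b i₀ * (b i * (L.map b).prod))) : ℂ) *
        (f i₀ b * (L.map fun j => f j b).prod) := ⟨_, rfl⟩
    obtain ⟨f', hf'⟩ : ∃ f' : ZMod p → ZMod p → ι → (ι → ZMod p) → ℂ, f' = fun x x' j a =>
      f j (Function.update a i x) * (starRingEnd ℂ) (f j (Function.update a i x')) := ⟨_, rfl⟩
    have hf'1 : ∀ x x' j a, ‖f' x x' j a‖ ≤ 1 := by
      intro x x' j a
      rw [hf']
      simp only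
      rw [norm_mul, RCLike.norm_conj]
      exact mul_le_one₀ (hf1 _ _) (norm_nonneg _) (hf1 _ _)
    have hf'2 : ∀ x x', ∀ j ∈ i₀ :: L, ∀ a y, f' x x' j (Function.update a j y) = f' x x' j a := by
      intro x x' j hj a y
      rw [hf']
      simp only
      rw [Function.update_comm (hji j hj), Function.update_comm (hji j hj), hf2 j (hsub j hj),
        hf2 j (hsub j hj)]
    have hkey : ∀ (x x' : ZMod p) (a : ι → ZMod p),
        Ψ (Function.update a i x) * (starRingEnd ℂ) (Ψ (Function.update a i x')) =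
          Ph i₀ L (f' x x') ((x - x') * c) a := by
      intro x x' a
      have hu : ∀ x : ZMod p, (L.map (Function.update a i x)) = L.map a := by
        intro x
        refine List.map_congr_left fun j hj => ?_
        rw [Function.update_of_ne]
        rintro rfl
        exact hiL hj
      rw [hΨ]
      unfold Ph
      simp only
      rw [hu, hu, Function.update_of_ne hi0, Function.update_of_ne hi0, Function.update_self,
        Function.update_self]
      have hprod : (L.map fun j => f' x x' j a).prod =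
          (L.map fun j => f j (Function.update a i x)).prod *
            (starRingEnd ℂ) ((L.map fun j => f j (Function.update a i x')).prod) := by
        rw [map_list_prod, List.map_map, hf']
        simp only
        rw [List.prod_map_mul]
        rfl
      have hphase : (ZMod.stdAddChar ((x - x') * c * (a i₀ * (L.map a).prod)) : ℂ) =
          ZMod.stdAddChar (c * (a i₀ * (x * (L.map a).prod))) *
            (starRingEnd ℂ) (ZMod.stdAddChar (c * (a i₀ * (x' * (L.map a).prod)))) := by
        rw [conj_std, ← AddChar.map_add_eq_mul]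
        congr 1
        ring
      rw [hprod, hphase, hf']
      simp only [map_mul]
      ring
    have h1 : (((A i).card : ℕ) : ℂ) * ∑ a ∈ Fintype.piFinset A, Ph i₀ (i :: L) f c a =
        ∑ a ∈ Fintype.piFinset A, f i a * ∑ x ∈ A i, Ψ (Function.update a i x) := by
      rw [← nsmul_eq_mul, ← upd_sum A i (Ph i₀ (i :: L) f c)]
      refine sum_congr rfl fun a _ => ?_
      rw [mul_sum]
      refine sum_congr rfl fun x _ => ?_
      unfold Ph
      rw [hΨ]
      simp only [List.map_cons, List.prod_cons]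
      rw [hf2 i (List.mem_cons_of_mem _ List.mem_cons_self)]
      ring
    set V : (ι → ZMod p) → ℂ := fun a => ∑ x ∈ A i, Ψ (Function.update a i x) with hV
    have h2 : ((A i).card * ‖∑ a ∈ Fintype.piFinset A, Ph i₀ (i :: L) f c a‖) ^ 2 ≤
        (Fintype.piFinset A).card * ∑ a ∈ Fintype.piFinset A, ‖V a‖ ^ 2 := by
      have e1 : ((A i).card : ℝ) * ‖∑ a ∈ Fintype.piFinset A, Ph i₀ (i :: L) f c a‖ =
          ‖(((A i).card : ℕ) : ℂ) * ∑ a ∈ Fintype.piFinset A, Ph i₀ (i :: L) f c a‖ := by
        rw [norm_mul, Complex.norm_natCast]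
      rw [e1, h1]
      have e2 : ‖∑ a ∈ Fintype.piFinset A, f i a * V a‖ ≤ ∑ a ∈ Fintype.piFinset A, ‖V a‖ := by
        refine (norm_sum_le _ _).trans (sum_le_sum fun a _ => ?_)
        rw [norm_mul]
        exact mul_le_of_le_one_left (norm_nonneg _) (hf1 _ _)
      refine (pow_le_pow_left₀ (norm_nonneg _) e2 2).trans ?_
      exact sq_sum_le_card_mul_sum_sq
    have h3 : ((∑ a ∈ Fintype.piFinset A, ‖V a‖ ^ 2 : ℝ) : ℂ) =
        ∑ x ∈ A i, ∑ x' ∈ A i, ∑ a ∈ Fintype.piFinset A, Ph i₀ L (f' x x') ((x - x') * c) a := by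
      push_cast
      have e1 : ∀ a, ((‖V a‖ : ℝ) : ℂ) ^ 2 =
          ∑ x ∈ A i, ∑ x' ∈ A i, Ph i₀ L (f' x x') ((x - x') * c) a := by
        intro a
        rw [← Complex.mul_conj', hV]
        simp only
        rw [map_sum, sum_mul_sum]
        exact sum_congr rfl fun x _ => sum_congr rfl fun x' _ => hkey x x' a
      rw [sum_congr rfl fun a _ => e1 a, sum_comm]
      refine sum_congr rfl fun x _ => ?_
      rw [sum_comm]
    set T : ZMod p → ZMod p → ℝ := fun x x' =>
      ‖∑ a ∈ Fintype.piFinset A, Ph i₀ L (f' x x') ((x - x') * c) a‖ / (Fintype.piFinset A).card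
      with hT
    have hT0 : ∀ x x', 0 ≤ T x x' := fun x x' => by rw [hT]; positivity
    have h4 : ∑ a ∈ Fintype.piFinset A, ‖V a‖ ^ 2 ≤
        (Fintype.piFinset A).card * ∑ x ∈ A i, ∑ x' ∈ A i, T x x' := by
      have e1 : ∑ a ∈ Fintype.piFinset A, ‖V a‖ ^ 2 =
          ‖((∑ a ∈ Fintype.piFinset A, ‖V a‖ ^ 2 : ℝ) : ℂ)‖ := by
        rw [Complex.norm_real, Real.norm_of_nonneg]
        exact sum_nonneg fun a _ => by positivity
      rw [e1, h3, mul_sum]
      refine (norm_sum_le _ _).trans (sum_le_sum fun x _ => ?_)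
      rw [mul_sum]
      refine (norm_sum_le _ _).trans (sum_le_sum fun x' _ => ?_)
      rw [hT]
      simp only
      rw [mul_div_cancel₀ _ hn.ne']
    have h5 : (‖∑ a ∈ Fintype.piFinset A, Ph i₀ (i :: L) f c a‖ / (Fintype.piFinset A).card) ^ 2 ≤
        (∑ x ∈ A i, ∑ x' ∈ A i, T x x') / ((A i).card : ℝ) ^ 2 := by
      rw [div_pow, div_le_div_iff₀ (by positivity) (by positivity)]
      rw [mul_pow] at h2
      calc _ = ((A i).card : ℝ) ^ 2 * ‖∑ a ∈ Fintype.piFinset A, Ph i₀ (i :: L) f c a‖ ^ 2 := by ring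
        _ ≤ _ := h2
        _ ≤ (Fintype.piFinset A).card * ((Fintype.piFinset A).card *
            ∑ x ∈ A i, ∑ x' ∈ A i, T x x') := mul_le_mul_of_nonneg_left h4 hn.le
        _ = _ := by ring
    rw [List.length_cons, pow_succ', pow_mul, List.map_cons, RA]
    refine (pow_le_pow_left₀ (by positivity) h5 _).trans ?_
    -- the mean of the powers
    have h6 : ((∑ x ∈ A i, ∑ x' ∈ A i, T x x') / ((A i).card : ℝ) ^ 2) ^ 2 ^ L.length ≤
        (∑ x ∈ A i, ∑ x' ∈ A i, T x x' ^ 2 ^ L.length) / ((A i).card : ℝ) ^ 2 := by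
      have e0 : ((A i ×ˢ A i).card : ℝ) = ((A i).card : ℝ) ^ 2 := by
        rw [card_product]
        push_cast
        ring
      have h7 := Real.pow_arith_mean_le_arith_mean_pow (A i ×ˢ A i)
        (fun _ => (((A i).card : ℝ) ^ 2)⁻¹) (fun q => T q.1 q.2) (fun _ _ => by positivity) (by
          rw [sum_const, nsmul_eq_mul, e0]
          exact mul_inv_cancel₀ (by positivity)) (fun q _ => hT0 _ _) (2 ^ L.length)
      rw [← mul_sum, ← mul_sum, sum_product, sum_product] at h7
      rw [div_eq_inv_mul, div_eq_inv_mul]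
      exact h7
    refine h6.trans ?_
    refine div_le_div_of_nonneg_right ?_ (by positivity)
    exact sum_le_sum fun x _ => sum_le_sum fun x' _ =>
      ih hnd' (f' x x') (hf'1 x x') (hf'2 x x') ((x - x') * c)

end box

open Classical in
/-- the law of the nonzero differences -/
noncomputable def cd (A : Finset (ZMod p)) (d : ZMod p) : ℝ :=
  if d = 0 then 0 else
    (((A ×ˢ A).filter fun q => q.1 - q.2 = d).card : ℝ) / ((A.card : ℝ) ^ 2 - A.card)

theorem RA_nn (A₀ : Finset (ZMod p)) : ∀ (L : List (Finset (ZMod p))) (c : ZMod p), 0 ≤ RA A₀ L c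
  | [], c => by rw [RA]; positivity
  | A :: L, c => by
    rw [RA]
    exact div_nonneg (sum_nonneg fun a _ => sum_nonneg fun a' _ => RA_nn A₀ L _) (by positivity)

theorem RA_le_one (A₀ : Finset (ZMod p)) : ∀ (L : List (Finset (ZMod p))) (c : ZMod p),
    RA A₀ L c ≤ 1
  | [], c => by
    rw [RA]
    refine div_le_one_of_le₀ ?_ (Nat.cast_nonneg _)
    refine (norm_sum_le _ _).trans ?_
    refine (sum_le_card_nsmul _ _ 1 fun a _ => (norm_e _).le).trans (le_of_eq ?_)
    rw [nsmul_eq_mul, mul_one]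
  | A :: L, c => by
    rw [RA]
    refine div_le_one_of_le₀ ?_ (by positivity)
    refine (sum_le_card_nsmul A _ (A.card : ℝ) fun a _ => ?_).trans (le_of_eq ?_)
    · refine (sum_le_card_nsmul A _ 1 fun a' _ => RA_le_one A₀ L _).trans (le_of_eq ?_)
      rw [nsmul_eq_mul, mul_one]
    · rw [nsmul_eq_mul, sq]

open Classical in
theorem sum_fib (A : Finset (ZMod p)) (g : ZMod p → ℝ) :
    ∑ a ∈ A, ∑ a' ∈ A, g (a - a') =
      ∑ d, (((A ×ˢ A).filter fun q => q.1 - q.2 = d).card : ℝ) * g d := by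
  rw [← sum_product (s := A) (t := A) (f := fun q => g (q.1 - q.2)),
    ← sum_fiberwise (A ×ˢ A) (fun q => q.1 - q.2)]
  refine sum_congr rfl fun d _ => ?_
  rw [← nsmul_eq_mul, ← sum_const]
  exact sum_congr rfl fun q hq => by rw [(mem_filter.1 hq).2]

open Classical in
theorem fib_zero (A : Finset (ZMod p)) :
    (((A ×ˢ A).filter fun q => q.1 - q.2 = 0).card : ℝ) = A.card := by
  have : ((A ×ˢ A).filter fun q => q.1 - q.2 = 0) = A.image fun a => (a, a) := by
    ext q
    rw [mem_filter, mem_product, mem_image]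
    constructor
    · rintro ⟨⟨h1, _⟩, h3⟩
      exact ⟨q.1, h1, Prod.ext rfl (sub_eq_zero.1 h3)⟩
    · rintro ⟨a, ha, rfl⟩
      exact ⟨⟨ha, ha⟩, sub_self a⟩
  rw [this, card_image_of_injective _ fun a b h => congrArg Prod.fst h]

theorem den_cd (A : Finset (ZMod p)) (hA : 2 ≤ A.card) : Den (cd A) := by
  classical
  have hA' : (2 : ℝ) ≤ A.card := by exact_mod_cast hA
  have h0 : (0 : ℝ) < (A.card : ℝ) ^ 2 - A.card := by nlinarith
  refine ⟨fun d => ?_, ?_⟩
  · unfold cd
    split_ifs
    · exact le_rfl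
    · positivity
  · have h1 := sum_fib A fun _ => 1
    simp only [sum_const, nsmul_eq_mul, mul_one] at h1
    have h2 : ∑ d, cd A d = (∑ d, (((A ×ˢ A).filter fun q => q.1 - q.2 = d).card : ℝ) -
        (((A ×ˢ A).filter fun q => q.1 - q.2 = 0).card : ℝ)) / ((A.card : ℝ) ^ 2 - A.card) := by
      rw [← sum_erase_eq_sub (mem_univ (0 : ZMod p)), sum_div, ← sum_erase univ (a := (0 : ZMod p))]
      · refine sum_congr rfl fun d hd => ?_
        unfold cd
        rw [if_neg (ne_of_mem_erase hd)]
      · unfold cd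
        rw [if_pos rfl]
    rw [h2, ← h1, fib_zero]
    rw [show (A.card : ℝ) * A.card - A.card = (A.card : ℝ) ^ 2 - A.card by ring]
    exact div_self h0.ne'

theorem sm_cd (A : Finset (ZMod p)) (hA : 2 ≤ A.card) : Sm (2 / A.card) (cd A) := by
  classical
  refine ⟨den_cd A hA, by unfold cd; rw [if_pos rfl], fun d => ?_⟩
  have hA' : (2 : ℝ) ≤ A.card := by exact_mod_cast hA
  have h0 : (0 : ℝ) < (A.card : ℝ) ^ 2 - A.card := by nlinarith
  unfold cd
  split_ifs with hd
  · positivity
  · have h1 : (((A ×ˢ A).filter fun q => q.1 - q.2 = d).card : ℝ) ≤ A.card := by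
      have : ((A ×ˢ A).filter fun q => q.1 - q.2 = d).card ≤ A.card := by
        refine card_le_card_of_injOn (fun q => q.1)
          (fun q h => (mem_product.1 (mem_filter.1 h).1).1) ?_
        intro q hq q' hq' h
        have e1 := (mem_filter.1 hq).2
        have e2 := (mem_filter.1 hq').2
        refine Prod.ext h ?_
        simp only at h
        rw [h] at e1
        exact sub_right_injective (e1.trans e2.symm)
      exact_mod_cast this
    rw [div_le_div_iff₀ h0 (by linarith)]
    nlinarith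

theorem RA_le (A₀ : Finset (ZMod p)) : ∀ (L : List (Finset (ZMod p))),
    (∀ A ∈ L, 2 ≤ A.card) → ∀ c : ZMod p, c ≠ 0 →
    RA A₀ L c ≤ Rs (uni A₀) (L.map cd) c + (L.map fun A => (1 : ℝ) / A.card).sum
  | [], _, c, _ => by
    classical
    rw [RA, List.map_nil, List.map_nil, List.sum_nil, add_zero, Rs]
    have : ft (uni A₀) c = (∑ a ∈ A₀, (ZMod.stdAddChar (c * a) : ℂ)) / A₀.card := by
      unfold ft uni
      rw [sum_div, ← sum_subset (subset_univ A₀)]
      · refine sum_congr rfl fun a ha => ?_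
        rw [if_pos ha]
        push_cast
        ring
      · intro a _ ha
        rw [if_neg ha]
        simp
    beta_reduce
    rw [this, norm_div, Complex.norm_natCast]
  | A :: L, hL, c, hc => by
    classical
    have hA : 2 ≤ A.card := hL A List.mem_cons_self
    have hL' : ∀ A ∈ L, 2 ≤ A.card := fun A' h' => hL A' (List.mem_cons_of_mem _ h')
    have ih := RA_le A₀ L hL'
    have hA' : (2 : ℝ) ≤ A.card := by exact_mod_cast hA
    have h0 : (0 : ℝ) < (A.card : ℝ) ^ 2 - A.card := by nlinarith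
    set s : ℝ := (L.map fun A => (1 : ℝ) / A.card).sum with hs
    have hs0 : 0 ≤ s := List.sum_nonneg fun x hx => by
      obtain ⟨B, -, rfl⟩ := List.mem_map.1 hx
      positivity
    have hden : ∀ β ∈ L.map cd, Den β := by
      intro β hβ
      obtain ⟨B, hB, rfl⟩ := List.mem_map.1 hβ
      exact den_cd B (hL' B hB)
    rw [RA, List.map_cons, List.map_cons, List.sum_cons, Rs, ← hs]
    beta_reduce
    rw [sum_fib A fun d => RA A₀ L (d * c), div_le_iff₀ (by positivity)]
    have h1 : ∀ d, (((A ×ˢ A).filter fun q => q.1 - q.2 = d).card : ℝ) * RA A₀ L (d * c) ≤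
        ((A.card : ℝ) ^ 2 - A.card) * (cd A d * (Rs (uni A₀) (L.map cd) (d * c) + s)) +
          if d = 0 then (A.card : ℝ) else 0 := by
      intro d
      by_cases hd : d = 0
      · subst hd
        rw [fib_zero, if_pos rfl, (sm_cd A hA).zero, zero_mul (Rs _ _ _ + s), mul_zero, zero_add]
        exact mul_le_of_le_one_right (Nat.cast_nonneg _) (RA_le_one _ _ _)
      · rw [if_neg hd, add_zero]
        have e1 : ((A.card : ℝ) ^ 2 - A.card) * cd A d =
            (((A ×ˢ A).filter fun q => q.1 - q.2 = d).card : ℝ) := by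
          unfold cd
          rw [if_neg hd, mul_div_cancel₀ _ h0.ne']
        rw [← mul_assoc, e1]
        exact mul_le_mul_of_nonneg_left (ih (d * c) (mul_ne_zero hd hc)) (Nat.cast_nonneg _)
    refine (sum_le_sum fun d _ => h1 d).trans ?_
    rw [sum_add_distrib, ← mul_sum, sum_ite_eq' univ (0 : ZMod p), if_pos (mem_univ _)]
    have h2 : ∑ d, cd A d * (Rs (uni A₀) (L.map cd) (d * c) + s) =
        ∑ d, cd A d * Rs (uni A₀) (L.map cd) (d * c) + s := by
      simp only [mul_add]
      rw [sum_add_distrib, ← sum_mul, (den_cd A hA).one, one_mul]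
    rw [h2]
    have h3 : 0 ≤ ∑ d, cd A d * Rs (uni A₀) (L.map cd) (d * c) :=
      sum_nonneg fun d _ => mul_nonneg ((den_cd A hA).nn d) (Rs_nn _ hden _)
    set R := ∑ d, cd A d * Rs (uni A₀) (L.map cd) (d * c) with hR
    have h4 : (1 / (A.card : ℝ)) * (A.card : ℝ) ^ 2 = A.card := by
      field_simp
    nlinarith

end Pool.Agent.U642.BG
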