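import Pool.Agent.N825.FC.Count

set_option autoImplicit false

/-! # Representatives in boxes (copied from `Pool.Agent.N825.FC.Core`, to avoid its imports) -/

namespace Pool.Agent.U642.BG

open Finset Filter
open Pool.Agent.N825.FC (count l1 card_T)

/-- The integer congruent to `x` modulo `P` in `(M, M + P]`. -/
def rep {P : ℕ} (M : ℤ) (x : ZMod P) : ℤ := M + 1 + ((x - ((M + 1 : ℤ) : ZMod P)).val : ℤ)

lemma rep_gt {P : ℕ} (M : ℤ) (x : ZMod P) : M < rep M x := by
  unfold rep; omega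

lemma rep_le {P : ℕ} [NeZero P] (M : ℤ) (x : ZMod P) : rep M x ≤ M + P := by
  unfold rep
  have := ZMod.val_lt (x - ((M + 1 : ℤ) : ZMod P))
  omega

lemma rep_cast {P : ℕ} [NeZero P] (M : ℤ) (x : ZMod P) : ((rep M x : ℤ) : ZMod P) = x := by
  unfold rep
  push_cast
  rw [ZMod.natCast_zmod_val]
  ring

lemma rep_unique {P : ℕ} [NeZero P] (M : ℤ) (x : ZMod P) (n : ℤ) (h1 : M < n) (h2 : n ≤ M + P)
    (h : (n : ZMod P) = x) : n = rep M x := by
  have h3 := rep_gt M x
  have h4 := rep_le M x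
  have h5 : (n : ZMod P) = ((rep M x : ℤ) : ZMod P) := by rw [h, rep_cast]
  rw [ZMod.intCast_eq_intCast_iff_dvd_sub] at h5
  obtain ⟨k, hk⟩ := h5
  have hP : (0 : ℤ) < P := by exact_mod_cast Nat.pos_of_ne_zero (NeZero.ne P)
  have hk0 : k = 0 := by
    by_contra hne
    rcases lt_or_gt_of_ne hne with h6 | h6
    · have : (P : ℤ) * k ≤ P * (-1) := mul_le_mul_of_nonneg_left (by omega) hP.le
      omega
    · have : (P : ℤ) * 1 ≤ P * k := mul_le_mul_of_nonneg_left (by omega) hP.le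
      omega
  rw [hk0, mul_zero] at hk
  omega

lemma card_ind {P : ℕ} [NeZero P] (M : ℤ) (T : Finset ℤ) (hT : T ⊆ Ioc M (M + P)) (x : ZMod P) :
    (T.filter fun n : ℤ => (n : ZMod P) = x).card = if rep M x ∈ T then 1 else 0 := by
  classical
  split_ifs with h
  · rw [card_eq_one]
    refine ⟨rep M x, ?_⟩
    ext n
    simp only [mem_filter, mem_singleton]
    constructor
    · rintro ⟨h1, h2⟩
      have h3 := mem_Ioc.1 (hT h1)
      exact rep_unique M x n h3.1 h3.2 h2
    · rintro rfl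
      exact ⟨h, rep_cast M x⟩
  · rw [card_eq_zero, filter_eq_empty_iff]
    intro n hn h2
    have h3 := mem_Ioc.1 (hT hn)
    exact h (rep_unique M x n h3.1 h3.2 h2 ▸ hn)

lemma prod_diff {κ : Type} (S : Finset κ) (a : κ → ℝ) (b e : ℝ) (ha0 : ∀ j, 0 ≤ a j)
    (ha : ∀ j, a j ≤ 1) (hb0 : 0 ≤ b) (hb : b ≤ 1) (hab : ∀ j, |a j - b| ≤ e) :
    |∏ j ∈ S, a j - b ^ S.card| ≤ S.card * e := by
  classical
  induction S using Finset.induction_on with
  | empty => simp
  | insert j S hj ih =>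
    rw [prod_insert hj, card_insert_of_notMem hj, pow_succ]
    have h1 : a j * ∏ x ∈ S, a x - b ^ S.card * b =
        a j * (∏ x ∈ S, a x - b ^ S.card) + b ^ S.card * (a j - b) := by ring
    rw [h1]
    refine (abs_add_le _ _).trans ?_
    rw [abs_mul, abs_mul, abs_of_nonneg (ha0 j), abs_of_nonneg (pow_nonneg hb0 _)]
    have h2 : a j * |∏ x ∈ S, a x - b ^ S.card| ≤ 1 * |∏ x ∈ S, a x - b ^ S.card| :=
      mul_le_mul_of_nonneg_right (ha j) (abs_nonneg _)
    have h3 : b ^ S.card * |a j - b| ≤ 1 * |a j - b| :=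
      mul_le_mul_of_nonneg_right (pow_le_one₀ hb0 hb) (abs_nonneg _)
    have h4 := hab j
    push_cast
    linarith

/-- Equidistribution of the representatives in a box. -/
theorem eqd (P : ℕ) [NeZero P] {ι : Type} (s : Finset ι) (r : ℕ) (v : ι → Fin r → ZMod P)
    (W : ℝ) (hW : ∀ h : Fin r → ZMod P, h ≠ 0 → ‖∑ i ∈ s, ZMod.stdAddChar (∑ j, h j * v i j)‖ ≤ W)
    (hW0 : 0 ≤ W) (M : Fin r → ℤ) (L : ℕ) (hL : L ≤ P) (q : ℕ) (hq : 1 ≤ q)
    (hPq : Nat.Coprime P q) (ρ : Fin r → ℤ) :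
    |((s.filter fun i => ∀ j, rep (M j) (v i j) ≤ M j + L ∧
        (q : ℤ) ∣ rep (M j) (v i j) - ρ j).card : ℝ) - s.card * ((L : ℝ) / P / q) ^ r| ≤
      W * (2 + Real.log P) ^ r + s.card * (r / P) := by
  classical
  have hP0 : (0 : ℝ) < P := by exact_mod_cast Nat.pos_of_ne_zero (NeZero.ne P)
  have hq0 : (1 : ℝ) ≤ q := by exact_mod_cast hq
  have hLP : (L : ℝ) ≤ P := by exact_mod_cast hL
  set T : Fin r → Finset ℤ := fun j =>
    (Ioc (M j) (M j + L)).filter fun n : ℤ => n ≡ ρ j [ZMOD q] with hT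
  have hsub : ∀ j, T j ⊆ Ioc (M j) (M j + P) := by
    intro j n hn
    have := mem_Ioc.1 (mem_filter.1 hn).1
    exact mem_Ioc.2 ⟨this.1, by omega⟩
  have h1 := count P s r v W hW hW0 T (2 + Real.log P)
    (fun j => l1 P q hq hPq (M j) (ρ j) L hL)
  have h2 : (∑ i ∈ s, ∏ j, (((T j).filter fun n : ℤ => (n : ZMod P) = v i j).card : ℝ)) =
      ((s.filter fun i => ∀ j, rep (M j) (v i j) ≤ M j + L ∧
        (q : ℤ) ∣ rep (M j) (v i j) - ρ j).card : ℝ) := by
    rw [card_filter]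
    push_cast
    refine sum_congr rfl fun i _ => ?_
    have h3 : ∀ j, (((T j).filter fun n : ℤ => (n : ZMod P) = v i j).card : ℝ) =
        if (rep (M j) (v i j) ≤ M j + L ∧ (q : ℤ) ∣ rep (M j) (v i j) - ρ j) then 1 else 0 := by
      intro j
      rw [card_ind (M j) (T j) (hsub j) (v i j)]
      have h4 : rep (M j) (v i j) ∈ T j ↔
          (rep (M j) (v i j) ≤ M j + L ∧ (q : ℤ) ∣ rep (M j) (v i j) - ρ j) := by
        rw [hT, mem_filter, mem_Ioc]
        have h5 := rep_gt (M j) (v i j)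
        constructor
        · rintro ⟨⟨_, a2⟩, a3⟩
          exact ⟨a2, (Int.modEq_iff_dvd.1 a3.symm)⟩
        · rintro ⟨a2, a3⟩
          exact ⟨⟨h5, a2⟩, (Int.modEq_iff_dvd.2 a3).symm⟩
      by_cases h6 : rep (M j) (v i j) ∈ T j
      · rw [if_pos h6, if_pos (h4.1 h6)]; norm_num
      · rw [if_neg h6, if_neg (fun h => h6 (h4.2 h))]; norm_num
    rw [prod_congr rfl fun j _ => h3 j, prod_ite_zero]
    simp
  rw [h2] at h1
  have h3 : |∏ j, ((T j).card : ℝ) / P - ((L : ℝ) / P / q) ^ r| ≤ r * (1 / P) := by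
    have h4 := prod_diff (univ : Finset (Fin r)) (fun j => ((T j).card : ℝ) / P)
      ((L : ℝ) / P / q) (1 / P) (fun j => by positivity)
      (fun j => by
        rw [div_le_one hP0]
        have h5 : (T j).card ≤ L := by
          refine (card_filter_le _ _).trans ?_
          simp
        have : ((T j).card : ℝ) ≤ L := by exact_mod_cast h5
        linarith)
      (by positivity)
      (by
        rw [div_le_one (by linarith), div_le_iff₀ hP0]
        nlinarith)
      (fun j => by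
        have h5 := card_T q hq (M j) (ρ j) L
        have h6 : ((T j).card : ℝ) / P - (L : ℝ) / P / q = (((T j).card : ℝ) - L / q) / P := by
          field_simp
        rw [h6, abs_div, abs_of_pos hP0]
        exact div_le_div_of_nonneg_right h5 hP0.le)
    rw [card_univ, Fintype.card_fin] at h4
    exact h4
  have h4 : (s.card : ℝ) * ((L : ℝ) / P / q) ^ r = s.card * ∏ j, ((T j).card : ℝ) / P -
      s.card * (∏ j, ((T j).card : ℝ) / P - ((L : ℝ) / P / q) ^ r) := by ring
  rw [h4]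
  have h5 : |(s.card : ℝ) * (∏ j, ((T j).card : ℝ) / P - ((L : ℝ) / P / q) ^ r)| ≤
      s.card * (r / P) := by
    rw [abs_mul, abs_of_nonneg (Nat.cast_nonneg _)]
    apply mul_le_mul_of_nonneg_left _ (Nat.cast_nonneg _)
    calc _ ≤ (r : ℝ) * (1 / P) := h3
      _ = r / P := by ring
  have h6 : ∀ x y z : ℝ, |x - (y - z)| ≤ |x - y| + |z| := by
    intro x y z
    have : x - (y - z) = (x - y) + z := by ring
    rw [this]
    exact abs_add_le _ _
  exact (h6 _ _ _).trans (add_le_add h1 h5)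

end Pool.Agent.U642.BG
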