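import Pool.Agent.U642.WP.Cnt
import Pool.Agent.U642.BG.Eqd

set_option autoImplicit false

/-! # The criterion for pairs: integers and residues modulo `P` -/

namespace Pool.Agent.U642.BG

open Finset Filter
open Pool.Agent.W147.PS (ff ev_pow)
open Pool.Agent.N542.PT (Crit Good)
open Pool.Agent.U642.WP (crit_cnt)

open scoped Classical in
theorem pair_box (k r : ℕ) (c : ℝ) (hc : 0 < c) (hc1 : c ≤ 1) :
    ∀ᶠ Z : ℝ in atTop, ∀ (P : ℕ) [Fact P.Prime], (P : ℝ) = Z →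
    ∀ (α : Type) (s : Finset α) (u : α → Fin k → ℤ) (v : α → Fin r → ZMod P),
    (∀ q : ℕ, 1 ≤ q → (q : ℝ) ≤ (P : ℝ) ^ c → ∀ τ : Fin k → ℤ,
      |((s.filter (fun i => ∀ j, (q : ℤ) ∣ u i j - τ j)).card : ℝ) - s.card / (q : ℝ) ^ k| ≤
        s.card * (P : ℝ) ^ (-c) ∧
      ∀ h : Fin r → ZMod P, h ≠ 0 →
      ‖∑ i ∈ s.filter (fun i => ∀ j, (q : ℤ) ∣ u i j - τ j),
        (ZMod.stdAddChar (∑ j, h j * v i j) : ℂ)‖ ≤ s.card * (P : ℝ) ^ (-c)) →
    ∀ (M : Fin r → ℤ) (L : ℕ), (P : ℝ) ^ (1 - c / (8 * (r + 1))) ≤ 2 * L → L ≤ P →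
    ∀ s' : Finset α, s' = s.filter (fun i => ∀ j, rep (M j) (v i j) ≤ M j + L) →
    s.card * (P : ℝ) ^ (-(c / 4)) ≤ s'.card ∧
    ∀ q : ℕ, 1 ≤ q → q < P → (q : ℝ) ≤ (P : ℝ) ^ c → ∀ (τ : Fin k → ℤ) (ρ : Fin r → ℤ),
      |((s'.filter (fun i => (∀ j, (q : ℤ) ∣ u i j - τ j) ∧
        ∀ j, (q : ℤ) ∣ rep (M j) (v i j) - ρ j)).card : ℝ) -
        s'.card / (q : ℝ) ^ (k + r)| ≤ s'.card * (P : ℝ) ^ (-(c / 4)) := by
  have hr0 : (0 : ℝ) ≤ r := Nat.cast_nonneg _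
  obtain ⟨δ, hδ⟩ : ∃ δ : ℝ, δ = c / (8 * (r + 1)) := ⟨_, rfl⟩
  have hδ0 : 0 < δ := by rw [hδ]; positivity
  have hδr : δ * (r + 1) = c / 8 := by rw [hδ]; field_simp
  rw [← hδ]
  have hlogr : ∀ᶠ Z : ℝ in atTop, (2 + Real.log Z) ^ r ≤ Z ^ (c / 4) := by
    have h := (isLittleO_log_rpow_atTop (show (0 : ℝ) < c / (8 * (r + 1)) by positivity)).def
      (show (0 : ℝ) < 1 by norm_num)
    filter_upwards [h, ev_pow 0 (c / (8 * (r + 1))) 2 (by positivity),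
      ev_pow (c / (8 * (r + 1))) (c / (4 * (r + 1))) 2 (by
        rw [div_lt_div_iff₀ (by positivity) (by positivity)]
        nlinarith), eventually_ge_atTop (1 : ℝ)] with Z h1 h2 h3 hZ1
    rw [Real.norm_eq_abs, abs_of_nonneg (Real.log_nonneg hZ1), Real.norm_eq_abs,
      abs_of_nonneg (Real.rpow_nonneg (by linarith) _), one_mul] at h1
    rw [Real.rpow_zero, mul_one] at h2
    have h4 : 2 + Real.log Z ≤ Z ^ (c / (4 * (r + 1))) := by linarith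
    calc (2 + Real.log Z) ^ r ≤ (Z ^ (c / (4 * (r + 1)))) ^ r :=
          pow_le_pow_left₀ (by have := Real.log_nonneg hZ1; linarith) h4 r
      _ ≤ Z ^ (c / 4) := by
          rw [← Real.rpow_natCast, ← Real.rpow_mul (by linarith)]
          apply Real.rpow_le_rpow_of_exponent_le hZ1
          rw [div_mul_eq_mul_div, div_le_div_iff₀ (by positivity) (by norm_num)]
          nlinarith
  filter_upwards [hlogr, ev_pow (-(3 * c / 4)) (-(c / 2)) 64 (by linarith),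
    ev_pow (-1) (-(c / 2)) (64 * r) (by linarith),
    ev_pow (-(c / 2)) (-(c / 8)) (2 * 2 ^ r) (by linarith),
    ev_pow (-(c / 4)) (-(c / 8)) (2 * 2 ^ r) (by linarith), eventually_gt_atTop (1 : ℝ),
    ev_pow (-c) (-(3 * c / 4)) 1 (by linarith)]
    with Z hlog e1 e2 e3 e4 hZ1 e5
  intro P hPf hPZ α s u v hv M L hL1 hL2 s' hs'
  subst hPZ
  have hPprime : P.Prime := Fact.out
  have hP1 : (1 : ℝ) < P := hZ1
  have hP0 : (0 : ℝ) < P := by linarith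
  have hs0 : (0 : ℝ) ≤ s.card := Nat.cast_nonneg _
  obtain ⟨E, hE⟩ : ∃ E : ℝ, E = s.card * (P : ℝ) ^ (-c) * (2 + Real.log P) ^ r +
    s.card * (r / P) + s.card * (P : ℝ) ^ (-c) := ⟨_, rfl⟩
  have hE1 : E ≤ s.card * ((P : ℝ) ^ (-(c / 2)) / 16) := by
    have a1 : (P : ℝ) ^ (-c) * (2 + Real.log P) ^ r ≤ (P : ℝ) ^ (-(3 * c / 4)) := by
      calc (P : ℝ) ^ (-c) * (2 + Real.log P) ^ r ≤ (P : ℝ) ^ (-c) * (P : ℝ) ^ (c / 4) :=
            mul_le_mul_of_nonneg_left hlog (by positivity)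
        _ = (P : ℝ) ^ (-(3 * c / 4)) := by
            rw [← Real.rpow_add hP0]; congr 1; ring
    have a2 : (r : ℝ) / P = r * (P : ℝ) ^ (-1 : ℝ) := by
      rw [Real.rpow_neg_one]; rfl
    have a3 : E = s.card * ((P : ℝ) ^ (-c) * (2 + Real.log P) ^ r + r / P + (P : ℝ) ^ (-c)) := by
      rw [hE]; ring
    rw [a3]
    apply mul_le_mul_of_nonneg_left _ hs0
    rw [a2]
    have a4 : 0 ≤ (P : ℝ) ^ (-(c / 2)) := by positivity
    linarith
  have hE0 : 0 ≤ E := by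
    have : 0 ≤ Real.log P := Real.log_nonneg hP1.le
    rw [hE]
    positivity
  have heq : ∀ q : ℕ, 1 ≤ q → (q : ℝ) ≤ (P : ℝ) ^ c → Nat.Coprime P q → ∀ (τ : Fin k → ℤ)
      (ρ : Fin r → ℤ),
      |(((s.filter (fun i => ∀ j, (q : ℤ) ∣ u i j - τ j)).filter fun i => ∀ j,
        rep (M j) (v i j) ≤ M j + L ∧ (q : ℤ) ∣ rep (M j) (v i j) - ρ j).card : ℝ) -
        s.card / (q : ℝ) ^ k * ((L : ℝ) / P / q) ^ r| ≤ E := by
    intro q hq hqc hcop τ ρ
    obtain ⟨b1, b2⟩ := hv q hq hqc τ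
    have b3 := eqd P (s.filter (fun i => ∀ j, (q : ℤ) ∣ u i j - τ j)) r v
      (s.card * (P : ℝ) ^ (-c)) b2 (by positivity) M L hL2 q hq hcop ρ
    have hsub : ((s.filter (fun i => ∀ j, (q : ℤ) ∣ u i j - τ j)).card : ℝ) ≤ s.card := by
      exact_mod_cast card_filter_le _ _
    set sτ : ℝ := ((s.filter (fun i => ∀ j, (q : ℤ) ∣ u i j - τ j)).card : ℝ) with hsτ
    set X : ℝ := ((L : ℝ) / P / q) ^ r with hX
    have hX0 : 0 ≤ X := by rw [hX]; positivity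
    have hX1 : X ≤ 1 := by
      rw [hX]
      apply pow_le_one₀ (by positivity)
      have hq1 : (1 : ℝ) ≤ q := by exact_mod_cast hq
      rw [div_le_one (by linarith), div_le_iff₀ hP0]
      have hLP : (L : ℝ) ≤ P := by exact_mod_cast hL2
      nlinarith
    have b4 : |sτ * X - s.card / (q : ℝ) ^ k * X| ≤ s.card * (P : ℝ) ^ (-c) := by
      rw [← sub_mul, abs_mul, abs_of_nonneg hX0]
      calc |sτ - s.card / (q : ℝ) ^ k| * X ≤ (s.card * (P : ℝ) ^ (-c)) * 1 :=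
            mul_le_mul b1 hX1 hX0 (by positivity)
        _ = _ := mul_one _
    have b5 : sτ * (r / P) ≤ s.card * (r / P) :=
      mul_le_mul_of_nonneg_right hsub (by positivity)
    have b6 : ∀ x y z : ℝ, |x - z| ≤ |x - y| + |y - z| := fun x y z => abs_sub_le x y z
    refine (b6 _ (sτ * X) _).trans ?_
    rw [hE]
    linarith
  have hone : |(s'.card : ℝ) - s.card * ((L : ℝ) / P) ^ r| ≤ E := by
    have h1 := heq 1 le_rfl (by
      push_cast
      exact Real.one_le_rpow hP1.le hc.le) (Nat.coprime_one_right P) 0 0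
    have h2 : ((s.filter (fun i => ∀ j, ((1 : ℕ) : ℤ) ∣ u i j - (0 : Fin k → ℤ) j)).filter
        fun i => ∀ j, rep (M j) (v i j) ≤ M j + L ∧
        ((1 : ℕ) : ℤ) ∣ rep (M j) (v i j) - (0 : Fin r → ℤ) j) = s' := by
      rw [hs', filter_filter]
      refine filter_congr fun i _ => ?_
      simp
    rw [h2] at h1
    simpa using h1
  have hLP : (P : ℝ) ^ (-(c / 8)) ≤ 2 ^ r * ((L : ℝ) / P) ^ r := by
    have h1 : (P : ℝ) ^ (-δ) ≤ 2 * ((L : ℝ) / P) := by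
      rw [← mul_div_assoc, le_div_iff₀ hP0]
      calc (P : ℝ) ^ (-δ) * P = (P : ℝ) ^ (1 - δ) := by
            nth_rewrite 2 [← Real.rpow_one (P : ℝ)]
            rw [← Real.rpow_add hP0]; congr 1; ring
        _ ≤ 2 * L := hL1
    calc (P : ℝ) ^ (-(c / 8)) ≤ ((P : ℝ) ^ (-δ)) ^ r := by
          rw [← Real.rpow_natCast, ← Real.rpow_mul hP0.le]
          apply Real.rpow_le_rpow_of_exponent_le hP1.le
          nlinarith
      _ ≤ (2 * ((L : ℝ) / P)) ^ r := pow_le_pow_left₀ (by positivity) h1 r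
      _ = _ := by rw [mul_pow]
  have h2r : (0 : ℝ) < 2 ^ r := by positivity
  have hhalf : (P : ℝ) ^ (-(c / 4)) ≤ 1 * ((L : ℝ) / P) ^ r / 2 * 1 := by
    have h1 : 2 * 2 ^ r * (P : ℝ) ^ (-(c / 4)) ≤ 2 ^ r * ((L : ℝ) / P) ^ r := e4.trans hLP
    have h2 : (2 : ℝ) ^ r * (2 * (P : ℝ) ^ (-(c / 4))) ≤ 2 ^ r * ((L : ℝ) / P) ^ r := by linarith
    have h3 := le_of_mul_le_mul_left h2 h2r
    linarith
  have hhalf2 : (P : ℝ) ^ (-(c / 2)) ≤ ((L : ℝ) / P) ^ r / 2 := by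
    have h1 : 2 * 2 ^ r * (P : ℝ) ^ (-(c / 2)) ≤ 2 ^ r * ((L : ℝ) / P) ^ r := e3.trans hLP
    have h2 : (2 : ℝ) ^ r * (2 * (P : ℝ) ^ (-(c / 2))) ≤ 2 ^ r * ((L : ℝ) / P) ^ r := by linarith
    have h3 := le_of_mul_le_mul_left h2 h2r
    linarith
  have hlow : s.card * ((L : ℝ) / P) ^ r / 2 ≤ s'.card := by
    have h1 := (abs_le.1 hone).1
    have h2 : (s.card : ℝ) * ((P : ℝ) ^ (-(c / 2)) / 16) ≤ s.card * (((L : ℝ) / P) ^ r / 2) := by
      apply mul_le_mul_of_nonneg_left _ hs0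
      have : 0 ≤ (P : ℝ) ^ (-(c / 2)) := by positivity
      linarith
    nlinarith
  have hlow1 : s.card * (P : ℝ) ^ (-(c / 4)) ≤ s'.card := by
    refine le_trans ?_ hlow
    have := mul_le_mul_of_nonneg_left hhalf hs0
    linarith
  refine ⟨hlow1, ?_⟩
  intro q hq hqP hqc τ ρ
  have hq1 : (1 : ℝ) ≤ q := by exact_mod_cast hq
  have hqk : (1 : ℝ) ≤ (q : ℝ) ^ (k + r) := one_le_pow₀ hq1
  have hcop : Nat.Coprime P q :=
    (Nat.Prime.coprime_iff_not_dvd hPprime).2 fun h => absurd (Nat.le_of_dvd hq h) (by omega)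
  have h1 := heq q hq hqc hcop τ ρ
  have h2 : ((s.filter (fun i => ∀ j, (q : ℤ) ∣ u i j - τ j)).filter fun i => ∀ j,
        rep (M j) (v i j) ≤ M j + L ∧ (q : ℤ) ∣ rep (M j) (v i j) - ρ j) =
      s'.filter (fun i => (∀ j, (q : ℤ) ∣ u i j - τ j) ∧
        ∀ j, (q : ℤ) ∣ rep (M j) (v i j) - ρ j) := by
    rw [hs', filter_filter, filter_filter]
    refine filter_congr fun i _ => ?_
    rw [forall_and]
    tauto
  rw [h2] at h1
  set N : ℝ := ((s'.filter (fun i => (∀ j, (q : ℤ) ∣ u i j - τ j) ∧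
        ∀ j, (q : ℤ) ∣ rep (M j) (v i j) - ρ j)).card : ℝ) with hN
  have h3 : N - s'.card / (q : ℝ) ^ (k + r) = (N - s.card / (q : ℝ) ^ k * ((L : ℝ) / P / q) ^ r) -
      (s'.card - s.card * ((L : ℝ) / P) ^ r) / (q : ℝ) ^ (k + r) := by
    rw [div_pow ((L : ℝ) / P), pow_add]
    have : (q : ℝ) ≠ 0 := by linarith
    field_simp
    ring
  rw [h3]
  refine (abs_sub _ _).trans ?_
  rw [abs_div, abs_of_pos (by linarith : (0 : ℝ) < (q : ℝ) ^ (k + r))]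
  have h4 : |(s'.card : ℝ) - s.card * ((L : ℝ) / P) ^ r| / (q : ℝ) ^ (k + r) ≤ E :=
    (div_le_self (abs_nonneg _) hqk).trans hone
  have h5 : 2 * E ≤ s'.card * (P : ℝ) ^ (-(c / 4)) := by
    have h6 : s.card * (P : ℝ) ^ (-(c / 2)) ≤ s'.card * (P : ℝ) ^ (-(c / 4)) := by
      have h7 : (P : ℝ) ^ (-(c / 2)) = (P : ℝ) ^ (-(c / 4)) * (P : ℝ) ^ (-(c / 4)) := by
        rw [← Real.rpow_add hP0]
        congr 1
        ring
      rw [h7, ← mul_assoc]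
      exact mul_le_mul_of_nonneg_right hlow1 (by positivity)
    have h8 : 0 ≤ s.card * (P : ℝ) ^ (-(c / 2)) := by positivity
    linarith
  linarith

open scoped Classical in
/-- **the criterion for pairs** -/
theorem pair_crit {ι : Type} (k r : ℕ) (F : ι → MvPolynomial (Fin (k + r)) ℤ)
    (hF : Crit (k + r) F) (c : ℝ) (hc : 0 < c) (hc1 : c ≤ 1) :
    ∃ κ : ℝ, 0 < κ ∧ ∀ᶠ Z : ℝ in atTop, ∀ (P : ℕ) [Fact P.Prime], (P : ℝ) = Z →
    ∀ (α : Type) (s : Finset α) (u : α → Fin k → ℤ) (v : α → Fin r → ZMod P),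
    (∀ q : ℕ, 1 ≤ q → (q : ℝ) ≤ (P : ℝ) ^ c → ∀ τ : Fin k → ℤ,
      |((s.filter (fun i => ∀ j, (q : ℤ) ∣ u i j - τ j)).card : ℝ) - s.card / (q : ℝ) ^ k| ≤
        s.card * (P : ℝ) ^ (-c) ∧
      ∀ h : Fin r → ZMod P, h ≠ 0 →
      ‖∑ i ∈ s.filter (fun i => ∀ j, (q : ℤ) ∣ u i j - τ j),
        (ZMod.stdAddChar (∑ j, h j * v i j) : ℂ)‖ ≤ s.card * (P : ℝ) ^ (-c)) →
    ∀ (M : Fin r → ℤ) (L : ℕ), (P : ℝ) ^ (1 - c / (8 * (r + 1))) ≤ L → L ≤ P →
    s.card * (P : ℝ) ^ (-c) ≤ ((s.filter (fun i =>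
      (∀ j, rep (M j) (v i j) ≤ M j + L) ∧ Good F (κ * ff P) ((P : ℝ) ^ c)
        (Fin.append (u i) (fun j => rep (M j) (v i j))))).card : ℝ) := by
  have hr0 : (0 : ℝ) ≤ r := Nat.cast_nonneg _
  have hk0 : (0 : ℝ) ≤ k := Nat.cast_nonneg _
  obtain ⟨κ, hκ, hcrit⟩ := crit_cnt (k + r) F hF (c / 4) (by positivity) (by linarith)
  refine ⟨κ, hκ, ?_⟩
  filter_upwards [hcrit, pair_box k r c hc hc1, eventually_gt_atTop (1 : ℝ),
    ev_pow (-c) (-(c / 2)) 1 (by linarith)] with Z g1 g2 g3 g4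
  intro P hPf hPZ α s u v hv M L hL1 hL2
  subst hPZ
  have hPprime : P.Prime := Fact.out
  have hP1 : (1 : ℝ) < P := g3
  have hP0 : (0 : ℝ) < P := by linarith
  obtain ⟨s', hs'⟩ : ∃ s' : Finset α, s' = s.filter (fun i => ∀ j,
    rep (M j) (v i j) ≤ M j + L) := ⟨_, rfl⟩
  have hL0 : (0 : ℝ) ≤ L := Nat.cast_nonneg _
  obtain ⟨a1, a2⟩ := g2 P rfl α s u v hv M L (by linarith) hL2 s' hs'
  have a3 := g1 α s' (fun i => Fin.append (u i) (fun j => rep (M j) (v i j))) (by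
    intro q hq hqP ρ
    have hq1 : (q : ℝ) ≤ (P : ℝ) ^ (c / 16) := by
      refine hqP.trans (Real.rpow_le_rpow_of_exponent_le hP1.le ?_)
      push_cast
      rw [div_le_div_iff₀ (by positivity) (by norm_num)]
      nlinarith
    have hq2 : (q : ℝ) ≤ (P : ℝ) ^ c :=
      hq1.trans (Real.rpow_le_rpow_of_exponent_le hP1.le (by linarith))
    have hq3 : q < P := by
      have h3 : (q : ℝ) < P := by
        refine hq1.trans_lt ?_
        calc (P : ℝ) ^ (c / 16) < (P : ℝ) ^ (1 : ℝ) := by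
              apply Real.rpow_lt_rpow_of_exponent_lt hP1
              linarith
          _ = P := Real.rpow_one _
      exact_mod_cast h3
    have h1 := a2 q hq hq3 hq2 (fun j => ρ (Fin.castAdd r j)) (fun j => ρ (Fin.natAdd k j))
    have h2 : (s'.filter (fun i => ∀ j, (q : ℤ) ∣
        Fin.append (u i) (fun j => rep (M j) (v i j)) j - ρ j)) =
        s'.filter (fun i => (∀ j, (q : ℤ) ∣ u i j - ρ (Fin.castAdd r j)) ∧
        ∀ j, (q : ℤ) ∣ rep (M j) (v i j) - ρ (Fin.natAdd k j)) := by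
      refine filter_congr fun i _ => ?_
      constructor
      · intro h
        refine ⟨fun j => ?_, fun j => ?_⟩
        · have := h (Fin.castAdd r j)
          rwa [Fin.append_left] at this
        · have := h (Fin.natAdd k j)
          rwa [Fin.append_right] at this
      · rintro ⟨h, h'⟩ j
        refine Fin.addCases (fun j => ?_) (fun j => ?_) j
        · rw [Fin.append_left]; exact h j
        · rw [Fin.append_right]; exact h' j
    rw [h2]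
    exact h1)
  have a4 : s.card * (P : ℝ) ^ (-c) ≤ (P : ℝ) ^ (-(c / 4)) * s'.card := by
    have h3 : (P : ℝ) ^ (-(c / 2)) = (P : ℝ) ^ (-(c / 4)) * (P : ℝ) ^ (-(c / 4)) := by
      rw [← Real.rpow_add hP0]
      congr 1
      ring
    calc s.card * (P : ℝ) ^ (-c) ≤ s.card * (P : ℝ) ^ (-(c / 2)) := by
          apply mul_le_mul_of_nonneg_left _ (Nat.cast_nonneg _)
          linarith
      _ = (P : ℝ) ^ (-(c / 4)) * (s.card * (P : ℝ) ^ (-(c / 4))) := by rw [h3]; ring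
      _ ≤ _ := mul_le_mul_of_nonneg_left a1 (by positivity)
  refine (a4.trans a3).trans ?_
  rw [Nat.cast_le]
  apply card_le_card
  intro i hi
  rw [mem_filter, hs', mem_filter] at hi
  rw [mem_filter]
  refine ⟨hi.1.1, hi.1.2, ?_⟩
  intro j n hn
  obtain ⟨l, hl, hl1, hl2⟩ := hi.2 j n hn
  exact ⟨l, hl, hl1.trans (Real.rpow_le_rpow_of_exponent_le hP1.le (by linarith)), hl2⟩

end Pool.Agent.U642.BG
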