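import Pool.Agent.U642.BG.Expo
import Pool.Agent.U642.BG.Joint

set_option autoImplicit false

/-! # Sums with discrete exponentials over exponents in residue classes -/

open Finset Filter

namespace Pool.Agent.U642.BG

open Pool.Agent.W147.PS (ev_pow)

/-- the members of a residue class in an interval -/
theorem class_eq (a N q : ℕ) (hq : 1 ≤ q) (τ : ℤ) : ∃ b N' : ℕ,
    (Ico a (a + N)).filter (fun n : ℕ => (q : ℤ) ∣ (n : ℤ) - τ) =
      (range N').image (fun m => b + q * m) ∧ |(N' : ℝ) - (N : ℝ) / q| ≤ 1 := by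
  have hq0 : (0 : ℤ) < q := by exact_mod_cast hq
  obtain ⟨t, ht⟩ : ∃ t : ℕ, (t : ℤ) = (τ - a) % q := ⟨((τ - a) % q).toNat,
    Int.toNat_of_nonneg (Int.emod_nonneg _ hq0.ne')⟩
  have ht1 : t < q := by
    have := Int.emod_lt_of_pos (τ - a) hq0
    rw [← ht] at this
    exact_mod_cast this
  have ht2 : (q : ℤ) ∣ (τ - a) - t := by
    rw [ht]
    exact Int.dvd_self_sub_emod
  refine ⟨a + t, (N + q - 1 - t) / q, ?_, ?_⟩
  · ext n
    rw [mem_filter, mem_Ico, mem_image]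
    constructor
    · rintro ⟨⟨h1, h2⟩, h3⟩
      have h4 : (q : ℤ) ∣ (n : ℤ) - a - t := by
        have : (n : ℤ) - a - t = ((n : ℤ) - τ) + ((τ - a) - t) := by ring
        rw [this]
        exact dvd_add h3 ht2
      obtain ⟨z, hz⟩ := h4
      have hz0 : 0 ≤ z := by
        by_contra hneg
        push Not at hneg
        have h5 : (q : ℤ) * z ≤ q * (-1) := mul_le_mul_of_nonneg_left (by omega) hq0.le
        have h6 : (t : ℤ) < q := by exact_mod_cast ht1
        have h7 : (a : ℤ) ≤ n := by exact_mod_cast h1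
        linarith
      obtain ⟨m, rfl⟩ := Int.eq_ofNat_of_zero_le hz0
      have hn : n = a + t + q * m := by
        have : (n : ℤ) = ((a + t + q * m : ℕ) : ℤ) := by
          push_cast
          linarith
        exact_mod_cast this
      refine ⟨m, ?_, hn.symm⟩
      rw [mem_range, Nat.lt_iff_add_one_le, Nat.le_div_iff_mul_le (by omega)]
      have : (m + 1) * q = q * m + q := by ring
      rw [this]
      omega
    · rintro ⟨m, hm, rfl⟩
      rw [mem_range, Nat.lt_iff_add_one_le, Nat.le_div_iff_mul_le (by omega)] at hm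
      have : (m + 1) * q = q * m + q := by ring
      rw [this] at hm
      refine ⟨⟨by omega, by omega⟩, ?_⟩
      have h4 : (((a + t + q * m : ℕ) : ℤ)) - τ = q * m - ((τ - a) - t) := by
        push_cast
        ring
      rw [h4]
      exact dvd_sub (dvd_mul_right _ _) ht2
  · have hqr : (0 : ℝ) < q := by exact_mod_cast hq
    have h1 := Nat.div_mul_le_self (N + q - 1 - t) q
    have h2 := Nat.lt_div_mul_add (a := N + q - 1 - t) (b := q) (by omega)
    have h3 : N + q - 1 - t + t + 1 = N + q := by omega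
    have h1' : (((N + q - 1 - t) / q : ℕ) : ℝ) * q ≤ ((N + q - 1 - t : ℕ) : ℝ) := by
      exact_mod_cast h1
    have h2' : ((N + q - 1 - t : ℕ) : ℝ) + 1 ≤ (((N + q - 1 - t) / q : ℕ) : ℝ) * q + q := by
      exact_mod_cast h2
    have h3' : ((N + q - 1 - t : ℕ) : ℝ) + t + 1 = N + q := by exact_mod_cast h3
    have h4 : (t : ℝ) + 1 ≤ q := by exact_mod_cast ht1
    have h5 : (0 : ℝ) ≤ t := Nat.cast_nonneg _
    rw [abs_le]
    constructor
    · rw [neg_le_sub_iff_le_add, div_le_iff₀ hqr]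
      nlinarith
    · rw [sub_le_iff_le_add]
      have h6 : (((N + q - 1 - t) / q : ℕ) : ℝ) ≤ (N + q : ℝ) / q := by
        rw [le_div_iff₀ hqr]
        linarith
      have h7 : (N + q : ℝ) / q = 1 + N / q := by
        field_simp
        ring
      linarith

theorem expo_AP (ε : ℝ) (hε : 0 < ε) : ∃ δ : ℝ, 0 < δ ∧ ∃ p₀ : ℕ,
    ∀ (p : ℕ) [Fact p.Prime], p₀ ≤ p → ∀ g : ZMod p, (p : ℝ) ^ ε ≤ orderOf g → ∀ a N : ℕ,
    (p : ℝ) ^ ε ≤ N → ∀ q : ℕ, 1 ≤ q → (q : ℝ) ≤ (p : ℝ) ^ (ε / 4) → ∀ τ : ℤ, ∀ y : ZMod p, y ≠ 0 →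
    ‖∑ n ∈ (Ico a (a + N)).filter (fun n : ℕ => (q : ℤ) ∣ (n : ℤ) - τ),
      (ZMod.stdAddChar (y * g ^ n) : ℂ)‖ ≤ N * (p : ℝ) ^ (-δ) := by
  obtain ⟨δ₀, hδ₀, p₁, hb⟩ := expo (ε / 2) (by positivity)
  obtain ⟨Z₀, hZ₀⟩ := eventually_atTop.1 ((ev_pow 0 (ε / 4) 2 (by positivity)).and
    ((ev_pow (-δ₀) (-(δ₀ / 2)) 2 (by linarith)).and (eventually_ge_atTop (1 : ℝ))))
  obtain ⟨p₂, hp₂⟩ := exists_nat_ge Z₀
  refine ⟨δ₀ / 2, by positivity, max p₁ p₂, fun p _ hp g hg a N hN q hq hqp τ y hy => ?_⟩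
  obtain ⟨e1, e2, hp1⟩ := hZ₀ p (hp₂.trans (by exact_mod_cast (le_max_right _ _).trans hp))
  have hp0 : (0 : ℝ) < p := by linarith
  rw [Real.rpow_zero, mul_one] at e1
  have hq0 : (0 : ℝ) < q := by exact_mod_cast hq
  have hq1 : (1 : ℝ) ≤ q := by exact_mod_cast hq
  have hgp : 0 < (p : ℝ) ^ ε := by positivity
  have hN0 : (0 : ℝ) < N := by linarith
  obtain ⟨b, N', h1, h2⟩ := class_eq a N q hq τ
  have hsplit : (p : ℝ) ^ ε = (p : ℝ) ^ (ε / 4) * ((p : ℝ) ^ (ε / 4) * (p : ℝ) ^ (ε / 2)) := by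
    rw [← Real.rpow_add hp0, ← Real.rpow_add hp0]
    congr 1
    ring
  have hhalf : 1 ≤ (p : ℝ) ^ (ε / 2) := Real.one_le_rpow hp1 (by positivity)
  have hdiv : ∀ x : ℝ, (p : ℝ) ^ ε ≤ x → 2 * (p : ℝ) ^ (ε / 2) ≤ x / q := by
    intro x hx
    rw [le_div_iff₀ hq0]
    calc 2 * (p : ℝ) ^ (ε / 2) * q ≤ (p : ℝ) ^ (ε / 4) * (p : ℝ) ^ (ε / 2) * (p : ℝ) ^ (ε / 4) := by
          gcongr
      _ = (p : ℝ) ^ ε := by rw [hsplit]; ring
      _ ≤ x := hx
  have hN' : (p : ℝ) ^ (ε / 2) ≤ N' := by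
    have h3 := hdiv N hN
    have h4 := (abs_le.1 h2).1
    linarith
  have hN'2 : (N' : ℝ) ≤ 2 * N := by
    have h4 := (abs_le.1 h2).2
    have h5 : (N : ℝ) / q ≤ N := div_le_self hN0.le hq1
    have h6 := hdiv N hN
    linarith
  have hord : (p : ℝ) ^ (ε / 2) ≤ orderOf (g ^ q) := by
    rw [orderOf_pow' g (by omega)]
    have h3 : Nat.gcd (orderOf g) q ∣ orderOf g := Nat.gcd_dvd_left _ _
    have h4 : 0 < Nat.gcd (orderOf g) q := Nat.gcd_pos_of_pos_right _ (by omega)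
    have h5 : Nat.gcd (orderOf g) q ≤ q := Nat.le_of_dvd (by omega) (Nat.gcd_dvd_right _ _)
    rw [Nat.cast_div h3 (by positivity)]
    have h6 := hdiv _ hg
    have h7 : (orderOf g : ℝ) / q ≤ (orderOf g : ℝ) / ((Nat.gcd (orderOf g) q : ℕ) : ℝ) := by
      apply div_le_div_of_nonneg_left (Nat.cast_nonneg _) (by exact_mod_cast h4)
      exact_mod_cast h5
    linarith
  have hg0 : g ≠ 0 := by
    intro h
    subst h
    have h3 : orderOf (0 : ZMod p) = 0 := orderOf_eq_zero_iff'.2 fun n hn => by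
      rw [zero_pow (by omega)]
      exact zero_ne_one
    rw [h3, Nat.cast_zero] at hg
    linarith
  have h3 := hb p ((le_max_left _ _).trans hp) (g ^ q) hord 0 N' hN' (y * g ^ b)
    (mul_ne_zero hy (pow_ne_zero _ hg0))
  rw [h1, sum_image (by
    intro m _ m' _ h
    have h4 : q * m = q * m' := by simpa using h
    exact Nat.eq_of_mul_eq_mul_left (by omega) h4)]
  have h4 : ∑ m ∈ range N', (ZMod.stdAddChar (y * g ^ (b + q * m)) : ℂ) =
      ∑ n ∈ Ico 0 (0 + N'), (ZMod.stdAddChar (y * g ^ b * (g ^ q) ^ n) : ℂ) := by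
    rw [zero_add, Nat.Ico_zero_eq_range]
    refine sum_congr rfl fun m _ => ?_
    rw [pow_add, pow_mul, mul_assoc]
  rw [h4]
  refine h3.trans ?_
  calc (N' : ℝ) * (p : ℝ) ^ (-δ₀) ≤ 2 * N * (p : ℝ) ^ (-δ₀) :=
        mul_le_mul_of_nonneg_right hN'2 (by positivity)
    _ = N * (2 * (p : ℝ) ^ (-δ₀)) := by ring
    _ ≤ N * (p : ℝ) ^ (-(δ₀ / 2)) := mul_le_mul_of_nonneg_left e2 hN0.le

open scoped Classical in
/-- the hypotheses of the criterion for pairs -/
theorem expo_pairs (ε : ℝ) (hε : 0 < ε) (hε1 : ε ≤ 1) (r : ℕ) : ∃ c : ℝ, 0 < c ∧ c ≤ ε ∧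
    ∃ p₀ : ℕ, ∀ (p : ℕ) [Fact p.Prime], p₀ ≤ p → ∀ g x w : Fin r → ZMod p,
    (∀ j, (p : ℝ) ^ ε ≤ orderOf (g j)) → (∀ j, x j ≠ 0) → ∀ a N : Fin r → ℕ,
    (∀ j, (p : ℝ) ^ ε ≤ N j) → ∀ s : Finset (Fin r → ℕ),
    s = Fintype.piFinset (fun j => Ico (a j) (a j + N j)) →
    ∀ q : ℕ, 1 ≤ q → (q : ℝ) ≤ (p : ℝ) ^ c → ∀ τ : Fin r → ℤ,
      |((s.filter (fun n => ∀ j, (q : ℤ) ∣ ((n j : ℕ) : ℤ) - τ j)).card : ℝ) -
        s.card / (q : ℝ) ^ r| ≤ s.card * (p : ℝ) ^ (-c) ∧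
      ∀ h : Fin r → ZMod p, h ≠ 0 →
      ‖∑ n ∈ s.filter (fun n => ∀ j, (q : ℤ) ∣ ((n j : ℕ) : ℤ) - τ j),
        (ZMod.stdAddChar (∑ j, h j * (x j * g j ^ n j + w j)) : ℂ)‖ ≤
        s.card * (p : ℝ) ^ (-c) := by
  obtain ⟨δ, hδ, p₁, hb⟩ := expo_AP ε hε
  obtain ⟨c, hc⟩ : ∃ c : ℝ, c = min δ (ε / 4) := ⟨_, rfl⟩
  have hc0 : 0 < c := by rw [hc]; exact lt_min hδ (by positivity)
  have hcδ : c ≤ δ := by rw [hc]; exact min_le_left _ _
  have hcε : c ≤ ε / 4 := by rw [hc]; exact min_le_right _ _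
  obtain ⟨Z₀, hZ₀⟩ := eventually_atTop.1 ((ev_pow (-ε) (-c) r (by linarith)).and
    (eventually_ge_atTop (1 : ℝ)))
  obtain ⟨p₂, hp₂⟩ := exists_nat_ge Z₀
  refine ⟨c, hc0, by linarith, max p₁ p₂, ?_⟩
  intro p _ hp g x w hg hx a N hN s hs q hq hqp τ
  obtain ⟨e1, hp1⟩ := hZ₀ p (hp₂.trans (by exact_mod_cast (le_max_right _ _).trans hp))
  have hp0 : (0 : ℝ) < p := by linarith
  have hq1 : (1 : ℝ) ≤ q := by exact_mod_cast hq
  have hN0 : ∀ j, (0 : ℝ) < N j := fun j => lt_of_lt_of_le (by positivity) (hN j)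
  have hcard : (s.card : ℝ) = ∏ j, (N j : ℝ) := by
    rw [hs, Fintype.card_piFinset]
    push_cast
    refine prod_congr rfl fun j _ => ?_
    rw [Nat.card_Ico]
    congr 1
    omega
  have hfil : s.filter (fun n => ∀ j, (q : ℤ) ∣ ((n j : ℕ) : ℤ) - τ j) =
      Fintype.piFinset (fun j => (Ico (a j) (a j + N j)).filter
        (fun n : ℕ => (q : ℤ) ∣ (n : ℤ) - τ j)) := by
    rw [hs]
    ext n
    simp only [mem_filter, Fintype.mem_piFinset]
    exact ⟨fun h j => ⟨h.1 j, h.2 j⟩, fun h => ⟨fun j => (h j).1, fun j => (h j).2⟩⟩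
  have hT : ∀ j, |((((Ico (a j) (a j + N j)).filter
        (fun n : ℕ => (q : ℤ) ∣ (n : ℤ) - τ j)).card : ℕ) : ℝ) - (N j : ℝ) / q| ≤ 1 := by
    intro j
    obtain ⟨b, N', h1, h2⟩ := class_eq (a j) (N j) q hq (τ j)
    rw [h1, card_image_of_injOn (by
      intro m _ m' _ h
      have h4 : q * m = q * m' := by simpa using h
      exact Nat.eq_of_mul_eq_mul_left (by omega) h4), card_range]
    exact h2
  have hTN : ∀ j, ((((Ico (a j) (a j + N j)).filter
        (fun n : ℕ => (q : ℤ) ∣ (n : ℤ) - τ j)).card : ℕ) : ℝ) ≤ N j := by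
    intro j
    have h1 : ((Ico (a j) (a j + N j)).filter
        (fun n : ℕ => (q : ℤ) ∣ (n : ℤ) - τ j)).card ≤ N j := by
      refine (card_filter_le _ _).trans ?_
      rw [Nat.card_Ico]
      omega
    exact_mod_cast h1
  rw [hfil, hcard]
  constructor
  · rw [Fintype.card_piFinset]
    push_cast
    have h1 := prod_diff (univ : Finset (Fin r))
      (fun j => ((((Ico (a j) (a j + N j)).filter
        (fun n : ℕ => (q : ℤ) ∣ (n : ℤ) - τ j)).card : ℕ) : ℝ) / N j) (1 / q) ((p : ℝ) ^ (-ε))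
      (fun j => div_nonneg (Nat.cast_nonneg _) (hN0 j).le)
      (fun j => by rw [div_le_one (hN0 j)]; exact hTN j) (by positivity)
      (by rw [div_le_one (by linarith)]; exact hq1)
      (fun j => by
        have h3 : ((((Ico (a j) (a j + N j)).filter
            (fun n : ℕ => (q : ℤ) ∣ (n : ℤ) - τ j)).card : ℕ) : ℝ) / N j - 1 / q =
            (((((Ico (a j) (a j + N j)).filter
            (fun n : ℕ => (q : ℤ) ∣ (n : ℤ) - τ j)).card : ℕ) : ℝ) - (N j : ℝ) / q) / N j := by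
          have := hN0 j
          field_simp
        rw [h3, abs_div, abs_of_pos (hN0 j), Real.rpow_neg hp0.le]
        calc _ ≤ 1 / (N j : ℝ) := div_le_div_of_nonneg_right (hT j) (hN0 j).le
          _ ≤ 1 / (p : ℝ) ^ ε := one_div_le_one_div_of_le (by positivity) (hN j)
          _ = _ := one_div _)
    rw [card_univ, Fintype.card_fin, prod_div_distrib] at h1
    have hP : (0 : ℝ) < ∏ j, (N j : ℝ) := prod_pos fun j _ => hN0 j
    have h2 : ∏ j, ((((Ico (a j) (a j + N j)).filter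
        (fun n : ℕ => (q : ℤ) ∣ (n : ℤ) - τ j)).card : ℕ) : ℝ) - (∏ j, (N j : ℝ)) / (q : ℝ) ^ r =
        (∏ j, (N j : ℝ)) * ((∏ j, ((((Ico (a j) (a j + N j)).filter
        (fun n : ℕ => (q : ℤ) ∣ (n : ℤ) - τ j)).card : ℕ) : ℝ)) / (∏ j, (N j : ℝ)) -
          (1 / (q : ℝ)) ^ r) := by
      rw [one_div, inv_pow]
      field_simp
    rw [h2, abs_mul, abs_of_pos hP]
    exact mul_le_mul_of_nonneg_left (h1.trans e1) hP.le
  · intro h hh
    obtain ⟨j₀, hj₀⟩ : ∃ j₀, h j₀ ≠ 0 := by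
      by_contra hcon
      push Not at hcon
      exact hh (funext hcon)
    have h1 : ∑ n ∈ Fintype.piFinset (fun j => (Ico (a j) (a j + N j)).filter
        (fun n : ℕ => (q : ℤ) ∣ (n : ℤ) - τ j)),
        (ZMod.stdAddChar (∑ j, h j * (x j * g j ^ n j + w j)) : ℂ) =
        ∏ j, ∑ n ∈ (Ico (a j) (a j + N j)).filter
        (fun n : ℕ => (q : ℤ) ∣ (n : ℤ) - τ j),
        (ZMod.stdAddChar (h j * (x j * g j ^ n + w j)) : ℂ) := by
      rw [prod_univ_sum]
      refine sum_congr rfl fun n _ => ?_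
      rw [e_sum]
    rw [h1, norm_prod]
    have h3 : ∀ j, ‖∑ n ∈ (Ico (a j) (a j + N j)).filter
        (fun n : ℕ => (q : ℤ) ∣ (n : ℤ) - τ j),
        (ZMod.stdAddChar (h j * (x j * g j ^ n + w j)) : ℂ)‖ ≤
        N j * if j = j₀ then (p : ℝ) ^ (-c) else 1 := by
      intro j
      split_ifs with hj
      · subst hj
        have h4 := hb p ((le_max_left _ _).trans hp) (g j) (hg j) (a j) (N j) (hN j) q hq
          (hqp.trans (Real.rpow_le_rpow_of_exponent_le hp1 hcε)) (τ j) (h j * x j)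
          (mul_ne_zero hj₀ (hx j))
        have h5 : ∑ n ∈ (Ico (a j) (a j + N j)).filter
            (fun n : ℕ => (q : ℤ) ∣ (n : ℤ) - τ j),
            (ZMod.stdAddChar (h j * (x j * g j ^ n + w j)) : ℂ) =
            (ZMod.stdAddChar (h j * w j) : ℂ) * ∑ n ∈ (Ico (a j) (a j + N j)).filter
            (fun n : ℕ => (q : ℤ) ∣ (n : ℤ) - τ j),
            (ZMod.stdAddChar (h j * x j * g j ^ n) : ℂ) := by
          rw [mul_sum]
          refine sum_congr rfl fun n _ => ?_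
          rw [← AddChar.map_add_eq_mul]
          congr 1
          ring
        rw [h5, norm_mul, norm_e, one_mul]
        refine h4.trans ?_
        apply mul_le_mul_of_nonneg_left _ (Nat.cast_nonneg _)
        exact Real.rpow_le_rpow_of_exponent_le hp1 (neg_le_neg hcδ)
      · rw [mul_one]
        refine (norm_sum_le _ _).trans ((sum_le_card_nsmul _ _ 1 fun n _ => (norm_e _).le).trans ?_)
        rw [nsmul_eq_mul, mul_one]
        exact hTN j
    refine (prod_le_prod (fun j _ => norm_nonneg _) fun j _ => h3 j).trans (le_of_eq ?_)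
    rw [prod_mul_distrib, prod_ite_eq' univ j₀ fun _ => (p : ℝ) ^ (-c), if_pos (mem_univ _)]

end Pool.Agent.U642.BG
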