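import Pool.Agent.U642.LP.Box
import Pool.Agent.U642.BG.Eqd

set_option autoImplicit false

/-! # The criterion in arithmetic progressions for families with small Fourier coefficients -/

namespace Pool.Agent.U642.BG

open Finset Filter MvPolynomial
open Pool.Agent.W147.PS (ff ev_pow)
open Pool.Agent.N542.PT (Crit crit_balanced)
open Pool.Agent.U642.WP (crit_cnt)
open Pool.Agent.U642.LP (GoodAP subF subF_eval subF_balanced Large large_of)

open scoped Classical in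
/-- the criterion in progressions, for families -/
theorem crit_fam {ι : Type} (r : ℕ) (F : ι → MvPolynomial (Fin r) ℤ) (hF : Crit r F)
    (hlin : ∀ j, ∀ (u : ℤ) (x : Fin r → ℤ),
      MvPolynomial.eval (fun k => u * x k) (F j) = u * MvPolynomial.eval x (F j))
    (δ : ℝ) (hδ : 0 < δ) (hδ1 : δ < 1) :
    ∃ κ : ℝ, 0 < κ ∧ ∀ᶠ P : ℝ in atTop,
    ∀ (q : ℕ), q.Prime → (q : ℝ) = P → ∀ (α : Type) (s : Finset α) (w : α → Fin r → ℤ),
    (∀ m : ℕ, 1 ≤ m → (m : ℝ) ≤ P ^ (δ / (4 * r + 4)) → ∀ ρ : Fin r → ℤ,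
      |((s.filter (fun x => ∀ j, (m : ℤ) ∣ w x j - ρ j)).card : ℝ) - s.card / (m : ℝ) ^ r| ≤
        s.card * P ^ (-δ)) →
    P ^ (-δ) * s.card ≤
      ((s.filter (fun x => GoodAP F q (κ * ff P) (P ^ δ) (w x))).card : ℝ) := by
  obtain ⟨κ, hκ, h⟩ := crit_cnt r F hF δ hδ hδ1.le
  refine ⟨κ, hκ, ?_⟩
  filter_upwards [h, eventually_gt_atTop (1 : ℝ)] with P h g1
  intro q hq hqP α s w hs
  have hP0 : 0 < P := by linarith
  obtain ⟨K, hK⟩ : ∃ K : ℕ, K = ⌊P ^ δ⌋₊ := ⟨_, rfl⟩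
  have hKP : (K : ℝ) ≤ P ^ δ := by
    rw [hK]
    exact Nat.floor_le (Real.rpow_nonneg hP0.le _)
  have hKq : K < q := by
    have h1 : P ^ δ < P := by
      calc P ^ δ < P ^ (1 : ℝ) := Real.rpow_lt_rpow_of_exponent_lt g1 hδ1
        _ = P := Real.rpow_one _
    have h2 : (K : ℝ) < q := by rw [hqP]; linarith
    exact_mod_cast h2
  have hcop : IsCoprime (q : ℤ) ((K.factorial : ℕ) : ℤ) := by
    rw [Nat.isCoprime_iff_coprime]
    rw [hq.coprime_iff_not_dvd, hq.dvd_factorial]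
    omega
  obtain ⟨u, v, huv⟩ := hcop
  have hr0 : (0 : ℝ) ≤ r := Nat.cast_nonneg _
  have hdiv : ∀ m : ℕ, 1 ≤ m → (m : ℝ) ≤ P ^ δ → (m : ℤ) ∣ u * q - 1 := by
    intro m hm hmP
    have h1 : m ≤ K := by rw [hK]; exact Nat.le_floor hmP
    have h2 : (m : ℤ) ∣ ((K.factorial : ℕ) : ℤ) := by
      exact_mod_cast Nat.dvd_factorial hm h1
    have e : u * q - 1 = -v * ((K.factorial : ℕ) : ℤ) := by linear_combination huv
    rw [e]
    exact h2.mul_left _
  have key := h α s (fun x k => u * w x k) (by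
    intro m hm hmP ρ
    have hmδ : (m : ℝ) ≤ P ^ δ := by
      refine hmP.trans (Real.rpow_le_rpow_of_exponent_le g1.le ?_)
      apply div_le_self hδ.le
      linarith
    have hd := hdiv m hm hmδ
    have e1 : s.filter (fun x => ∀ j, (m : ℤ) ∣ u * w x j - ρ j) =
        s.filter (fun x => ∀ j, (m : ℤ) ∣ w x j - (q : ℤ) * ρ j) := by
      apply filter_congr
      intro x _
      refine forall_congr' fun j => ?_
      constructor
      · intro h1
        have h2 : (m : ℤ) ∣ (q : ℤ) * (u * w x j - ρ j) - (u * q - 1) * w x j :=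
          dvd_sub (h1.mul_left _) (hd.mul_right _)
        have e : (q : ℤ) * (u * w x j - ρ j) - (u * q - 1) * w x j = w x j - (q : ℤ) * ρ j := by
          ring
        rwa [e] at h2
      · intro h1
        have h2 : (m : ℤ) ∣ u * (w x j - (q : ℤ) * ρ j) + (u * q - 1) * ρ j :=
          dvd_add (h1.mul_left _) (hd.mul_right _)
        have e : u * (w x j - (q : ℤ) * ρ j) + (u * q - 1) * ρ j = u * w x j - ρ j := by ring
        rwa [e] at h2
    rw [e1]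
    exact hs m hm hmP (fun j => (q : ℤ) * ρ j))
  refine key.trans ?_
  rw [Nat.cast_le]
  apply card_le_card
  intro x hx
  rw [mem_filter] at hx ⊢
  refine ⟨hx.1, fun j i hi => ?_⟩
  obtain ⟨l, hl, hl1, hl2⟩ := hx.2 j (u * MvPolynomial.eval (w x) (F j) + i) (by
    rw [hlin]
    push_cast
    rw [add_sub_cancel_left]
    exact hi)
  refine ⟨l, hl, hl1, ?_⟩
  have hd := hdiv l hl.one_lt.le hl1
  have h2 : (l : ℤ) ∣ (q : ℤ) * (u * MvPolynomial.eval (w x) (F j) + i) -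
      (u * q - 1) * MvPolynomial.eval (w x) (F j) := dvd_sub (hl2.mul_left _) (hd.mul_right _)
  have e : (q : ℤ) * (u * MvPolynomial.eval (w x) (F j) + i) -
      (u * q - 1) * MvPolynomial.eval (w x) (F j) = MvPolynomial.eval (w x) (F j) + i * q := by ring
  rwa [e] at h2

open scoped Classical in
/-- the representatives in a box, in classes -/
theorem eqd_box (r : ℕ) (c : ℝ) (hc : 0 < c) (hc1 : c ≤ 1) :
    ∀ᶠ Z : ℝ in atTop, ∀ (P : ℕ) [Fact P.Prime], (P : ℝ) = Z →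
    ∀ (α : Type) (s : Finset α) (v : α → Fin r → ZMod P),
    (∀ h : Fin r → ZMod P, h ≠ 0 →
      ‖∑ i ∈ s, (ZMod.stdAddChar (∑ j, h j * v i j) : ℂ)‖ ≤ s.card * (P : ℝ) ^ (-c)) →
    ∀ (M : Fin r → ℤ) (L : ℕ), (P : ℝ) ^ (1 - c / (8 * (r + 1))) ≤ 2 * L → L ≤ P →
    ∀ s' : Finset α, s' = s.filter (fun i => ∀ j, rep (M j) (v i j) ≤ M j + L) →
    s.card * (P : ℝ) ^ (-(c / 4)) ≤ s'.card ∧
    ∀ q : ℕ, 1 ≤ q → q < P → ∀ ρ : Fin r → ℤ,
      |((s'.filter (fun i => ∀ j, (q : ℤ) ∣ rep (M j) (v i j) - ρ j)).card : ℝ) -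
        s'.card / (q : ℝ) ^ r| ≤ s'.card * (P : ℝ) ^ (-(c / 4)) := by
  have hr0 : (0 : ℝ) ≤ r := Nat.cast_nonneg _
  obtain ⟨δ, hδ⟩ : ∃ δ : ℝ, δ = c / (8 * (r + 1)) := ⟨_, rfl⟩
  have hδ0 : 0 < δ := by rw [hδ]; positivity
  have hδr : δ * (r + 1) = c / 8 := by rw [hδ]; field_simp
  rw [← hδ]
  have hlogr : ∀ᶠ Z : ℝ in atTop, (2 + Real.log Z) ^ r ≤ Z ^ (c / 4) := by
    have h := (isLittleO_log_rpow_atTop (show (0 : ℝ) < c / (8 * (r + 1)) by positivity)).def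
      (show (0 : ℝ) < 1 by norm_num)
    filter_upwards [h, ev_pow 0 (c / (8 * (r + 1))) 2 (by positivity),
      ev_pow (c / (8 * (r + 1))) (c / (4 * (r + 1))) 2 (by
        rw [div_lt_div_iff₀ (by positivity) (by positivity)]
        nlinarith), eventually_ge_atTop (1 : ℝ)] with Z h1 h2 h3 hZ1
    rw [Real.norm_eq_abs, abs_of_nonneg (Real.log_nonneg hZ1), Real.norm_eq_abs,
      abs_of_nonneg (Real.rpow_nonneg (by linarith) _), one_mul] at h1
    rw [Real.rpow_zero, mul_one] at h2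
    have h4 : 2 + Real.log Z ≤ Z ^ (c / (4 * (r + 1))) := by linarith
    calc (2 + Real.log Z) ^ r ≤ (Z ^ (c / (4 * (r + 1)))) ^ r :=
          pow_le_pow_left₀ (by have := Real.log_nonneg hZ1; linarith) h4 r
      _ ≤ Z ^ (c / 4) := by
          rw [← Real.rpow_natCast, ← Real.rpow_mul (by linarith)]
          apply Real.rpow_le_rpow_of_exponent_le hZ1
          rw [div_mul_eq_mul_div, div_le_div_iff₀ (by positivity) (by norm_num)]
          nlinarith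
  filter_upwards [hlogr, ev_pow (-(3 * c / 4)) (-(c / 2)) 32 (by linarith),
    ev_pow (-1) (-(c / 2)) (32 * r) (by linarith),
    ev_pow (-(c / 2)) (-(c / 8)) (2 * 2 ^ r) (by linarith),
    ev_pow (-(c / 4)) (-(c / 8)) (2 * 2 ^ r) (by linarith), eventually_gt_atTop (1 : ℝ)]
    with Z hlog e1 e2 e3 e4 hZ1
  intro P hPf hPZ α s v hv M L hL1 hL2 s' hs'
  subst hPZ
  have hPprime : P.Prime := Fact.out
  have hP1 : (1 : ℝ) < P := hZ1
  have hP0 : (0 : ℝ) < P := by linarith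
  have hs0 : (0 : ℝ) ≤ s.card := Nat.cast_nonneg _
  obtain ⟨E, hE⟩ : ∃ E : ℝ, E = s.card * (P : ℝ) ^ (-c) * (2 + Real.log P) ^ r +
    s.card * (r / P) := ⟨_, rfl⟩
  have hE1 : E ≤ s.card * ((P : ℝ) ^ (-(c / 2)) / 16) := by
    have a1 : (P : ℝ) ^ (-c) * (2 + Real.log P) ^ r ≤ (P : ℝ) ^ (-(3 * c / 4)) := by
      calc (P : ℝ) ^ (-c) * (2 + Real.log P) ^ r ≤ (P : ℝ) ^ (-c) * (P : ℝ) ^ (c / 4) :=
            mul_le_mul_of_nonneg_left hlog (by positivity)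
        _ = (P : ℝ) ^ (-(3 * c / 4)) := by
            rw [← Real.rpow_add hP0]; congr 1; ring
    have a2 : (r : ℝ) / P = r * (P : ℝ) ^ (-1 : ℝ) := by
      rw [Real.rpow_neg_one]; rfl
    have a3 : E = s.card * ((P : ℝ) ^ (-c) * (2 + Real.log P) ^ r + r / P) := by
      rw [hE]; ring
    rw [a3]
    apply mul_le_mul_of_nonneg_left _ hs0
    rw [a2]
    linarith
  have hE0 : 0 ≤ E := by
    have : 0 ≤ Real.log P := Real.log_nonneg hP1.le
    rw [hE]
    positivity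
  have heq := fun q hq hcop ρ => eqd P s r v (s.card * (P : ℝ) ^ (-c)) hv (by positivity) M L hL2
    q hq hcop ρ
  rw [← hE] at heq
  have hone : |(s'.card : ℝ) - s.card * ((L : ℝ) / P) ^ r| ≤ E := by
    have h1 := heq 1 le_rfl (Nat.coprime_one_right P) 0
    have h2 : (s.filter fun i => ∀ j, rep (M j) (v i j) ≤ M j + L ∧
        ((1 : ℕ) : ℤ) ∣ rep (M j) (v i j) - (0 : Fin r → ℤ) j) = s' := by
      rw [hs']
      refine filter_congr fun i _ => forall_congr' fun j => ?_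
      simp
    rw [h2] at h1
    simpa using h1
  have hLP : (P : ℝ) ^ (-(c / 8)) ≤ 2 ^ r * ((L : ℝ) / P) ^ r := by
    have h1 : (P : ℝ) ^ (-δ) ≤ 2 * ((L : ℝ) / P) := by
      rw [← mul_div_assoc, le_div_iff₀ hP0]
      calc (P : ℝ) ^ (-δ) * P = (P : ℝ) ^ (1 - δ) := by
            nth_rewrite 2 [← Real.rpow_one (P : ℝ)]
            rw [← Real.rpow_add hP0]; congr 1; ring
        _ ≤ 2 * L := hL1
    calc (P : ℝ) ^ (-(c / 8)) ≤ ((P : ℝ) ^ (-δ)) ^ r := by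
          rw [← Real.rpow_natCast, ← Real.rpow_mul hP0.le]
          apply Real.rpow_le_rpow_of_exponent_le hP1.le
          nlinarith
      _ ≤ (2 * ((L : ℝ) / P)) ^ r := pow_le_pow_left₀ (by positivity) h1 r
      _ = _ := by rw [mul_pow]
  have h2r : (0 : ℝ) < 2 ^ r := by positivity
  have hhalf : (P : ℝ) ^ (-(c / 4)) ≤ 1 * ((L : ℝ) / P) ^ r / 2 * 1 := by
    have h1 : 2 * 2 ^ r * (P : ℝ) ^ (-(c / 4)) ≤ 2 ^ r * ((L : ℝ) / P) ^ r := e4.trans hLP
    have h2 : (2 : ℝ) ^ r * (2 * (P : ℝ) ^ (-(c / 4))) ≤ 2 ^ r * ((L : ℝ) / P) ^ r := by linarith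
    have h3 := le_of_mul_le_mul_left h2 h2r
    linarith
  have hhalf2 : (P : ℝ) ^ (-(c / 2)) ≤ ((L : ℝ) / P) ^ r / 2 := by
    have h1 : 2 * 2 ^ r * (P : ℝ) ^ (-(c / 2)) ≤ 2 ^ r * ((L : ℝ) / P) ^ r := e3.trans hLP
    have h2 : (2 : ℝ) ^ r * (2 * (P : ℝ) ^ (-(c / 2))) ≤ 2 ^ r * ((L : ℝ) / P) ^ r := by linarith
    have h3 := le_of_mul_le_mul_left h2 h2r
    linarith
  have hlow : s.card * ((L : ℝ) / P) ^ r / 2 ≤ s'.card := by
    have h1 := (abs_le.1 hone).1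
    have h2 : (s.card : ℝ) * ((P : ℝ) ^ (-(c / 2)) / 16) ≤ s.card * (((L : ℝ) / P) ^ r / 2) := by
      apply mul_le_mul_of_nonneg_left _ hs0
      have : 0 ≤ (P : ℝ) ^ (-(c / 2)) := by positivity
      linarith
    nlinarith
  have hlow1 : s.card * (P : ℝ) ^ (-(c / 4)) ≤ s'.card := by
    refine le_trans ?_ hlow
    have := mul_le_mul_of_nonneg_left hhalf hs0
    linarith
  refine ⟨hlow1, ?_⟩
  intro q hq hqP ρ
  have hq1 : (1 : ℝ) ≤ q := by exact_mod_cast hq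
  have hqr : (1 : ℝ) ≤ (q : ℝ) ^ r := one_le_pow₀ hq1
  have hcop : Nat.Coprime P q :=
    (Nat.Prime.coprime_iff_not_dvd hPprime).2 fun h => absurd (Nat.le_of_dvd hq h) (by omega)
  have h1 := heq q hq hcop ρ
  have h2 : (s.filter fun i => ∀ j, rep (M j) (v i j) ≤ M j + L ∧
      (q : ℤ) ∣ rep (M j) (v i j) - ρ j) =
      s'.filter (fun i => ∀ j, (q : ℤ) ∣ rep (M j) (v i j) - ρ j) := by
    rw [hs', filter_filter]
    refine filter_congr fun i _ => ?_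
    exact forall_and
  rw [h2] at h1
  set N : ℝ := ((s'.filter (fun i => ∀ j, (q : ℤ) ∣ rep (M j) (v i j) - ρ j)).card : ℝ) with hN
  have h3 : N - s'.card / (q : ℝ) ^ r = (N - s.card * ((L : ℝ) / P / q) ^ r) -
      (s'.card - s.card * ((L : ℝ) / P) ^ r) / (q : ℝ) ^ r := by
    rw [div_pow ((L : ℝ) / P)]
    ring
  rw [h3]
  refine (abs_sub _ _).trans ?_
  rw [abs_div, abs_of_pos (by linarith : (0 : ℝ) < (q : ℝ) ^ r)]
  have h4 : |(s'.card : ℝ) - s.card * ((L : ℝ) / P) ^ r| / (q : ℝ) ^ r ≤ E :=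
    (div_le_self (abs_nonneg _) hqr).trans hone
  have h5 : 2 * E ≤ s'.card * (P : ℝ) ^ (-(c / 4)) := by
    have h6 : s.card * (P : ℝ) ^ (-(c / 2)) ≤ s'.card * (P : ℝ) ^ (-(c / 4)) := by
      have h7 : (P : ℝ) ^ (-(c / 2)) = (P : ℝ) ^ (-(c / 4)) * (P : ℝ) ^ (-(c / 4)) := by
        rw [← Real.rpow_add hP0]
        congr 1
        ring
      rw [h7, ← mul_assoc]
      exact mul_le_mul_of_nonneg_right hlow1 (by positivity)
    have h8 : 0 ≤ s.card * (P : ℝ) ^ (-(c / 2)) := by positivity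
    linarith
  linarith

open scoped Classical in
/-- **The criterion in progressions for families with small Fourier coefficients.** -/
theorem ap_fam (r : ℕ) (c : ℝ) (hc : 0 < c) (hc1 : c ≤ 1) :
    ∃ κ : ℝ, 0 < κ ∧ ∃ δ : ℝ, 0 < δ ∧ ∃ P₀ : ℝ, ∀ (P : ℕ) [Fact P.Prime], P₀ ≤ P →
    ∀ (α : Type) (s : Finset α) (v : α → Fin r → ZMod P),
    (∀ h : Fin r → ZMod P, h ≠ 0 →
      ‖∑ i ∈ s, (ZMod.stdAddChar (∑ j, h j * v i j) : ℂ)‖ ≤ s.card * (P : ℝ) ^ (-c)) →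
    ∀ (M : Fin r → ℤ) (L : ℕ), (∀ j, 0 ≤ M j ∧ r * (M j + L) ≤ P) → (P : ℝ) ^ (1 - δ) ≤ L →
    L ≤ P →
    ∃ g ⊆ s, s.card * (P : ℝ) ^ (-c) ≤ g.card ∧
      ∀ i ∈ g, ∃ x : Fin r → ℤ, (∀ j, M j < x j ∧ x j ≤ M j + L ∧ (x j : ZMod P) = v i j) ∧
        Large P (κ * ff P * P) x := by
  have hr0 : (0 : ℝ) ≤ r := Nat.cast_nonneg _
  obtain ⟨h1, h2⟩ := subF_balanced r
  obtain ⟨κ, hκ, hcrit⟩ := crit_fam r (subF r) (crit_balanced _ _ h2 h1) (by
    intro S u x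
    rw [subF_eval, subF_eval, mul_sum]) (c / 4) (by positivity) (by linarith)
  obtain ⟨P₀, hP₀⟩ := eventually_atTop.1 (hcrit.and ((eqd_box r c hc hc1).and
    ((ev_pow (-c) (-(c / 2)) 1 (by linarith)).and ((ev_pow (c / 4) (1 - c / (8 * (r + 1))) 4 (by
      have h3 : c / (8 * ((r : ℝ) + 1)) ≤ 1 / 8 := by
        rw [div_le_div_iff₀ (by positivity) (by norm_num)]
        nlinarith
      linarith)).and (eventually_gt_atTop (1 : ℝ))))))
  refine ⟨κ, hκ, c / (8 * (r + 1)), by positivity, P₀, ?_⟩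
  intro P hPf hP α s v hv M L hM hL1 hL2
  obtain ⟨g1, g2, g3, g4, g5⟩ := hP₀ P hP
  have hPprime : P.Prime := Fact.out
  have hP1 : (1 : ℝ) < P := g5
  have hP0 : (0 : ℝ) < P := by linarith
  have hPpos : 0 < P := hPprime.pos
  have hPc : 1 ≤ (P : ℝ) ^ (c / 4) := Real.one_le_rpow hP1.le (by positivity)
  obtain ⟨N, hN⟩ : ∃ N : ℕ, N = ⌈(P : ℝ) ^ (c / 4)⌉₊ := ⟨_, rfl⟩
  have hN1 : (P : ℝ) ^ (c / 4) ≤ N := by rw [hN]; exact Nat.le_ceil _
  have hN2 : (N : ℝ) ≤ 2 * (P : ℝ) ^ (c / 4) := by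
    have h3 := Nat.ceil_lt_add_one (show 0 ≤ (P : ℝ) ^ (c / 4) by linarith)
    rw [← hN] at h3
    linarith
  have hNL : 2 * (N : ℝ) ≤ L := by linarith
  have hNLn : N ≤ L := by
    have h4 : (N : ℝ) ≤ L := by
      have : (0 : ℝ) ≤ N := Nat.cast_nonneg _
      linarith
    exact_mod_cast h4
  have hcast : ((L - N : ℕ) : ℝ) = L - N := by rw [Nat.cast_sub hNLn]
  obtain ⟨s', hs'⟩ : ∃ s' : Finset α, s' = s.filter (fun i => ∀ j,
    rep (M j + N) (v i j) ≤ (M j + N) + (L - N : ℕ)) := ⟨_, rfl⟩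
  obtain ⟨a1, a2⟩ := g2 P rfl α s v hv (fun j => M j + N) (L - N) (by
    rw [hcast]
    linarith) ((Nat.sub_le _ _).trans hL2) s' hs'
  have a3 := g1 P hPprime rfl α s' (fun i j => rep (M j + N) (v i j)) (by
    intro m hm hmP ρ
    refine a2 m hm ?_ ρ
    have h3 : (m : ℝ) < P := by
      refine hmP.trans_lt ?_
      calc (P : ℝ) ^ (c / 4 / (4 * r + 4)) < (P : ℝ) ^ (1 : ℝ) := by
            apply Real.rpow_lt_rpow_of_exponent_lt hP1
            rw [div_lt_one (by positivity)]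
            linarith
        _ = P := Real.rpow_one _
    exact_mod_cast h3)
  have hs's : s' ⊆ s := by
    rw [hs']
    exact filter_subset _ _
  refine ⟨s'.filter (fun i => GoodAP (subF r) P (κ * ff P) ((P : ℝ) ^ (c / 4))
    (fun j => rep (M j + N) (v i j))), (filter_subset _ _).trans hs's, ?_, ?_⟩
  · refine le_trans ?_ a3
    have h3 : (P : ℝ) ^ (-(c / 2)) = (P : ℝ) ^ (-(c / 4)) * (P : ℝ) ^ (-(c / 4)) := by
      rw [← Real.rpow_add hP0]
      congr 1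
      ring
    have h4 : s.card * (P : ℝ) ^ (-c) ≤ s.card * (P : ℝ) ^ (-(c / 2)) := by
      apply mul_le_mul_of_nonneg_left _ (Nat.cast_nonneg _)
      linarith
    refine h4.trans ?_
    rw [h3, ← mul_assoc, mul_comm ((P : ℝ) ^ (-(c / 4))) (s'.card : ℝ)]
    exact mul_le_mul_of_nonneg_right a1 (by positivity)
  · intro i hi
    rw [mem_filter] at hi
    obtain ⟨hi1, hi2⟩ := hi
    rw [hs', mem_filter] at hi1
    have hx3 : ∀ j, M j + N < rep (M j + N) (v i j) ∧ rep (M j + N) (v i j) ≤ M j + L := by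
      intro j
      refine ⟨rep_gt _ _, ?_⟩
      have h4 := hi1.2 j
      rw [Nat.cast_sub hNLn] at h4
      linarith
    refine ⟨fun j => rep (M j + N) (v i j), fun j => ⟨?_, (hx3 j).2, rep_cast _ _⟩, ?_⟩
    · have := (hx3 j).1
      have hN0 : (0 : ℤ) ≤ N := Nat.cast_nonneg _
      linarith
    · apply large_of P hPpos _ ((P : ℝ) ^ (c / 4)) _ _ (by linarith) hi2
      intro j
      constructor
      · have h3 : ((M j + N : ℤ) : ℝ) < rep (M j + N) (v i j) := by exact_mod_cast (hx3 j).1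
        push_cast at h3
        have h4 : (0 : ℝ) ≤ M j := by exact_mod_cast (hM j).1
        linarith
      · refine le_trans ?_ (hM j).2
        exact mul_le_mul_of_nonneg_left (hx3 j).2 (by positivity)

end Pool.Agent.U642.BG
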