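import Pool.Agent.U642.BG.Box

set_option autoImplicit false

/-! # Joint multilinear exponential sums over tiny sets -/

open Finset

namespace Pool.Agent.U642.BG

open Pool.Agent.Y881.SP (uni uni_nonneg uni_sum)

/-- **Multilinear sums with arbitrary lower order functions.** -/
theorem boxsum (ε : ℝ) (hε : 0 < ε) : ∃ K : ℕ, ∀ n : ℕ, ∃ δ : ℝ, 0 < δ ∧ ∃ p₀ : ℕ,
    ∀ (p : ℕ) [Fact p.Prime], p₀ ≤ p → ∀ (ι : Type) [Fintype ι] [DecidableEq ι]
    (A : ι → Finset (ZMod p)), (∀ i, (p : ℝ) ^ ε ≤ (A i).card) → ∀ S : Finset ι, K < S.card →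
    S.card ≤ n → ∀ f : ι → (ι → ZMod p) → ℂ, (∀ j a, ‖f j a‖ ≤ 1) →
    (∀ j ∈ S, ∀ a x, f j (Function.update a j x) = f j a) → ∀ c : ZMod p, c ≠ 0 →
    ‖∑ a ∈ Fintype.piFinset A, (ZMod.stdAddChar (c * ∏ j ∈ S, a j) : ℂ) * ∏ j ∈ S, f j a‖ ≤
      (p : ℝ) ^ (-δ) * (Fintype.piFinset A).card := by
  obtain ⟨K, δ₀, hδ₀, p₁, hmul⟩ := multi (ε / 2) (by positivity)
  refine ⟨K + 1, fun n => ?_⟩
  obtain ⟨δ₁, hδ₁⟩ : ∃ δ₁ : ℝ, δ₁ = min δ₀ ε / 2 := ⟨_, rfl⟩
  have hδ₁0 : 0 < δ₁ := by rw [hδ₁]; positivity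
  have hδ₁1 : 2 * δ₁ ≤ δ₀ := by rw [hδ₁]; linarith [min_le_left δ₀ ε]
  have hδ₁2 : 2 * δ₁ ≤ ε := by rw [hδ₁]; linarith [min_le_right δ₀ ε]
  obtain ⟨p₂, hp₂2, hp₂⟩ := Pool.Agent.H435R3.Paley.exists_large (n + 2) δ₁ hδ₁0
  obtain ⟨p₃, hp₃2, hp₃⟩ := Pool.Agent.H435R3.Paley.exists_large 2 (ε / 2) (by positivity)
  obtain ⟨N, hN⟩ : ∃ N : ℕ, N = 2 ^ n := ⟨_, rfl⟩
  have hN0 : 0 < N := by rw [hN]; positivity
  have hN0' : (0 : ℝ) < N := by exact_mod_cast hN0
  refine ⟨δ₁ / N, by positivity, p₁ + p₂ + p₃, fun p _ hp ι _ _ A hA S hS hSn f hf1 hf2 c hc => ?_⟩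
  have hp2 : (2 : ℝ) ≤ p := by exact_mod_cast (Fact.out : p.Prime).two_le
  have hp0 : (0 : ℝ) < p := by linarith
  have hp1 : (1 : ℝ) ≤ p := by linarith
  have hb1 : (n : ℝ) + 2 ≤ (p : ℝ) ^ δ₁ := hp₂ p (by omega)
  have hb2 : 2 ≤ (p : ℝ) ^ (ε / 2) := hp₃ p (by omega)
  have hε2 : (p : ℝ) ^ ε = (p : ℝ) ^ (ε / 2) * (p : ℝ) ^ (ε / 2) := by
    rw [← Real.rpow_add hp0]
    congr 1
    ring
  have hεinv : (p : ℝ) ^ (-(ε / 2)) * (p : ℝ) ^ (ε / 2) = 1 := by
    rw [← Real.rpow_add hp0, neg_add_cancel, Real.rpow_zero]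
  have hA4 : ∀ i, (4 : ℝ) ≤ (A i).card := fun i => by
    have := hA i
    nlinarith
  have hA2 : ∀ i, 2 ≤ (A i).card := fun i => by
    have h := hA4 i
    have : (2 : ℝ) ≤ (A i).card := by linarith
    exact_mod_cast this
  have hAne : ∀ i, (A i).Nonempty := fun i => card_pos.1 (by have := hA2 i; omega)
  have hP : (Fintype.piFinset A).Nonempty := Fintype.piFinset_nonempty.2 hAne
  have hn0 : (0 : ℝ) < (Fintype.piFinset A).card := by exact_mod_cast hP.card_pos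
  -- the masses
  have hinv : ∀ i, (1 : ℝ) / (A i).card ≤ (p : ℝ) ^ (-ε) := by
    intro i
    rw [Real.rpow_neg hp0.le, one_div]
    exact inv_anti₀ (by positivity) (hA i)
  have hinv2 : ∀ i, (2 : ℝ) / (A i).card ≤ (p : ℝ) ^ (-(ε / 2)) := by
    intro i
    have hc0 : (0 : ℝ) < (A i).card := by linarith [hA4 i]
    rw [div_le_iff₀ hc0]
    have h1 : (p : ℝ) ^ (-(ε / 2)) * (p : ℝ) ^ ε ≤ (p : ℝ) ^ (-(ε / 2)) * (A i).card :=
      mul_le_mul_of_nonneg_left (hA i) (by positivity)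
    rw [hε2, ← mul_assoc, hεinv, one_mul] at h1
    linarith
  -- the list
  obtain ⟨i₀, L, hL⟩ : ∃ i₀ L, S.toList = i₀ :: L := by
    rcases h : S.toList with _ | ⟨i₀, L⟩
    · have h2 := congrArg List.length h
      rw [length_toList] at h2
      simp only [List.length_nil] at h2
      omega
    · exact ⟨i₀, L, rfl⟩
  have hlen : L.length + 1 = S.card := by
    have h2 := congrArg List.length hL
    rw [length_toList, List.length_cons] at h2
    exact h2.symm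
  have hnd : (i₀ :: L).Nodup := by
    rw [← hL]
    exact nodup_toList S
  have hmem : ∀ j ∈ i₀ :: L, j ∈ S := by
    intro j hj
    rw [← hL] at hj
    exact mem_toList.1 hj
  have hbox := box A hAne i₀ L hnd f hf1 (fun j hj => hf2 j (hmem j hj)) c
  have hsum : ∑ a ∈ Fintype.piFinset A, Ph i₀ L f c a =
      ∑ a ∈ Fintype.piFinset A, (ZMod.stdAddChar (c * ∏ j ∈ S, a j) : ℂ) * ∏ j ∈ S, f j a := by
    refine sum_congr rfl fun a _ => ?_
    unfold Ph
    have e1 : ∏ j ∈ S, a j = a i₀ * (L.map a).prod := by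
      rw [← prod_map_toList, hL, List.map_cons, List.prod_cons]
    have e2 : ∏ j ∈ S, f j a = f i₀ a * (L.map fun j => f j a).prod := by
      rw [← prod_map_toList, hL, List.map_cons, List.prod_cons]
    rw [e1, e2]
  rw [hsum] at hbox
  set T : ℝ := ‖∑ a ∈ Fintype.piFinset A, (ZMod.stdAddChar (c * ∏ j ∈ S, a j) : ℂ) *
    ∏ j ∈ S, f j a‖ / (Fintype.piFinset A).card with hT
  have hT0 : 0 ≤ T := by rw [hT]; positivity
  have hT1 : T ≤ 1 := by
    rw [hT]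
    refine div_le_one_of_le₀ ?_ (Nat.cast_nonneg _)
    refine (norm_sum_le _ _).trans ?_
    refine (sum_le_card_nsmul _ _ 1 fun a _ => ?_).trans (le_of_eq (by rw [nsmul_eq_mul, mul_one]))
    rw [norm_mul, norm_e, one_mul, norm_prod]
    exact prod_le_one (fun j _ => norm_nonneg _) fun j _ => hf1 j a
  -- the bound
  have hR : RA (A i₀) (L.map A) c ≤ (p : ℝ) ^ (-δ₁) := by
    have h1 := RA_le (A i₀) (L.map A) (by
      intro B hB
      obtain ⟨j, _, rfl⟩ := List.mem_map.1 hB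
      exact hA2 j) c hc
    have h2 : Rs (uni (A i₀)) ((L.map A).map cd) c ≤ (p : ℝ) ^ (-δ₀) := by
      refine hmul p (by omega) (uni (A i₀)) ⟨uni_nonneg _, uni_sum _ (hAne i₀)⟩ ?_ _ ?_ ?_ c hc
      · intro x
        have h3 : (0 : ℝ) < (A i₀).card := by linarith [hA4 i₀]
        have h4 : uni (A i₀) x ≤ 1 / (A i₀).card := by
          unfold uni
          split_ifs
          · rw [one_div]
          · positivity
        refine h4.trans ((hinv i₀).trans ?_)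
        exact Real.rpow_le_rpow_of_exponent_le hp1 (by linarith)
      · intro β hβ
        obtain ⟨B, hB, rfl⟩ := List.mem_map.1 hβ
        obtain ⟨j, _, rfl⟩ := List.mem_map.1 hB
        have h3 := sm_cd (A j) (hA2 j)
        exact ⟨h3.den, h3.zero, fun d => (h3.le d).trans (hinv2 j)⟩
      · rw [List.length_map, List.length_map]
        omega
    have h3 : ((L.map A).map fun B => (1 : ℝ) / B.card).sum ≤ n * (p : ℝ) ^ (-ε) := by
      refine (List.sum_le_card_nsmul _ ((p : ℝ) ^ (-ε)) ?_).trans ?_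
      · intro y hy
        obtain ⟨B, hB, rfl⟩ := List.mem_map.1 hy
        obtain ⟨j, _, rfl⟩ := List.mem_map.1 hB
        exact hinv j
      · rw [List.length_map, List.length_map, nsmul_eq_mul]
        refine mul_le_mul_of_nonneg_right ?_ (by positivity)
        have : L.length ≤ n := by omega
        exact_mod_cast this
    have h4 : (p : ℝ) ^ (-δ₀) ≤ (p : ℝ) ^ (-δ₁) * (p : ℝ) ^ (-δ₁) := by
      rw [← Real.rpow_add hp0]
      exact Real.rpow_le_rpow_of_exponent_le hp1 (by linarith)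
    have h5 : (p : ℝ) ^ (-ε) ≤ (p : ℝ) ^ (-δ₁) * (p : ℝ) ^ (-δ₁) := by
      rw [← Real.rpow_add hp0]
      exact Real.rpow_le_rpow_of_exponent_le hp1 (by linarith)
    have h6 : (p : ℝ) ^ δ₁ * (p : ℝ) ^ (-δ₁) = 1 := by
      rw [← Real.rpow_add hp0, add_neg_cancel, Real.rpow_zero]
    have h7 : 0 < (p : ℝ) ^ (-δ₁) := by positivity
    set w := (p : ℝ) ^ (-δ₁) with hw
    have h8 : (n : ℝ) * (p : ℝ) ^ (-ε) ≤ n * (w * w) := mul_le_mul_of_nonneg_left h5 (by positivity)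
    have h9 : ((n : ℝ) + 1) * w ≤ 1 := by nlinarith
    calc RA (A i₀) (L.map A) c ≤ w * w + n * (w * w) := by linarith
      _ = (((n : ℝ) + 1) * w) * w := by ring
      _ ≤ 1 * w := mul_le_mul_of_nonneg_right h9 h7.le
      _ = w := one_mul w
  have h2 : T ^ N ≤ (p : ℝ) ^ (-δ₁) := by
    refine le_trans ?_ (hbox.trans hR)
    rw [hN]
    exact pow_le_pow_of_le_one hT0 hT1 (Nat.pow_le_pow_right (by norm_num) (by omega))
  have h3 : T ≤ (p : ℝ) ^ (-(δ₁ / N)) := by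
    have h4 : ((p : ℝ) ^ (-(δ₁ / N))) ^ N = (p : ℝ) ^ (-δ₁) := by
      rw [← Real.rpow_natCast, ← Real.rpow_mul hp0.le]
      congr 1
      field_simp
    rw [← h4] at h2
    exact le_of_pow_le_pow_left₀ hN0.ne' (by positivity) h2
  rw [hT, div_le_iff₀ hn0] at h3
  exact h3

/-- the numbers with lower order functions -/
noncomputable def vv {p : ℕ} {ι κ : Type} (S : κ → Finset ι) (x : κ → ZMod p)
    (G : κ → ι → (ι → ZMod p) → ZMod p) (k : κ) (a : ι → ZMod p) : ZMod p :=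
  x k * ∏ i ∈ S k, a i + ∑ i ∈ S k, G k i a

theorem e_sum {p : ℕ} [Fact p.Prime] {ι : Type} (S : Finset ι) (g : ι → ZMod p) :
    (ZMod.stdAddChar (∑ i ∈ S, g i) : ℂ) = ∏ i ∈ S, (ZMod.stdAddChar (g i) : ℂ) := by
  classical
  induction S using Finset.induction_on with
  | empty => simp
  | insert i s hi ih => rw [sum_insert hi, prod_insert hi, AddChar.map_add_eq_mul, ih]

/-- **The joint sums.** -/
theorem joint (ε : ℝ) (hε : 0 < ε) : ∃ K : ℕ, ∀ n : ℕ, ∃ δ : ℝ, 0 < δ ∧ ∃ p₀ : ℕ,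
    ∀ (p : ℕ) [Fact p.Prime], p₀ ≤ p → ∀ (ι : Type) [Fintype ι] [DecidableEq ι],
    Fintype.card ι ≤ n → ∀ (A : ι → Finset (ZMod p)), (∀ i, (p : ℝ) ^ ε ≤ (A i).card) →
    ∀ (κ : Type) [Fintype κ] [DecidableEq κ] (S : κ → Finset ι), Function.Injective S →
    (∀ k, K < (S k).card) → ∀ x : κ → ZMod p, (∀ k, x k ≠ 0) →
    ∀ G : κ → ι → (ι → ZMod p) → ZMod p,
    (∀ k, ∀ i ∈ S k, ∀ a b, (∀ j ∈ S k, j ≠ i → a j = b j) → G k i a = G k i b) →
    ∀ h : κ → ZMod p, h ≠ 0 →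
    ‖∑ a ∈ Fintype.piFinset A, (ZMod.stdAddChar (∑ k, h k * vv S x G k a) : ℂ)‖ ≤
      (p : ℝ) ^ (-δ) * (Fintype.piFinset A).card := by
  obtain ⟨K, hK⟩ := boxsum ε hε
  refine ⟨K, fun n => ?_⟩
  obtain ⟨δ, hδ, p₀, hb⟩ := hK n
  refine ⟨δ, hδ, p₀, ?_⟩
  intro p _ hp ι _ _ hn A hA κ _ _ S hS hSK x hx G hG h hh
  -- the maximal set
  have hne : (univ.filter fun k => h k ≠ 0).Nonempty := by
    by_contra hcon
    apply hh
    funext k
    by_contra h0
    exact hcon ⟨k, mem_filter.2 ⟨mem_univ _, h0⟩⟩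
  obtain ⟨k₀, hk₀, hmax⟩ := exists_max_image _ (fun k => (S k).card) hne
  have hk₀0 : h k₀ ≠ 0 := (mem_filter.1 hk₀).2
  have hex : ∀ k, ∃ i ∈ S k₀, k ≠ k₀ → h k ≠ 0 → i ∉ S k := by
    intro k
    by_cases hk : k ≠ k₀ ∧ h k ≠ 0
    · have hns : ¬ S k₀ ⊆ S k := by
        intro hsub
        have h1 := hmax k (mem_filter.2 ⟨mem_univ _, hk.2⟩)
        exact hk.1 (hS (eq_of_subset_of_card_le hsub h1)).symm
      obtain ⟨i, hi, hi'⟩ := not_subset.1 hns
      exact ⟨i, hi, fun _ _ => hi'⟩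
    · have h1 := hSK k₀
      obtain ⟨i, hi⟩ := card_pos.1 (by omega : 0 < (S k₀).card)
      exact ⟨i, hi, fun h2 h3 => absurd ⟨h2, h3⟩ hk⟩
  choose w hw1 hw2 using hex
  set g : ι → (ι → ZMod p) → ZMod p := fun i a =>
    h k₀ * G k₀ i a + ∑ k ∈ (univ.erase k₀).filter (fun k => w k = i), h k * vv S x G k a with hg
  set f : ι → (ι → ZMod p) → ℂ := fun i a => ZMod.stdAddChar (g i a) with hf
  have hf1 : ∀ j a, ‖f j a‖ ≤ 1 := fun j a => (norm_e _).le
  have hf2 : ∀ j ∈ S k₀, ∀ a y, f j (Function.update a j y) = f j a := by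
    intro j hj a y
    rw [hf, hg]
    simp only
    have hu : ∀ i, i ≠ j → Function.update a j y i = a i := fun i hi => Function.update_of_ne hi _ _
    have e1 : G k₀ j (Function.update a j y) = G k₀ j a :=
      hG k₀ j hj _ _ fun i _ hi => hu i hi
    rw [e1]
    congr 2
    refine sum_congr rfl fun k hk => ?_
    rw [mem_filter, mem_erase] at hk
    by_cases h0 : h k = 0
    · rw [h0, zero_mul, zero_mul]
    · have hjk : j ∉ S k := hk.2 ▸ hw2 k hk.1.1 h0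
      have hag : ∀ i ∈ S k, Function.update a j y i = a i := fun i hi =>
        hu i fun hij => hjk (hij ▸ hi)
      congr 1
      unfold vv
      rw [prod_congr rfl hag]
      congr 1
      exact sum_congr rfl fun i hi => hG k i hi _ _ fun i' hi' _ => hag i' hi'
  have htot : ∀ a, ∑ k, h k * vv S x G k a =
      (h k₀ * x k₀) * ∏ i ∈ S k₀, a i + ∑ i ∈ S k₀, g i a := by
    intro a
    rw [hg]
    simp only
    rw [sum_add_distrib, sum_fiberwise_of_maps_to (fun k _ => hw1 k),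
      ← add_sum_erase _ _ (mem_univ k₀)]
    unfold vv
    rw [← mul_sum]
    ring
  have hmain := hb p hp ι A hA (S k₀) (hSK k₀) ((card_le_univ _).trans hn) f hf1 hf2
    (h k₀ * x k₀) (mul_ne_zero hk₀0 (hx k₀))
  refine le_trans (le_of_eq ?_) hmain
  congr 1
  refine sum_congr rfl fun a _ => ?_
  rw [htot a, AddChar.map_add_eq_mul]
  congr 1
  rw [hf]
  simp only
  exact e_sum _ _

end Pool.Agent.U642.BG
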