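import Pool.Agent.U642.BG.Fin
import Pool.Agent.N825.FC.Fin

set_option autoImplicit false

/-! # Record prime gaps at long products of elements of tiny sets -/

open Finset

namespace Pool.Agent.U642.BG

open Pool.Agent.N825.FC (Mid Many crit)

theorem gaps (ε : ℝ) (hε : 0 < ε) (hε1 : ε ≤ 1) : ∃ k : ℕ, ∀ n : ℕ, k ≤ n → ∃ κ : ℝ, 0 < κ ∧
    ∃ δ : ℝ, 0 < δ ∧ ∃ p₀ : ℝ, ∀ (p : ℕ) [Fact p.Prime], p₀ ≤ p →
    ∀ A : Fin n → Finset (ZMod p), (∀ i, (p : ℝ) ^ ε ≤ (A i).card) →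
    ∀ (x : Finset (Fin n) → ZMod p) (G : Finset (Fin n) → Fin n → (Fin n → ZMod p) → ZMod p),
    (∀ S, x S ≠ 0) →
    (∀ S, ∀ i ∈ S, ∀ a b, (∀ j ∈ S, j ≠ i → a j = b j) → G S i a = G S i b) →
    ∀ (M : Finset (Fin n) → ℤ) (L : ℕ), (p : ℝ) ^ (1 - δ) ≤ L → L ≤ p →
    ∃ B ⊆ Fintype.piFinset A, (p : ℝ) ^ (-ε) * ∏ i, ((A i).card : ℝ) ≤ B.card ∧
      ∀ a ∈ B, ∀ S : Finset (Fin n), k ≤ S.card → ∃ v : ℤ, M S < v ∧ v ≤ M S + L ∧
        (v : ZMod p) = x S * ∏ i ∈ S, a i + ∑ i ∈ S, G S i a ∧ Mid κ ε p v := by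
  obtain ⟨K, hK⟩ := joint ε hε
  refine ⟨K + 1, fun n hn => ?_⟩
  obtain ⟨δ₀, hδ₀, p₁, hj⟩ := hK n
  obtain ⟨r, hr⟩ : ∃ r : ℕ, r = Fintype.card {S : Finset (Fin n) // K + 1 ≤ S.card} := ⟨_, rfl⟩
  have hr1 : 1 ≤ r := by
    rw [hr]
    refine Fintype.card_pos_iff.2 ⟨⟨univ, ?_⟩⟩
    rw [card_univ, Fintype.card_fin]
    exact hn
  obtain ⟨ε', hε'⟩ : ∃ ε' : ℝ, ε' = min δ₀ ε := ⟨_, rfl⟩
  have hε'0 : 0 < ε' := by rw [hε']; positivity
  have hε'1 : ε' ≤ δ₀ := by rw [hε']; exact min_le_left _ _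
  have hε'2 : ε' ≤ ε := by rw [hε']; exact min_le_right _ _
  obtain ⟨κ, hκ, δ, hδ, P₀, hc⟩ := crit r hr1 ε' hε'0 (hε'2.trans hε1)
  refine ⟨κ, hκ, δ, hδ, max P₀ p₁, ?_⟩
  intro p _ hp A hA x G hx hG M L hL1 hL2
  have hp1 : (1 : ℝ) ≤ p := by exact_mod_cast (Fact.out : p.Prime).one_le
  have hp0 : (0 : ℝ) < p := by linarith
  have hpp : p₁ ≤ p := by
    have := (le_max_right P₀ (p₁ : ℝ)).trans hp
    exact_mod_cast this
  let e : Fin r ≃ {S : Finset (Fin n) // K + 1 ≤ S.card} := (finCongr hr).trans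
    (Fintype.equivFin _).symm
  have hAne : ∀ i, (A i).Nonempty := fun i => by
    rw [← card_pos]
    have h1 : (0 : ℝ) < (A i).card := lt_of_lt_of_le (by positivity) (hA i)
    exact_mod_cast h1
  have hP : (Fintype.piFinset A).Nonempty := Fintype.piFinset_nonempty.2 hAne
  have hF : ∀ h : Fin r → ZMod p, h ≠ 0 →
      ‖∑ a ∈ Fintype.piFinset A, (ZMod.stdAddChar (∑ j, h j *
        (x (e j).1 * ∏ i ∈ (e j).1, a i + ∑ i ∈ (e j).1, G (e j).1 i a)) : ℂ)‖ ≤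
      (Fintype.piFinset A).card * (p : ℝ) ^ (-ε') := by
    intro h hh
    have h1 := hj p hpp (Fin n) (by rw [Fintype.card_fin]) A hA
      {S : Finset (Fin n) // K + 1 ≤ S.card} (fun S => S.1) Subtype.val_injective
      (fun S => S.2) (fun S => x S.1) (fun S => hx S.1) (fun S => G S.1)
      (fun S i hi a b hab => hG S.1 i hi a b hab) (fun S => h (e.symm S)) (by
        intro h0
        apply hh
        funext j
        have := congrFun h0 (e j)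
        simpa using this)
    rw [mul_comm]
    refine le_trans (le_of_eq ?_) (h1.trans (mul_le_mul_of_nonneg_right
      (Real.rpow_le_rpow_of_exponent_le hp1 (by linarith)) (Nat.cast_nonneg _)))
    congr 1
    refine sum_congr rfl fun a _ => ?_
    congr 1
    rw [← Equiv.sum_comp e]
    refine sum_congr rfl fun j _ => ?_
    unfold vv
    rw [Equiv.symm_apply_apply]
  obtain ⟨g, hg, h1, h2⟩ := hc p ((le_max_left _ _).trans hp) (Fin n → ZMod p)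
    (Fintype.piFinset A) (fun a j => x (e j).1 * ∏ i ∈ (e j).1, a i +
      ∑ i ∈ (e j).1, G (e j).1 i a) hP hF (fun j => M (e j).1) L hL1 hL2
  refine ⟨g, hg, ?_, fun a ha S hS => ?_⟩
  · refine le_trans ?_ h1
    rw [Fintype.card_piFinset, mul_comm]
    push_cast
    exact mul_le_mul_of_nonneg_left (Real.rpow_le_rpow_of_exponent_le hp1 (by linarith))
      (prod_nonneg fun _ _ => Nat.cast_nonneg _)
  · obtain ⟨v, b1, b2, b3, b4⟩ := h2 a ha (e.symm ⟨S, hS⟩)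
    simp only [Equiv.apply_symm_apply] at b1 b2 b3
    exact ⟨v, b1, b2, b3, b4.mono hp1 hε'2⟩

end Pool.Agent.U642.BG
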