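import Pool.Agent.U642.BG.ExpoAP
import Pool.Agent.U642.WP.Reg

set_option autoImplicit false

/-! # Systems of congruences with exponential functions and polynomials in short boxes -/

namespace Pool.Agent.U642.BG

open Finset Polynomial Filter
open Pool.Agent.N647.FG (AP AP_one AP_card AP_eq AP_ends)
open Pool.Agent.W147.PS (ff ev_pow)
open Pool.Agent.N542.PT (Crit WellDist Good)
open Pool.Agent.U642.WP (psi_sum orth prod_pert crit_cnt AP_sum weyl_AP)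

section

variable {p : ℕ} [Fact p.Prime]

open scoped Classical in
/-- the solutions of `∑ j, G i j (x j) = a i` with `x j ∈ A j` -/
noncomputable def solF {m r : ℕ} (G : Fin m → Fin r → ℤ → ZMod p) (a : Fin m → ZMod p)
    (A : Fin r → Finset ℤ) : Finset (Fin r → ℤ) :=
  (Fintype.piFinset A).filter (fun x => ∀ i, ∑ j, G i j (x j) = a i)

/-- the number of the solutions in a box of sets -/
lemma solF_count {m r : ℕ} (G : Fin m → Fin r → ℤ → ZMod p) (a : Fin m → ZMod p)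
    (A : Fin r → Finset ℤ) (E : ℝ) (hE0 : 0 ≤ E)
    (hE : ∀ t : Fin m → ZMod p, t ≠ 0 →
      ∏ j, ‖∑ x ∈ A j, (ZMod.stdAddChar (∑ i, t i * G i j x) : ℂ)‖ ≤ E) :
    |((solF G a A).card : ℝ) - (∏ j, ((A j).card : ℝ)) / (p : ℝ) ^ m| ≤ E := by
  classical
  have hp : p.Prime := Fact.out
  have hp0 : (0 : ℝ) < p := by exact_mod_cast hp.pos
  have h1 : ((solF G a A).card : ℂ) * (p : ℂ) ^ m = ∑ t : Fin m → ZMod p,
      (ZMod.stdAddChar (-∑ i, t i * a i) : ℂ) *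
        ∏ j, ∑ x ∈ A j, (ZMod.stdAddChar (∑ i, t i * G i j x) : ℂ) := by
    have e1 : ((solF G a A).card : ℂ) * (p : ℂ) ^ m = ∑ x ∈ Fintype.piFinset A,
        ∑ t : Fin m → ZMod p, (ZMod.stdAddChar
          (∑ i, t i * (∑ j, G i j (x j) - a i)) : ℂ) := by
      unfold solF
      rw [card_filter, Nat.cast_sum, sum_mul]
      refine sum_congr rfl fun x _ => ?_
      rw [orth]
      have e2 : ((fun i => ∑ j, G i j (x j) - a i) = 0) ↔
          ∀ i, ∑ j, G i j (x j) = a i := by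
        rw [funext_iff]
        simp only [Pi.zero_apply, sub_eq_zero]
      by_cases hx : ∀ i, ∑ j, G i j (x j) = a i
      · rw [if_pos hx, if_pos (e2.2 hx)]
        push_cast
        ring
      · rw [if_neg hx, if_neg (fun h => hx (e2.1 h))]
        push_cast
        ring
    rw [e1, sum_comm]
    refine sum_congr rfl fun t _ => ?_
    rw [Finset.prod_univ_sum, mul_sum]
    refine sum_congr rfl fun x _ => ?_
    rw [← psi_sum, ← AddChar.map_add_eq_mul]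
    congr 1
    rw [sum_comm, neg_add_eq_sub, ← sum_sub_distrib]
    refine sum_congr rfl fun i _ => ?_
    rw [mul_sub, mul_sum]
  have h2 : ((solF G a A).card : ℂ) * (p : ℂ) ^ m - ((∏ j, ((A j).card : ℝ) : ℝ) : ℂ) =
      ∑ t ∈ (univ : Finset (Fin m → ZMod p)).erase 0, (ZMod.stdAddChar (-∑ i, t i * a i) : ℂ) *
        ∏ j, ∑ x ∈ A j, (ZMod.stdAddChar (∑ i, t i * G i j x) : ℂ) := by
    rw [h1, ← add_sum_erase univ _ (mem_univ (0 : Fin m → ZMod p))]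
    have e1 : ∀ j, ∑ x ∈ A j, (ZMod.stdAddChar (∑ i, (0 : Fin m → ZMod p) i * G i j x) : ℂ) =
        ((A j).card : ℂ) := by
      intro j
      simp
    rw [prod_congr rfl fun j _ => e1 j]
    simp
  have h3 : ‖((solF G a A).card : ℂ) * (p : ℂ) ^ m - ((∏ j, ((A j).card : ℝ) : ℝ) : ℂ)‖ ≤
      (p : ℝ) ^ m * E := by
    rw [h2]
    refine (norm_sum_le _ _).trans ?_
    have e1 : ∀ t ∈ (univ : Finset (Fin m → ZMod p)).erase 0,
        ‖(ZMod.stdAddChar (-∑ i, t i * a i) : ℂ) *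
        ∏ j, ∑ x ∈ A j, (ZMod.stdAddChar (∑ i, t i * G i j x) : ℂ)‖ ≤ E := by
      intro t ht
      rw [norm_mul, AddChar.norm_apply, one_mul, norm_prod]
      exact hE t (ne_of_mem_erase ht)
    refine (sum_le_sum e1).trans ?_
    rw [sum_const, nsmul_eq_mul]
    apply mul_le_mul_of_nonneg_right _ hE0
    have e2 : (((univ : Finset (Fin m → ZMod p)).erase 0).card : ℝ) ≤
        ((univ : Finset (Fin m → ZMod p)).card : ℝ) := by
      exact_mod_cast card_le_card (erase_subset _ _)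
    refine e2.trans (le_of_eq ?_)
    rw [card_univ, Fintype.card_fun, ZMod.card, Fintype.card_fin]
    push_cast
    rfl
  have h4 : ((solF G a A).card : ℂ) * (p : ℂ) ^ m - ((∏ j, ((A j).card : ℝ) : ℝ) : ℂ) =
      ((((solF G a A).card : ℝ) * (p : ℝ) ^ m - ∏ j, ((A j).card : ℝ) : ℝ) : ℂ) := by
    push_cast
    ring
  rw [h4, Complex.norm_real, Real.norm_eq_abs] at h3
  have hpm : (0 : ℝ) < (p : ℝ) ^ m := by positivity
  have h5 : ((solF G a A).card : ℝ) - (∏ j, ((A j).card : ℝ)) / (p : ℝ) ^ m =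
      (((solF G a A).card : ℝ) * (p : ℝ) ^ m - ∏ j, ((A j).card : ℝ)) / (p : ℝ) ^ m := by
    field_simp
  rw [h5, abs_div, abs_of_pos hpm, div_le_iff₀ hpm, mul_comm E]
  exact h3

end

open scoped Classical in
/-- **Systems of congruences with small exponential sums over progressions.** -/
theorem main_fun {ι : Type} (r m : ℕ) (F : ι → MvPolynomial (Fin r) ℤ) (hF : Crit r F)
    (δ : ℝ) (hδ : 0 < δ) (hδ1 : δ ≤ 1) :
    ∃ κ : ℝ, 0 < κ ∧ ∀ᶠ P : ℝ in atTop, ∀ (p : ℕ) [Fact p.Prime], (p : ℝ) = P →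
    ∀ (G : Fin m → Fin r → ℤ → ZMod p) (a : Fin m → ZMod p) (M : Fin r → ℤ) (L : Fin r → ℕ),
    (∀ j, (p : ℝ) ^ δ ≤ L j) →
    (∀ q : ℕ, 1 ≤ q → (q : ℝ) ≤ (p : ℝ) ^ (δ / 4) → ∀ ρ : Fin r → ℤ, ∀ t : Fin m → ZMod p, t ≠ 0 →
      ∏ j, ‖∑ x ∈ AP (M j) (L j) q (ρ j), (ZMod.stdAddChar (∑ i, t i * G i j x) : ℂ)‖ ≤
      (∏ j, (L j : ℝ)) * (p : ℝ) ^ (-((m : ℝ) + δ))) →
    (∏ j, (L j : ℝ)) / (p : ℝ) ^ ((m : ℝ) + δ) ≤
      (((solF G a (fun j => Ioc (M j) (M j + L j))).filter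
        (fun x => Good F (κ * ff p) ((p : ℝ) ^ δ) x)).card : ℝ) := by
  obtain ⟨δ₂, hδ₂⟩ : ∃ δ₂ : ℝ, δ₂ = δ / 4 := ⟨_, rfl⟩
  have hδ₂0 : 0 < δ₂ := by rw [hδ₂]; positivity
  obtain ⟨κ, hκ, hcrit⟩ := crit_cnt r F hF δ₂ hδ₂0 (by linarith)
  refine ⟨κ, hκ, ?_⟩
  obtain ⟨θ, hθ⟩ : ∃ θ : ℝ, θ = δ₂ / (4 * r + 4) := ⟨_, rfl⟩
  have hr0 : (0 : ℝ) ≤ r := Nat.cast_nonneg _
  have hθ0 : 0 < θ := by rw [hθ]; positivity
  have hθe : θ * (4 * r + 4) = δ₂ := by rw [hθ]; field_simp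
  have hθ1 : θ ≤ δ₂ / 4 := by nlinarith
  rw [← hθ] at hcrit
  filter_upwards [hcrit, ev_pow (θ - δ) (-δ₂) (8 * 2 ^ r) (by linarith),
    ev_pow (-δ) (-δ₂) 8 (by linarith), ev_pow δ₂ δ 2 (by linarith),
    ev_pow (θ - δ) 0 1 (by linarith), eventually_gt_atTop (1 : ℝ)] with P g2 g3 g4 g5 g6 g7
  intro p hp hpP G a M L hL hexp
  subst hpP
  have hp' : p.Prime := Fact.out
  have hp1 : (1 : ℝ) < p := g7
  have hp0 : (0 : ℝ) < p := by linarith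
  have hmono : ∀ x y : ℝ, x ≤ y → (p : ℝ) ^ x ≤ (p : ℝ) ^ y := fun x y h =>
    Real.rpow_le_rpow_of_exponent_le hp1.le h
  have hL0 : ∀ j, (0 : ℝ) < L j := fun j => (Real.rpow_pos_of_pos hp0 _).trans_le (hL j)
  obtain ⟨V, hV⟩ : ∃ V : ℝ, V = ∏ j, (L j : ℝ) := ⟨_, rfl⟩
  have hV0 : 0 < V := by rw [hV]; exact prod_pos fun j _ => hL0 j
  have hpm : (0 : ℝ) < (p : ℝ) ^ m := by positivity
  obtain ⟨A, hA⟩ : ∃ A : ℝ, A = V / (p : ℝ) ^ m := ⟨_, rfl⟩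
  have hA0 : 0 < A := by rw [hA]; positivity
  have hpδ₂ : 0 < (p : ℝ) ^ (-δ₂) := Real.rpow_pos_of_pos hp0 _
  have hsmall : (p : ℝ) ^ (-δ₂) ≤ 1 :=
    Real.rpow_le_one_of_one_le_of_nonpos hp1.le (by linarith)
  have hEA : V * (p : ℝ) ^ (-((m : ℝ) + δ)) = A * (p : ℝ) ^ (-δ) := by
    rw [hA, neg_add, Real.rpow_add hp0, Real.rpow_neg hp0.le, Real.rpow_natCast]
    field_simp
  rw [← hV] at hexp ⊢
  -- the count in progressions
  have key : ∀ q : ℕ, 1 ≤ q → (q : ℝ) ≤ (p : ℝ) ^ θ → ∀ ρ : Fin r → ℤ,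
      |((solF G a (fun j => AP (M j) (L j) q (ρ j))).card : ℝ) - A / (q : ℝ) ^ r| ≤
        A * ((p : ℝ) ^ (-δ₂) / 4) := by
    intro q hq hqp ρ
    have hqR : (1 : ℝ) ≤ q := by exact_mod_cast hq
    have hq0 : (0 : ℝ) < q := by linarith
    have h1 := solF_count G a (fun j => AP (M j) (L j) q (ρ j)) (V * (p : ℝ) ^ (-((m : ℝ) + δ)))
      (by positivity) (hexp q hq (hqp.trans (hmono _ _ (by linarith))) ρ)
    obtain ⟨η, hη⟩ : ∃ η : ℝ, η = (p : ℝ) ^ (θ - δ) := ⟨_, rfl⟩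
    have hη0 : 0 ≤ η := by rw [hη]; positivity
    have hη1 : η ≤ 1 := by rw [hη]; simpa using g6
    have h2 := prod_pert univ
      (fun j => ((AP (M j) (L j) q (ρ j)).card : ℝ))
      (fun j => (L j : ℝ) / q) η hη0 hη1 (fun j _ => by positivity) (fun j _ => by
        refine (AP_card (M j) (L j) q hq (ρ j)).trans ?_
        rw [hη, mul_div_assoc', one_le_div hq0]
        calc (q : ℝ) ≤ (p : ℝ) ^ θ := hqp
          _ = (p : ℝ) ^ (θ - δ) * (p : ℝ) ^ δ := by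
              rw [← Real.rpow_add hp0]; congr 1; ring
          _ ≤ (p : ℝ) ^ (θ - δ) * L j := by
              apply mul_le_mul_of_nonneg_left (hL j) (by positivity))
    rw [card_univ, Fintype.card_fin] at h2
    have e1 : ∏ j, ((L j : ℝ) / q) = V / (q : ℝ) ^ r := by
      rw [prod_div_distrib, prod_const, card_univ, Fintype.card_fin, hV]
    rw [e1] at h2
    obtain ⟨U, hU⟩ : ∃ U : ℝ, U = ∏ j, ((AP (M j) (L j) q (ρ j)).card : ℝ) := ⟨_, rfl⟩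
    rw [← hU] at h1 h2
    have hqr1 : (1 : ℝ) ≤ (q : ℝ) ^ r := one_le_pow₀ hqR
    have h3 : |U / (p : ℝ) ^ m - A / (q : ℝ) ^ r| ≤ A * ((p : ℝ) ^ (-δ₂) / 8) := by
      have e3 : U / (p : ℝ) ^ m - A / (q : ℝ) ^ r = (U - V / (q : ℝ) ^ r) / (p : ℝ) ^ m := by
        rw [hA]; field_simp
      rw [e3, abs_div, abs_of_pos hpm]
      have h4 : |U - V / (q : ℝ) ^ r| ≤ 2 ^ r * η * V := by
        refine h2.trans ?_
        apply mul_le_mul _ (div_le_self hV0.le hqr1) (by positivity) (by positivity)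
        apply mul_le_mul_of_nonneg_right _ hη0
        linarith
      have h5 : |U - V / (q : ℝ) ^ r| / (p : ℝ) ^ m ≤ (2 ^ r * η * V) / (p : ℝ) ^ m := by gcongr
      refine h5.trans ?_
      have h6 : (2 ^ r * η * V) / (p : ℝ) ^ m = A * (2 ^ r * η) := by rw [hA]; ring
      rw [h6]
      apply mul_le_mul_of_nonneg_left _ hA0.le
      rw [hη]
      linarith
    have h4 : V * (p : ℝ) ^ (-((m : ℝ) + δ)) ≤ A * ((p : ℝ) ^ (-δ₂) / 8) := by
      rw [hEA]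
      apply mul_le_mul_of_nonneg_left _ hA0.le
      linarith
    have h6 := abs_add_le (((solF G a (fun j => AP (M j) (L j) q (ρ j))).card : ℝ) -
        U / (p : ℝ) ^ m) (U / (p : ℝ) ^ m - A / (q : ℝ) ^ r)
    rw [sub_add_sub_cancel] at h6
    linarith
  -- the family
  obtain ⟨s, hs⟩ : ∃ s : Finset (Fin r → ℤ), s = solF G a (fun j => Ioc (M j) (M j + L j)) :=
    ⟨_, rfl⟩
  have k1 := key 1 le_rfl (by simpa using Real.one_le_rpow hp1.le hθ0.le) (fun _ => 0)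
  have e0 : (fun j => AP (M j) (L j) 1 ((fun _ => 0 : Fin r → ℤ) j)) =
      fun j => Ioc (M j) (M j + L j) := by
    funext j
    exact AP_one _ _ _
  rw [e0, ← hs, Nat.cast_one, one_pow, div_one] at k1
  have hscard : A / 2 ≤ (s.card : ℝ) := by
    have h1 := (abs_le.mp k1).1
    have h2 : A * ((p : ℝ) ^ (-δ₂) / 4) ≤ A * (1 / 4) := by gcongr
    linarith
  have hmain := g2 (Fin r → ℤ) s (fun x j => x j) (by
    intro q hq hqp ρ
    have hqR : (1 : ℝ) ≤ (q : ℝ) ^ r := one_le_pow₀ (by exact_mod_cast hq)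
    have k2 := key q hq hqp ρ
    have e1 : s.filter (fun i => ∀ j, (q : ℤ) ∣ i j - ρ j) =
        solF G a (fun j => AP (M j) (L j) q (ρ j)) := by
      ext x
      rw [hs]
      unfold solF AP
      simp only [mem_filter, Fintype.mem_piFinset]
      constructor
      · rintro ⟨⟨h1, h2⟩, h3⟩
        exact ⟨fun j => ⟨h1 j, h3 j⟩, h2⟩
      · rintro ⟨h1, h2⟩
        exact ⟨⟨fun j => (h1 j).1, h2⟩, fun j => (h1 j).2⟩
    rw [e1]
    have k3 : |A / (q : ℝ) ^ r - s.card / (q : ℝ) ^ r| ≤ A * ((p : ℝ) ^ (-δ₂) / 4) := by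
      rw [← sub_div, abs_div, abs_of_pos (show (0 : ℝ) < (q : ℝ) ^ r by linarith), abs_sub_comm]
      exact (div_le_self (abs_nonneg _) hqR).trans k1
    have k4 := abs_add_le (((solF G a (fun j => AP (M j) (L j) q (ρ j))).card : ℝ) -
      A / (q : ℝ) ^ r) (A / (q : ℝ) ^ r - s.card / (q : ℝ) ^ r)
    rw [sub_add_sub_cancel] at k4
    have k5 : A / 2 * (p : ℝ) ^ (-δ₂) ≤ s.card * (p : ℝ) ^ (-δ₂) :=
      mul_le_mul_of_nonneg_right hscard hpδ₂.le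
    linarith)
  rw [← hs]
  have hle : ((s.filter (fun i => Good F (κ * ff p) ((p : ℝ) ^ δ₂) (fun j => i j))).card : ℝ) ≤
      ((s.filter (fun x => Good F (κ * ff p) ((p : ℝ) ^ δ) x)).card : ℝ) := by
    rw [Nat.cast_le]
    apply card_le_card
    intro x hx
    rw [mem_filter] at hx ⊢
    refine ⟨hx.1, fun j n hn => ?_⟩
    obtain ⟨l, hl, hl2, hl3⟩ := hx.2 j n hn
    exact ⟨l, hl, hl2.trans (hmono _ _ (by linarith)), hl3⟩
  refine le_trans ?_ (hmain.trans hle)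
  have h1 : V / (p : ℝ) ^ ((m : ℝ) + δ) = A * (p : ℝ) ^ (-δ) := by
    rw [← hEA, Real.rpow_neg hp0.le, div_eq_mul_inv]
  rw [h1]
  have h2 : (p : ℝ) ^ (-δ) ≤ (p : ℝ) ^ (-δ₂) / 2 := by
    have h3 : 0 < (p : ℝ) ^ (-δ) := Real.rpow_pos_of_pos hp0 _
    linarith
  calc A * (p : ℝ) ^ (-δ) ≤ A * ((p : ℝ) ^ (-δ₂) / 2) := mul_le_mul_of_nonneg_left h2 hA0.le
    _ = (p : ℝ) ^ (-δ₂) * (A / 2) := by ring
    _ ≤ _ := mul_le_mul_of_nonneg_left hscard hpδ₂.le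

/-- the sum over the exponents in a progression -/
theorem expo_Z (ε : ℝ) (hε : 0 < ε) : ∃ δ : ℝ, 0 < δ ∧ ∃ p₀ : ℕ,
    ∀ (p : ℕ) [Fact p.Prime], p₀ ≤ p → ∀ g : ZMod p, (p : ℝ) ^ ε ≤ orderOf g →
    ∀ (M : ℤ) (L : ℕ), (p : ℝ) ^ ε ≤ L → ∀ q : ℕ, 1 ≤ q → (q : ℝ) ≤ (p : ℝ) ^ (ε / 4) →
    ∀ (ρ : ℤ) (y b : ZMod p), y ≠ 0 →
    ‖∑ n ∈ AP M L q ρ, (ZMod.stdAddChar (y * g ^ n + b) : ℂ)‖ ≤ L * (p : ℝ) ^ (-δ) := by
  obtain ⟨δ₀, hδ₀, p₁, hb⟩ := expo (ε / 2) (by positivity)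
  obtain ⟨Z₀, hZ₀⟩ := eventually_atTop.1 ((ev_pow 0 (ε / 4) 2 (by positivity)).and
    ((ev_pow (-δ₀) (-(δ₀ / 2)) 2 (by linarith)).and (eventually_ge_atTop (1 : ℝ))))
  obtain ⟨p₂, hp₂⟩ := exists_nat_ge Z₀
  refine ⟨δ₀ / 2, by positivity, max p₁ p₂, fun p _ hp g hg M L hL q hq hqp ρ y b hy => ?_⟩
  obtain ⟨e1, e2, hp1⟩ := hZ₀ p (hp₂.trans (by exact_mod_cast (le_max_right _ _).trans hp))
  have hp0 : (0 : ℝ) < p := by linarith
  rw [Real.rpow_zero, mul_one] at e1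
  have hq0 : (0 : ℝ) < q := by exact_mod_cast hq
  have hq1 : (1 : ℝ) ≤ q := by exact_mod_cast hq
  have hgp : 0 < (p : ℝ) ^ ε := by positivity
  have hN0 : (0 : ℝ) < L := by linarith
  obtain ⟨M', N', h2, h1⟩ := AP_sum M L q hq ρ
  have hsplit : (p : ℝ) ^ ε = (p : ℝ) ^ (ε / 4) * ((p : ℝ) ^ (ε / 4) * (p : ℝ) ^ (ε / 2)) := by
    rw [← Real.rpow_add hp0, ← Real.rpow_add hp0]
    congr 1
    ring
  have hhalf : 1 ≤ (p : ℝ) ^ (ε / 2) := Real.one_le_rpow hp1 (by positivity)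
  have hdiv : ∀ x : ℝ, (p : ℝ) ^ ε ≤ x → 2 * (p : ℝ) ^ (ε / 2) ≤ x / q := by
    intro x hx
    rw [le_div_iff₀ hq0]
    calc 2 * (p : ℝ) ^ (ε / 2) * q ≤ (p : ℝ) ^ (ε / 4) * (p : ℝ) ^ (ε / 2) * (p : ℝ) ^ (ε / 4) := by
          gcongr
      _ = (p : ℝ) ^ ε := by rw [hsplit]; ring
      _ ≤ x := hx
  have hN' : (p : ℝ) ^ (ε / 2) ≤ N' := by
    have h3 := hdiv L hL
    have h4 := (abs_le.1 h2).1
    linarith
  have hN'2 : (N' : ℝ) ≤ 2 * L := by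
    have h4 := (abs_le.1 h2).2
    have h5 : (L : ℝ) / q ≤ L := div_le_self hN0.le hq1
    have h6 := hdiv L hL
    linarith
  have hord : (p : ℝ) ^ (ε / 2) ≤ orderOf (g ^ q) := by
    rw [orderOf_pow' g (by omega)]
    have h3 : Nat.gcd (orderOf g) q ∣ orderOf g := Nat.gcd_dvd_left _ _
    have h4 : 0 < Nat.gcd (orderOf g) q := Nat.gcd_pos_of_pos_right _ (by omega)
    have h5 : Nat.gcd (orderOf g) q ≤ q := Nat.le_of_dvd (by omega) (Nat.gcd_dvd_right _ _)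
    rw [Nat.cast_div h3 (by positivity)]
    have h6 := hdiv _ hg
    have h7 : (orderOf g : ℝ) / q ≤ (orderOf g : ℝ) / ((Nat.gcd (orderOf g) q : ℕ) : ℝ) := by
      apply div_le_div_of_nonneg_left (Nat.cast_nonneg _) (by exact_mod_cast h4)
      exact_mod_cast h5
    linarith
  have hg0 : g ≠ 0 := by
    intro h
    subst h
    have h3 : orderOf (0 : ZMod p) = 0 := orderOf_eq_zero_iff'.2 fun n hn => by
      rw [zero_pow (by omega)]
      exact zero_ne_one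
    rw [h3, Nat.cast_zero] at hg
    linarith
  have h3 := hb p ((le_max_left _ _).trans hp) (g ^ q) hord 0 N' hN' (y * g ^ M')
    (mul_ne_zero hy (zpow_ne_zero _ hg0))
  rw [h1]
  have h4 : ∑ n ∈ range N', (ZMod.stdAddChar (y * g ^ (M' + q * (n : ℤ)) + b) : ℂ) =
      (ZMod.stdAddChar b : ℂ) *
        ∑ n ∈ Ico 0 (0 + N'), (ZMod.stdAddChar (y * g ^ M' * (g ^ q) ^ n) : ℂ) := by
    rw [zero_add, Nat.Ico_zero_eq_range, mul_sum]
    refine sum_congr rfl fun n _ => ?_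
    rw [← AddChar.map_add_eq_mul]
    congr 1
    rw [zpow_add₀ hg0, zpow_mul, zpow_natCast, zpow_natCast]
    ring
  rw [h4, norm_mul, norm_e, one_mul]
  refine h3.trans ?_
  calc (N' : ℝ) * (p : ℝ) ^ (-δ₀) ≤ 2 * L * (p : ℝ) ^ (-δ₀) :=
        mul_le_mul_of_nonneg_right hN'2 (by positivity)
    _ = L * (2 * (p : ℝ) ^ (-δ₀)) := by ring
    _ ≤ L * (p : ℝ) ^ (-(δ₀ / 2)) := mul_le_mul_of_nonneg_left e2 hN0.le

/-- Exponential functions and polynomials on long enough intervals. -/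
def Active (k : ℕ) (ε : ℝ) (p : ℕ) [Fact p.Prime] (L : ℕ) (φ : ℤ → ZMod p) : Prop :=
  (∃ g x b : ZMod p, (p : ℝ) ^ ε ≤ orderOf g ∧ x ≠ 0 ∧ ∀ n : ℤ, φ n = x * g ^ n + b) ∨
  (∃ P : (ZMod p)[X], 1 ≤ P.natDegree ∧ P.natDegree ≤ k ∧
    (p : ℝ) ^ (1 / (P.natDegree : ℝ) + ε) ≤ L ∧ ∀ n : ℤ, φ n = P.eval (n : ZMod p))

/-- the sum over an active function -/
theorem active_sum (k : ℕ) (ε : ℝ) (hε : 0 < ε) (hε1 : ε ≤ 1) : ∃ η : ℝ, 0 < η ∧ ∃ p₀ : ℕ,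
    ∀ (p : ℕ) [Fact p.Prime], p₀ ≤ p → ∀ (L : ℕ) (φ : ℤ → ZMod p), (p : ℝ) ^ ε ≤ L →
    Active k ε p L φ → ∀ q : ℕ, 1 ≤ q → (q : ℝ) ≤ (p : ℝ) ^ (ε / 4) → ∀ (M ρ : ℤ),
    ‖∑ n ∈ AP M L q ρ, (ZMod.stdAddChar (φ n) : ℂ)‖ ≤ L * (p : ℝ) ^ (-η) := by
  obtain ⟨δ₁, hδ₁, p₁, hexp⟩ := expo_Z ε hε
  obtain ⟨η, hη, hW⟩ := weyl_AP k (ε / 2) (by positivity)
  obtain ⟨Z₀, hZ₀⟩ := eventually_atTop.1 (hW.and ((ev_pow 0 (ε / 4) 2 (by positivity)).and
    ((ev_pow (-η) (-(η / 2)) 2 (by linarith)).and (eventually_gt_atTop (1 : ℝ)))))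
  obtain ⟨p₂, hp₂⟩ := exists_nat_ge Z₀
  refine ⟨min δ₁ (η / 2), lt_min hδ₁ (by positivity), max p₁ p₂, ?_⟩
  intro p _ hp L φ hL hφ q hq hqp M ρ
  obtain ⟨hW', e1, e2, hp1⟩ := hZ₀ p (hp₂.trans (by exact_mod_cast (le_max_right _ _).trans hp))
  have hp0 : (0 : ℝ) < p := by linarith
  rw [Real.rpow_zero, mul_one] at e1
  have hq0 : (0 : ℝ) < q := by exact_mod_cast hq
  have hq1 : (1 : ℝ) ≤ q := by exact_mod_cast hq
  have hL0 : (0 : ℝ) < L := lt_of_lt_of_le (by positivity) hL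
  rcases hφ with ⟨g, x, b, hg, hx, hφ⟩ | ⟨P, hd1, hdk, hPL, hφ⟩
  · have h1 := hexp p ((le_max_left _ _).trans hp) g hg M L hL q hq hqp ρ x b hx
    rw [sum_congr rfl fun n _ => by rw [hφ n]]
    refine h1.trans ?_
    apply mul_le_mul_of_nonneg_left _ hL0.le
    exact Real.rpow_le_rpow_of_exponent_le hp1.le (neg_le_neg (min_le_left _ _))
  · have hqp' : q < p := by
      have : (q : ℝ) < p := lt_of_le_of_lt hqp (by
        calc (p : ℝ) ^ (ε / 4) < (p : ℝ) ^ (1 : ℝ) :=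
              Real.rpow_lt_rpow_of_exponent_lt hp1 (by linarith)
          _ = p := Real.rpow_one _)
      exact_mod_cast this
    obtain ⟨M', N, hN, hsum⟩ := AP_sum M L q hq ρ
    rw [hsum]
    have hN2 := abs_le.mp hN
    obtain ⟨e, he⟩ : ∃ e : ℝ, e = 1 / (P.natDegree : ℝ) := ⟨_, rfl⟩
    have he0 : 0 ≤ e := by rw [he]; positivity
    have hd0 : (0 : ℝ) < P.natDegree := by exact_mod_cast hd1
    have he1 : 1 ≤ (p : ℝ) ^ (e + ε / 2) := Real.one_le_rpow hp1.le (by positivity)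
    have h2 : 2 * (p : ℝ) ^ (e + ε / 2) ≤ (L : ℝ) / q := by
      rw [le_div_iff₀ hq0]
      calc 2 * (p : ℝ) ^ (e + ε / 2) * q ≤
          (p : ℝ) ^ (ε / 4) * (p : ℝ) ^ (e + ε / 2) * (p : ℝ) ^ (ε / 4) := by gcongr
        _ = (p : ℝ) ^ (e + ε) := by
            rw [← Real.rpow_add hp0, ← Real.rpow_add hp0]
            congr 1
            ring
        _ ≤ L := by rw [he]; exact hPL
    have h3 : (p : ℝ) ^ (e + ε / 2) ≤ N := by linarith
    have h4 : (N : ℝ) ≤ 2 * L := by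
      have h5 : (L : ℝ) / q ≤ L := div_le_self hL0.le hq1
      linarith
    rw [he] at h3
    have h5 := hW' p rfl P hd1 hdk M' N q hq hqp' h3
    rw [sum_congr rfl fun n _ => by rw [hφ]]
    refine h5.trans ?_
    calc (N : ℝ) * (p : ℝ) ^ (-η) ≤ 2 * L * (p : ℝ) ^ (-η) :=
          mul_le_mul_of_nonneg_right h4 (by positivity)
      _ = L * (2 * (p : ℝ) ^ (-η)) := by ring
      _ ≤ L * (p : ℝ) ^ (-(η / 2)) := mul_le_mul_of_nonneg_left e2 hL0.le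
      _ ≤ L * (p : ℝ) ^ (-(min δ₁ (η / 2))) := by
          apply mul_le_mul_of_nonneg_left _ hL0.le
          exact Real.rpow_le_rpow_of_exponent_le hp1.le (neg_le_neg (min_le_right _ _))

open scoped Classical in
/-- **Mixed systems of congruences in short boxes.** -/
theorem mixed (m k : ℕ) (ε : ℝ) (hε : 0 < ε) (hε1 : ε ≤ 1) : ∃ R : ℕ, ∀ r : ℕ,
    ∀ {ι : Type} (F : ι → MvPolynomial (Fin r) ℤ), Crit r F →
    ∃ κ : ℝ, 0 < κ ∧ ∃ p₀ : ℕ, ∀ (p : ℕ) [Fact p.Prime], p₀ ≤ p →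
    ∀ (G : Fin m → Fin r → ℤ → ZMod p) (a : Fin m → ZMod p) (M : Fin r → ℤ) (L : Fin r → ℕ),
    (∀ j, (p : ℝ) ^ ε ≤ L j) →
    (∀ t : Fin m → ZMod p, t ≠ 0 → ∃ J : Finset (Fin r), R ≤ J.card ∧
      ∀ j ∈ J, Active k ε p (L j) (fun n => ∑ i, t i * G i j n)) →
    (∏ j, (L j : ℝ)) / (p : ℝ) ^ ((m : ℝ) + ε) ≤
      (((solF G a (fun j => Ioc (M j) (M j + L j))).filter
        (fun x => Good F (κ * ff p) ((p : ℝ) ^ ε) x)).card : ℝ) := by
  obtain ⟨η, hη, p₁, hact⟩ := active_sum k ε hε hε1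
  obtain ⟨R, hR⟩ := exists_nat_ge (((m : ℝ) + ε) / η)
  have hRη : (m : ℝ) + ε ≤ η * R := by
    rwa [div_le_iff₀ hη, mul_comm] at hR
  refine ⟨R, fun r ι F hF => ?_⟩
  obtain ⟨κ, hκ, h⟩ := main_fun r m F hF ε hε hε1
  obtain ⟨Z₀, hZ₀⟩ := eventually_atTop.1 (h.and (eventually_gt_atTop (1 : ℝ)))
  obtain ⟨p₂, hp₂⟩ := exists_nat_ge Z₀
  refine ⟨κ, hκ, max p₁ p₂, ?_⟩
  intro p _ hp G a M L hL hG
  obtain ⟨h', hp1⟩ := hZ₀ p (hp₂.trans (by exact_mod_cast (le_max_right _ _).trans hp))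
  have hp0 : (0 : ℝ) < p := by linarith
  refine h' p rfl G a M L hL ?_
  intro q hq hqp ρ t ht
  obtain ⟨J, hJR, hJ⟩ := hG t ht
  have hB : ∀ j, ‖∑ x ∈ AP (M j) (L j) q (ρ j), (ZMod.stdAddChar (∑ i, t i * G i j x) : ℂ)‖ ≤
      L j * if j ∈ J then (p : ℝ) ^ (-η) else 1 := by
    intro j
    split_ifs with hj
    · exact hact p ((le_max_left _ _).trans hp) (L j) _ (hL j) (hJ j hj) q hq hqp (M j) (ρ j)
    · rw [mul_one]
      refine (norm_sum_le _ _).trans ((sum_le_card_nsmul _ _ 1 fun n _ => (norm_e _).le).trans ?_)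
      rw [nsmul_eq_mul, mul_one]
      have h1 : (AP (M j) (L j) q (ρ j)).card ≤ L j := by
        unfold AP
        refine (card_filter_le _ _).trans ?_
        simp
      exact_mod_cast h1
  refine (prod_le_prod (fun j _ => norm_nonneg _) fun j _ => hB j).trans ?_
  rw [prod_mul_distrib, prod_ite_mem, univ_inter, prod_const]
  apply mul_le_mul_of_nonneg_left _ (prod_nonneg fun j _ => Nat.cast_nonneg _)
  rw [← Real.rpow_natCast, ← Real.rpow_mul hp0.le]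
  apply Real.rpow_le_rpow_of_exponent_le hp1.le
  have h1 : (R : ℝ) ≤ J.card := by exact_mod_cast hJR
  nlinarith

end Pool.Agent.U642.BG
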