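import Pool.Agent.Y881.SP.Sets

set_option autoImplicit false

/-! # Multilinear exponential sums over tiny sets: the flattening argument

After Bourgain, Glibichuk and Konyagin. The flattening theorem is `Pool.Agent.Y881.SP.flat`. -/

open Finset

namespace Pool.Agent.U642.BG

open Pool.Agent.Y881.SP (ft conj_std norm_std parseval ft_le ft_zero J sym flat J_le)

variable {p : ℕ} [Fact p.Prime]

/-- a probability density -/
structure Den (ρ : ZMod p → ℝ) : Prop where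
  nn : ∀ x, 0 ≤ ρ x
  one : ∑ x, ρ x = 1

/-- the law of a function with weights -/
noncomputable def push {σ : Type*} [Fintype σ] (w : σ → ℝ) (f : σ → ZMod p) (z : ZMod p) : ℝ :=
  ∑ s, if f s = z then w s else 0

theorem push_nn {σ : Type*} [Fintype σ] (w : σ → ℝ) (f : σ → ZMod p) (hw : ∀ s, 0 ≤ w s)
    (z : ZMod p) : 0 ≤ push w f z := by
  refine sum_nonneg fun s _ => ?_
  split_ifs
  · exact hw s
  · exact le_rfl

theorem push_sum {σ : Type*} [Fintype σ] (w : σ → ℝ) (f : σ → ZMod p) :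
    ∑ z, push w f z = ∑ s, w s := by
  unfold push
  rw [sum_comm]
  refine sum_congr rfl fun s _ => ?_
  rw [sum_ite_eq]
  simp

theorem push_ft {σ : Type*} [Fintype σ] (w : σ → ℝ) (f : σ → ZMod p) (ξ : ZMod p) :
    ft (push w f) ξ = ∑ s, (w s : ℂ) * ZMod.stdAddChar (ξ * f s) := by
  unfold ft push
  have h1 : ∀ z : ZMod p, ((∑ s, if f s = z then w s else 0 : ℝ) : ℂ) * ZMod.stdAddChar (ξ * z) =
      ∑ s, if f s = z then (w s : ℂ) * ZMod.stdAddChar (ξ * z) else 0 := by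
    intro z
    push_cast
    rw [sum_mul]
    refine sum_congr rfl fun s _ => ?_
    split_ifs <;> simp
  rw [sum_congr rfl fun z _ => h1 z, sum_comm]
  refine sum_congr rfl fun s _ => ?_
  rw [sum_ite_eq]
  simp

/-- the law of the difference -/
noncomputable def cor (ρ : ZMod p → ℝ) : ZMod p → ℝ :=
  push (fun s : ZMod p × ZMod p => ρ s.1 * ρ s.2) fun s => s.1 - s.2

/-- the law of `a b + a' b'` -/
noncomputable def st (ρ β : ZMod p → ℝ) : ZMod p → ℝ :=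
  push (fun s : (ZMod p × ZMod p) × (ZMod p × ZMod p) => (β s.1.1 * β s.1.2) * (ρ s.2.1 * ρ s.2.2))
    fun s => s.1.1 * s.2.1 + s.1.2 * s.2.2

theorem prod_one (ρ : ZMod p → ℝ) (h : Den ρ) :
    ∑ s : ZMod p × ZMod p, ρ s.1 * ρ s.2 = 1 := by
  rw [Fintype.sum_prod_type]
  simp only
  rw [← Finset.sum_mul_sum, h.one, one_mul]

theorem den_cor {ρ : ZMod p → ℝ} (h : Den ρ) : Den (cor ρ) :=
  ⟨fun z => push_nn _ _ (fun s => mul_nonneg (h.nn _) (h.nn _)) z, by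
    unfold cor
    rw [push_sum, prod_one ρ h]⟩

theorem den_st {ρ β : ZMod p → ℝ} (h : Den ρ) (h' : Den β) : Den (st ρ β) :=
  ⟨fun z => push_nn _ _ (fun s => mul_nonneg (mul_nonneg (h'.nn _) (h'.nn _))
      (mul_nonneg (h.nn _) (h.nn _))) z, by
    unfold st
    rw [push_sum, Fintype.sum_prod_type]
    simp only
    rw [← Finset.sum_mul_sum, prod_one ρ h, prod_one β h', one_mul]⟩

theorem ft_cor (ρ : ZMod p → ℝ) (ξ : ZMod p) : ft (cor ρ) ξ = ((‖ft ρ ξ‖ ^ 2 : ℝ) : ℂ) := by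
  unfold cor
  rw [push_ft, Fintype.sum_prod_type]
  push_cast
  rw [← Complex.mul_conj']
  unfold ft
  rw [map_sum, sum_mul_sum]
  refine sum_congr rfl fun x _ => sum_congr rfl fun y _ => ?_
  rw [map_mul (starRingEnd ℂ), Complex.conj_ofReal, conj_std, mul_sub, sub_eq_add_neg,
    AddChar.map_add_eq_mul]
  ring

theorem ft_st (ρ β : ZMod p → ℝ) (ξ : ZMod p) :
    ft (st ρ β) ξ = (∑ d, (β d : ℂ) * ft ρ (d * ξ)) ^ 2 := by
  unfold st
  rw [push_ft, Fintype.sum_prod_type]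
  have h1 : (∑ d, (β d : ℂ) * ft ρ (d * ξ)) =
      ∑ d, ∑ x, (β d : ℂ) * ρ x * ZMod.stdAddChar (ξ * (d * x)) := by
    refine sum_congr rfl fun d _ => ?_
    unfold ft
    rw [mul_sum]
    refine sum_congr rfl fun x _ => ?_
    rw [show d * ξ * x = ξ * (d * x) by ring, mul_assoc]
  rw [h1, sq]
  simp only [Fintype.sum_prod_type]
  rw [sum_mul_sum]
  refine sum_congr rfl fun d _ => sum_congr rfl fun d' _ => ?_
  rw [sum_mul_sum]
  refine sum_congr rfl fun x _ => sum_congr rfl fun x' _ => ?_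
  rw [mul_add, AddChar.map_add_eq_mul]
  push_cast
  ring

/-- the Fourier transforms of the successive laws -/
noncomputable def gg (ρ : ZMod p → ℝ) : List (ZMod p → ℝ) → ZMod p → ℝ
  | [] => fun ξ => ‖ft ρ ξ‖ ^ 2
  | β :: L => fun ξ => (∑ d, β d * gg ρ L (d * ξ)) ^ 2

/-- the successive laws -/
noncomputable def DD (ρ : ZMod p → ℝ) : List (ZMod p → ℝ) → ZMod p → ℝ
  | [] => cor ρ
  | β :: L => st (DD ρ L) β

/-- the iterated means of the Fourier transform -/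
noncomputable def Rs (ρ : ZMod p → ℝ) : List (ZMod p → ℝ) → ZMod p → ℝ
  | [] => fun c => ‖ft ρ c‖
  | β :: L => fun c => ∑ d, β d * Rs ρ L (d * c)

theorem den_DD {ρ : ZMod p → ℝ} (h : Den ρ) : ∀ L : List (ZMod p → ℝ), (∀ β ∈ L, Den β) →
    Den (DD ρ L)
  | [], _ => den_cor h
  | β :: L, hL => den_st (den_DD h L fun β' h' => hL β' (List.mem_cons_of_mem _ h'))
      (hL β List.mem_cons_self)

theorem ft_DD (ρ : ZMod p → ℝ) : ∀ (L : List (ZMod p → ℝ)) (ξ : ZMod p),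
    ft (DD ρ L) ξ = ((gg ρ L ξ : ℝ) : ℂ)
  | [], ξ => ft_cor ρ ξ
  | β :: L, ξ => by
    rw [DD, ft_st, gg]
    push_cast
    congr 1
    refine sum_congr rfl fun d _ => ?_
    rw [ft_DD ρ L]

theorem gg_nn (ρ : ZMod p → ℝ) (L : List (ZMod p → ℝ)) (ξ : ZMod p) : 0 ≤ gg ρ L ξ := by
  cases L with
  | nil => exact sq_nonneg _
  | cons β L => exact sq_nonneg _

theorem norm_ft_DD (ρ : ZMod p → ℝ) (L : List (ZMod p → ℝ)) (ξ : ZMod p) :
    ‖ft (DD ρ L) ξ‖ = gg ρ L ξ := by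
  rw [ft_DD, Complex.norm_real, Real.norm_of_nonneg (gg_nn ρ L ξ)]

theorem Rs_nn {ρ : ZMod p → ℝ} : ∀ (L : List (ZMod p → ℝ)), (∀ β ∈ L, Den β) → ∀ ξ, 0 ≤ Rs ρ L ξ
  | [], _, _ => norm_nonneg _
  | β :: L, hL, ξ => sum_nonneg fun d _ => mul_nonneg ((hL β List.mem_cons_self).nn d)
      (Rs_nn L (fun β' h' => hL β' (List.mem_cons_of_mem _ h')) _)

theorem mean_le {β : ZMod p → ℝ} (hβ : Den β) (g : ZMod p → ℝ) (B : ℝ) (hg : ∀ d, g d ≤ B) :
    ∑ d, β d * g d ≤ B := by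
  calc ∑ d, β d * g d ≤ ∑ d, β d * B := sum_le_sum fun d _ => mul_le_mul_of_nonneg_left (hg d) (hβ.nn d)
    _ = B := by rw [← sum_mul, hβ.one, one_mul]

theorem Rs_le_one {ρ : ZMod p → ℝ} (h : Den ρ) : ∀ (L : List (ZMod p → ℝ)), (∀ β ∈ L, Den β) →
    ∀ ξ, Rs ρ L ξ ≤ 1
  | [], _, ξ => ft_le ρ h.nn h.one ξ
  | β :: L, hL, ξ => mean_le (hL β List.mem_cons_self) _ 1
      fun d => Rs_le_one h L (fun β' h' => hL β' (List.mem_cons_of_mem _ h')) _

theorem Rs_pow {ρ : ZMod p → ℝ} : ∀ (L : List (ZMod p → ℝ)), (∀ β ∈ L, Den β) →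
    ∀ ξ, Rs ρ L ξ ^ 2 ^ (L.length + 1) ≤ gg ρ L ξ
  | [], _, _ => by
    rw [Rs, gg, List.length_nil, zero_add, pow_one]
  | β :: L, hL, ξ => by
    have hβ := hL β List.mem_cons_self
    have hL' : ∀ β' ∈ L, Den β' := fun β' h' => hL β' (List.mem_cons_of_mem _ h')
    have ih := Rs_pow L hL' (ρ := ρ)
    rw [Rs, gg, List.length_cons, pow_succ 2 (L.length + 1), pow_mul]
    have h1 : (∑ d, β d * Rs ρ L (d * ξ)) ^ 2 ^ (L.length + 1) ≤
        ∑ d, β d * gg ρ L (d * ξ) := by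
      refine (Real.pow_arith_mean_le_arith_mean_pow univ β (fun d => Rs ρ L (d * ξ))
        (fun d _ => hβ.nn d) hβ.one (fun d _ => Rs_nn L hL' _) _).trans ?_
      exact sum_le_sum fun d _ => mul_le_mul_of_nonneg_left (ih _) (hβ.nn d)
    have h0 : 0 ≤ ∑ d, β d * Rs ρ L (d * ξ) :=
      sum_nonneg fun d _ => mul_nonneg (hβ.nn d) (Rs_nn L hL' _)
    exact pow_le_pow_left₀ (pow_nonneg h0 _) h1 2

/-- the energy -/
noncomputable def PP (ρ : ZMod p → ℝ) (L : List (ZMod p → ℝ)) : ℝ := ∑ ξ, gg ρ L ξ ^ 2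

theorem PP_eq (ρ : ZMod p → ℝ) (L : List (ZMod p → ℝ)) :
    PP ρ L = p * ∑ x, DD ρ L x ^ 2 := by
  rw [← parseval]
  unfold PP
  exact sum_congr rfl fun ξ _ => by rw [norm_ft_DD]

theorem J_DD (ρ : ZMod p → ℝ) (L : List (ZMod p → ℝ)) (μ : ZMod p) :
    J (DD ρ L) μ = ∑ ξ, gg ρ L ξ ^ 2 * gg ρ L (μ * ξ) ^ 2 := by
  unfold J
  exact sum_congr rfl fun ξ _ => by rw [norm_ft_DD, norm_ft_DD]

theorem PP_step (ρ : ZMod p → ℝ) (L : List (ZMod p → ℝ)) (β : ZMod p → ℝ) (hβ : Den β)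
    (h0 : β 0 = 0) :
    PP ρ (β :: L) ≤ ∑ d, β d * ∑ d', β d' * J (DD ρ L) (d' / d) := by
  have h1 : ∀ ξ : ZMod p, gg ρ (β :: L) ξ ^ 2 ≤
      ∑ d, ∑ d', β d * β d' * (gg ρ L (d * ξ) ^ 2 * gg ρ L (d' * ξ) ^ 2) := by
    intro ξ
    rw [gg]
    have h2 : (∑ d, β d * gg ρ L (d * ξ)) ^ 2 ≤ ∑ d, β d * gg ρ L (d * ξ) ^ 2 :=
      Real.pow_arith_mean_le_arith_mean_pow univ β (fun d => gg ρ L (d * ξ))
        (fun d _ => hβ.nn d) hβ.one (fun d _ => gg_nn ρ L _) 2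
    refine (pow_le_pow_left₀ (sq_nonneg _) h2 2).trans (le_of_eq ?_)
    rw [sq, sum_mul_sum]
    refine sum_congr rfl fun d _ => sum_congr rfl fun d' _ => ?_
    ring
  unfold PP
  refine (sum_le_sum fun ξ _ => h1 ξ).trans (le_of_eq ?_)
  rw [sum_comm]
  refine sum_congr rfl fun d _ => ?_
  rw [sum_comm, mul_sum]
  refine sum_congr rfl fun d' _ => ?_
  by_cases hd : d = 0
  · rw [hd, h0]
    simp
  · rw [J_DD, ← mul_sum, mul_assoc]
    congr 2
    refine Eq.trans ?_ (Equiv.sum_comp (Equiv.mulLeft₀ d hd)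
      fun ξ => gg ρ L ξ ^ 2 * gg ρ L (d' / d * ξ) ^ 2)
    refine sum_congr rfl fun ξ _ => ?_
    show _ = gg ρ L (d * ξ) ^ 2 * gg ρ L (d' / d * (d * ξ)) ^ 2
    rw [show d' / d * (d * ξ) = d' * ξ by field_simp]

theorem J_nn (ρ : ZMod p → ℝ) (μ : ZMod p) : 0 ≤ J ρ μ := sum_nonneg fun ξ _ => by positivity

theorem PP_le (ρ : ZMod p → ℝ) (hρ : Den ρ) (L : List (ZMod p → ℝ)) (hL : ∀ β ∈ L, Den β)
    (β : ZMod p → ℝ) (hβ : Den β) (h0 : β 0 = 0) : PP ρ (β :: L) ≤ PP ρ L := by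
  refine (PP_step ρ L β hβ h0).trans ?_
  refine mean_le hβ _ _ fun d => mean_le hβ _ _ fun d' => ?_
  rw [PP_eq]
  have h := den_DD hρ L hL
  exact J_le _ h.nn h.one _

open Classical in
theorem PP_flat (ρ : ZMod p → ℝ) (hρ : Den ρ) (L : List (ZMod p → ℝ)) (hL : ∀ β ∈ L, Den β)
    (β : ZMod p → ℝ) (hβ : Den β) (h0 : β 0 = 0) (K M G : ℝ) (hK : 0 < K) (hM : ∀ d, β d ≤ M)
    (hs : ((sym (DD ρ L) K).card : ℝ) ≤ G) :
    PP ρ (β :: L) ≤ PP ρ L * (1 / K + G * M) := by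
  have hD := den_DD hρ L hL
  have hM0 : 0 ≤ M := (hβ.nn 0).trans (hM 0)
  have hP0 : 0 ≤ PP ρ L := sum_nonneg fun ξ _ => sq_nonneg _
  refine (PP_step ρ L β hβ h0).trans ?_
  have h1 : ∀ d, β d * ∑ d', β d' * J (DD ρ L) (d' / d) ≤
      β d * (PP ρ L * (1 / K + G * M)) := by
    intro d
    by_cases hd : d = 0
    · rw [hd, h0]
      simp
    refine mul_le_mul_of_nonneg_left ?_ (hβ.nn d)
    have h2 : ∀ d', β d' * J (DD ρ L) (d' / d) ≤ β d' * (PP ρ L / K) +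
        (if d' / d ∈ sym (DD ρ L) K then M * PP ρ L else 0) := by
      intro d'
      by_cases hd' : d' = 0
      · rw [hd', h0]
        split_ifs
        · simp only [zero_mul, zero_add]
          positivity
        · simp
      split_ifs with h3
      · have h4 : J (DD ρ L) (d' / d) ≤ PP ρ L := by
          rw [PP_eq]
          exact J_le _ hD.nn hD.one _
        have h5 : 0 ≤ β d' * (PP ρ L / K) := mul_nonneg (hβ.nn _) (by positivity)
        have h6 : β d' * J (DD ρ L) (d' / d) ≤ M * PP ρ L :=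
          mul_le_mul (hM d') h4 (J_nn _ _) hM0
        linarith
      · rw [add_zero]
        refine mul_le_mul_of_nonneg_left ?_ (hβ.nn _)
        rw [le_div_iff₀ hK]
        unfold sym at h3
        rw [mem_filter] at h3
        have h4 : ¬ (p * ∑ x, DD ρ L x ^ 2 ≤ K * J (DD ρ L) (d' / d)) := fun h =>
          h3 ⟨mem_univ _, div_ne_zero hd' hd, h⟩
        rw [← PP_eq] at h4
        linarith
    refine (sum_le_sum fun d' _ => h2 d').trans ?_
    rw [sum_add_distrib, ← sum_mul, hβ.one, one_mul, ← sum_filter, sum_const, nsmul_eq_mul]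
    have h3 : ((univ.filter fun d' => d' / d ∈ sym (DD ρ L) K).card : ℝ) ≤ G := by
      refine le_trans ?_ hs
      have : (univ.filter fun d' => d' / d ∈ sym (DD ρ L) K).card ≤ (sym (DD ρ L) K).card := by
        refine card_le_card_of_injOn (fun d' => d' / d) (fun d' h => (mem_filter.1 h).2) ?_
        intro a _ b _ hab
        simp only at hab
        field_simp at hab
        exact hab
      exact_mod_cast this
    have h4 : ((univ.filter fun d' => d' / d ∈ sym (DD ρ L) K).card : ℝ) * (M * PP ρ L) ≤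
        G * (M * PP ρ L) := mul_le_mul_of_nonneg_right h3 (mul_nonneg hM0 hP0)
    calc _ ≤ PP ρ L / K + G * (M * PP ρ L) := by linarith
      _ = _ := by ring
  refine (sum_le_sum fun d _ => h1 d).trans (le_of_eq ?_)
  rw [← sum_mul, hβ.one, one_mul]

theorem PP_nil (ρ : ZMod p → ℝ) (hρ : Den ρ) (M : ℝ) (hM : ∀ x, ρ x ≤ M) : PP ρ [] ≤ p * M := by
  unfold PP
  have h1 : ∀ ξ, gg ρ [] ξ ^ 2 ≤ ‖ft ρ ξ‖ ^ 2 := by
    intro ξ
    rw [gg]
    have := ft_le ρ hρ.nn hρ.one ξ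
    have h0 : 0 ≤ ‖ft ρ ξ‖ ^ 2 := by positivity
    have h1 : ‖ft ρ ξ‖ ^ 2 ≤ 1 := pow_le_one₀ (norm_nonneg _) this
    nlinarith
  refine (sum_le_sum fun ξ _ => h1 ξ).trans ?_
  rw [parseval]
  refine mul_le_mul_of_nonneg_left ?_ (Nat.cast_nonneg _)
  have h2 := mean_le hρ ρ M hM
  refine le_trans (le_of_eq (sum_congr rfl fun x _ => ?_)) h2
  ring

end Pool.Agent.U642.BG
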