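import Pool.Agent.U642.BG.Ml

set_option autoImplicit false

/-! # Multilinear exponential sums over tiny sets: the theorem for densities -/

open Finset

namespace Pool.Agent.U642.BG

open Pool.Agent.Y881.SP (ft conj_std norm_std parseval ft_le ft_zero J sym flat J_le)

/-- a density without atoms: zero has no mass and all the masses are at most `M` -/
structure Sm {p : ℕ} [Fact p.Prime] (M : ℝ) (β : ZMod p → ℝ) : Prop where
  den : Den β
  zero : β 0 = 0
  le : ∀ d, β d ≤ M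

theorem iter (ε : ℝ) (hε : 0 < ε) : ∃ κ : ℝ, 0 < κ ∧ ∃ p₀ : ℕ, ∀ (p : ℕ) [Fact p.Prime], p₀ ≤ p →
    ∀ ρ : ZMod p → ℝ, Den ρ → (∀ x, ρ x ≤ (p : ℝ) ^ (-ε)) → ∀ L : List (ZMod p → ℝ),
    (∀ β ∈ L, Sm ((p : ℝ) ^ (-ε)) β) →
    PP ρ L ≤ (p : ℝ) ^ (ε / 2) ∨ PP ρ L ≤ (p : ℝ) ^ (1 - ε - κ * L.length) := by
  obtain ⟨κ, hκ, p₁, hflat⟩ := flat (ε / 2) (by positivity)
  set κ' : ℝ := min κ (ε / 2) / 2 with hκ'
  have hκ'0 : 0 < κ' := by positivity
  have hκ1 : 2 * κ' ≤ κ := by rw [hκ']; linarith [min_le_left κ (ε / 2)]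
  have hκ2 : 2 * κ' ≤ ε / 2 := by rw [hκ']; linarith [min_le_right κ (ε / 2)]
  obtain ⟨p₂, hp₂2, hp₂⟩ := Pool.Agent.H435R3.Paley.exists_large 2 κ' hκ'0
  refine ⟨κ', hκ'0, p₁ + p₂, fun p _ hp ρ hρ hρM => ?_⟩
  have hp2 : (2 : ℝ) ≤ p := by exact_mod_cast (Fact.out : p.Prime).two_le
  have hp0 : (0 : ℝ) < p := by linarith
  have hp1 : (1 : ℝ) ≤ p := by linarith
  have hbig : 2 ≤ (p : ℝ) ^ κ' := hp₂ p (by omega)
  intro L
  induction L with
  | nil =>
    intro _
    right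
    refine (PP_nil ρ hρ _ hρM).trans (le_of_eq ?_)
    rw [List.length_nil, Nat.cast_zero, mul_zero, sub_zero, sub_eq_add_neg, Real.rpow_add hp0,
      Real.rpow_one]
  | cons β L ih =>
    intro hL
    have hβ := hL β List.mem_cons_self
    have hL' : ∀ β' ∈ L, Sm ((p : ℝ) ^ (-ε)) β' := fun β' h' => hL β' (List.mem_cons_of_mem _ h')
    have hL'' : ∀ β' ∈ L, Den β' := fun β' h' => (hL' β' h').den
    have hmono := PP_le ρ hρ L hL'' β hβ.den hβ.zero
    by_cases hsm : PP ρ L ≤ (p : ℝ) ^ (ε / 2)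
    · left
      exact hmono.trans hsm
    · right
      have h1 := (ih hL').resolve_left hsm
      have hsm' := not_le.1 hsm
      have hlen : (0 : ℝ) ≤ κ' * L.length := by positivity
      have hD := den_DD hρ L hL''
      have hPP := PP_eq ρ L
      have e1 : (p : ℝ) ^ (-1 + ε / 2) ≤ ∑ x, DD ρ L x ^ 2 := by
        have h2 : (p : ℝ) * (p : ℝ) ^ (-1 + ε / 2) = (p : ℝ) ^ (ε / 2) := by
          rw [Real.rpow_add hp0, ← mul_assoc, Real.rpow_neg_one, mul_inv_cancel₀ hp0.ne', one_mul]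
        have h3 : (p : ℝ) * (p : ℝ) ^ (-1 + ε / 2) ≤ p * ∑ x, DD ρ L x ^ 2 := by
          rw [h2, ← hPP]
          exact hsm'.le
        exact le_of_mul_le_mul_left h3 hp0
      have e2 : ∑ x, DD ρ L x ^ 2 ≤ (p : ℝ) ^ (-(ε / 2)) := by
        have h2 : PP ρ L ≤ (p : ℝ) ^ (1 + -(ε / 2)) :=
          h1.trans (Real.rpow_le_rpow_of_exponent_le hp1 (by linarith))
        rw [Real.rpow_add hp0, Real.rpow_one, hPP] at h2
        exact le_of_mul_le_mul_left h2 hp0
      have hs := hflat p (by omega) (DD ρ L) hD.nn hD.one e1 e2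
      have h4 := PP_flat ρ hρ L hL'' β hβ.den hβ.zero ((p : ℝ) ^ κ) ((p : ℝ) ^ (-ε))
        ((p : ℝ) ^ (ε / 2)) (by positivity) hβ.le hs.le
      have h5 : 1 / (p : ℝ) ^ κ + (p : ℝ) ^ (ε / 2) * (p : ℝ) ^ (-ε) ≤ (p : ℝ) ^ (-κ') := by
        rw [one_div, ← Real.rpow_neg hp0.le, ← Real.rpow_add hp0]
        have h6 : (p : ℝ) ^ (-κ) ≤ (p : ℝ) ^ (-κ' + -κ') :=
          Real.rpow_le_rpow_of_exponent_le hp1 (by linarith)
        have h7 : (p : ℝ) ^ (ε / 2 + -ε) ≤ (p : ℝ) ^ (-κ' + -κ') :=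
          Real.rpow_le_rpow_of_exponent_le hp1 (by linarith)
        have h8 : (p : ℝ) ^ κ' * (p : ℝ) ^ (-κ') = 1 := by
          rw [← Real.rpow_add hp0, add_neg_cancel, Real.rpow_zero]
        have h9 : 0 < (p : ℝ) ^ (-κ') := by positivity
        have h10 : (p : ℝ) ^ (-κ' + -κ') = (p : ℝ) ^ (-κ') * (p : ℝ) ^ (-κ') :=
          Real.rpow_add hp0 _ _
        rw [h10] at h6 h7
        have h11 : 2 * (p : ℝ) ^ (-κ') ≤ 1 := by nlinarith
        nlinarith
      refine h4.trans ?_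
      calc PP ρ L * (1 / (p : ℝ) ^ κ + (p : ℝ) ^ (ε / 2) * (p : ℝ) ^ (-ε)) ≤
            (p : ℝ) ^ (1 - ε - κ' * L.length) * (p : ℝ) ^ (-κ') := by
            refine mul_le_mul h1 h5 (by positivity) (by positivity)
        _ = _ := by
            rw [← Real.rpow_add hp0, List.length_cons]
            congr 1
            push_cast
            ring

/-- **Multilinear sums** (Bourgain; Bourgain, Glibichuk and Konyagin). -/
theorem multi (ε : ℝ) (hε : 0 < ε) : ∃ K : ℕ, ∃ δ : ℝ, 0 < δ ∧ ∃ p₀ : ℕ,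
    ∀ (p : ℕ) [Fact p.Prime], p₀ ≤ p → ∀ ρ : ZMod p → ℝ, Den ρ →
    (∀ x, ρ x ≤ (p : ℝ) ^ (-ε)) → ∀ L : List (ZMod p → ℝ), (∀ β ∈ L, Sm ((p : ℝ) ^ (-ε)) β) →
    K < L.length → ∀ c : ZMod p, c ≠ 0 → Rs ρ L c ≤ (p : ℝ) ^ (-δ) := by
  obtain ⟨κ, hκ, p₁, hit⟩ := iter ε hε
  obtain ⟨K, hK⟩ : ∃ K : ℕ, 1 < K * κ := by
    obtain ⟨K, hK⟩ := exists_nat_gt (1 / κ)
    exact ⟨K, by rwa [div_lt_iff₀ hκ] at hK⟩
  obtain ⟨N, hN⟩ : ∃ N : ℕ, N = 2 ^ (K + 1) := ⟨_, rfl⟩
  have hN0 : 0 < N := by rw [hN]; positivity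
  have hN0' : (0 : ℝ) < N := by exact_mod_cast hN0
  obtain ⟨δ, hδ⟩ : ∃ δ : ℝ, δ = min (ε / 8 / N) (ε / 4) / 2 := ⟨_, rfl⟩
  have hδ0 : 0 < δ := by rw [hδ]; positivity
  have hδ1 : 2 * δ ≤ ε / 8 / N := by rw [hδ]; linarith [min_le_left (ε / 8 / N) (ε / 4)]
  have hδ2 : 2 * δ ≤ ε / 4 := by rw [hδ]; linarith [min_le_right (ε / 8 / N) (ε / 4)]
  obtain ⟨p₂, hp₂2, hp₂⟩ := Pool.Agent.H435R3.Paley.exists_large 2 δ hδ0
  refine ⟨K, δ, hδ0, p₁ + p₂, fun p _ hp ρ hρ hρM => ?_⟩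
  have hp2 : (2 : ℝ) ≤ p := by exact_mod_cast (Fact.out : p.Prime).two_le
  have hp0 : (0 : ℝ) < p := by linarith
  have hp1 : (1 : ℝ) ≤ p := by linarith
  have hbig : 2 ≤ (p : ℝ) ^ δ := hp₂ p (by omega)
  intro L
  induction L with
  | nil =>
    intro _ h
    exact absurd h (by simp)
  | cons β L ih =>
    intro hL hlen c hc
    have hβ := hL β List.mem_cons_self
    have hL' : ∀ β' ∈ L, Sm ((p : ℝ) ^ (-ε)) β' := fun β' h' => hL β' (List.mem_cons_of_mem _ h')
    have hL'' : ∀ β' ∈ L, Den β' := fun β' h' => (hL' β' h').den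
    rw [List.length_cons] at hlen
    by_cases hlong : K < L.length
    · -- contraction
      rw [Rs]
      have h1 : ∀ d, β d * Rs ρ L (d * c) ≤ β d * (p : ℝ) ^ (-δ) := by
        intro d
        by_cases hd : d = 0
        · rw [hd, hβ.zero]
          simp
        · exact mul_le_mul_of_nonneg_left (ih hL' hlong (d * c) (mul_ne_zero hd hc)) (hβ.den.nn d)
      refine (sum_le_sum fun d _ => h1 d).trans (le_of_eq ?_)
      rw [← sum_mul, hβ.den.one, one_mul]
    · have hlenK : L.length = K := by omega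
      -- the energy is small
      have hPP : PP ρ L ≤ (p : ℝ) ^ (ε / 2) := by
        rcases hit p (by omega) ρ hρ hρM L hL' with h | h
        · exact h
        · refine h.trans (Real.rpow_le_rpow_of_exponent_le hp1 ?_)
          rw [hlenK]
          nlinarith
      classical
      set t : ℝ := (p : ℝ) ^ (-(ε / 8)) with ht
      have ht0 : 0 < t := by positivity
      set Big : Finset (ZMod p) := univ.filter fun y => t < gg ρ L y with hBig
      have hBc : (Big.card : ℝ) * t ^ 2 ≤ (p : ℝ) ^ (ε / 2) := by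
        refine le_trans ?_ hPP
        unfold PP
        rw [← nsmul_eq_mul]
        refine (card_nsmul_le_sum Big _ (t ^ 2) fun y hy => ?_).trans
          (sum_le_sum_of_subset_of_nonneg (filter_subset _ _) fun _ _ _ => sq_nonneg _)
        exact pow_le_pow_left₀ ht0.le (mem_filter.1 hy).2.le 2
      have hBc' : (Big.card : ℝ) ≤ (p : ℝ) ^ (ε / 2 + ε / 4) := by
        have h2 : t ^ 2 = (p : ℝ) ^ (-(ε / 4)) := by
          rw [ht, ← Real.rpow_natCast, ← Real.rpow_mul hp0.le]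
          congr 1
          push_cast
          ring
        rw [h2] at hBc
        rw [Real.rpow_add hp0]
        have h3 : (p : ℝ) ^ (-(ε / 4)) * (p : ℝ) ^ (ε / 4) = 1 := by
          rw [← Real.rpow_add hp0, neg_add_cancel, Real.rpow_zero]
        calc (Big.card : ℝ) = (Big.card : ℝ) * ((p : ℝ) ^ (-(ε / 4)) * (p : ℝ) ^ (ε / 4)) := by
              rw [h3, mul_one]
          _ = ((Big.card : ℝ) * (p : ℝ) ^ (-(ε / 4))) * (p : ℝ) ^ (ε / 4) := by ring
          _ ≤ _ := mul_le_mul_of_nonneg_right hBc (by positivity)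
      set s : ℝ := (p : ℝ) ^ (-(ε / 8 / N)) with hs
      have hs0 : 0 < s := by positivity
      have hsN : s ^ N = t := by
        rw [hs, ht, ← Real.rpow_natCast, ← Real.rpow_mul hp0.le]
        congr 1
        field_simp
      have hsmall : ∀ y, y ∉ Big → Rs ρ L y ≤ s := by
        intro y hy
        have h1 : gg ρ L y ≤ t := by
          by_contra hcon
          exact hy (mem_filter.2 ⟨mem_univ _, not_le.1 hcon⟩)
        have h2 := Rs_pow L hL'' y (ρ := ρ)
        rw [hlenK, ← hN] at h2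
        have h3 : Rs ρ L y ^ N ≤ s ^ N := by
          rw [hsN]
          exact h2.trans h1
        exact le_of_pow_le_pow_left₀ hN0.ne' hs0.le h3
      rw [Rs]
      have h1 : ∀ d, β d * Rs ρ L (d * c) ≤ β d * s +
          (if d * c ∈ Big then (p : ℝ) ^ (-ε) else 0) := by
        intro d
        have hR0 := Rs_nn L hL'' (d * c) (ρ := ρ)
        have hR1 := Rs_le_one hρ L hL'' (d * c)
        split_ifs with h
        · have h2 : β d * Rs ρ L (d * c) ≤ (p : ℝ) ^ (-ε) * 1 :=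
            mul_le_mul (hβ.le d) hR1 hR0 (by positivity)
          have h3 : 0 ≤ β d * s := mul_nonneg (hβ.den.nn d) hs0.le
          linarith
        · rw [add_zero]
          exact mul_le_mul_of_nonneg_left (hsmall _ h) (hβ.den.nn d)
      refine (sum_le_sum fun d _ => h1 d).trans ?_
      rw [sum_add_distrib, ← sum_mul, hβ.den.one, one_mul, ← sum_filter, sum_const, nsmul_eq_mul]
      have h2 : ((univ.filter fun d => d * c ∈ Big).card : ℝ) ≤ Big.card := by
        have : (univ.filter fun d => d * c ∈ Big).card ≤ Big.card := by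
          refine card_le_card_of_injOn (fun d => d * c) (fun d h => (mem_filter.1 h).2) ?_
          intro a _ b _ hab
          exact mul_right_cancel₀ hc hab
        exact_mod_cast this
      have h3 : ((univ.filter fun d => d * c ∈ Big).card : ℝ) * (p : ℝ) ^ (-ε) ≤
          (p : ℝ) ^ (-(2 * δ)) := by
        calc _ ≤ (p : ℝ) ^ (ε / 2 + ε / 4) * (p : ℝ) ^ (-ε) :=
              mul_le_mul_of_nonneg_right (h2.trans hBc') (by positivity)
          _ = (p : ℝ) ^ (-(ε / 4)) := by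
              rw [← Real.rpow_add hp0]
              congr 1
              ring
          _ ≤ _ := Real.rpow_le_rpow_of_exponent_le hp1 (by linarith)
      have h4 : s ≤ (p : ℝ) ^ (-(2 * δ)) :=
        Real.rpow_le_rpow_of_exponent_le hp1 (by linarith)
      have h5 : (p : ℝ) ^ (-(2 * δ)) = (p : ℝ) ^ (-δ) * (p : ℝ) ^ (-δ) := by
        rw [← Real.rpow_add hp0]
        congr 1
        ring
      have h6 : (p : ℝ) ^ δ * (p : ℝ) ^ (-δ) = 1 := by
        rw [← Real.rpow_add hp0, add_neg_cancel, Real.rpow_zero]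
      have h7 : 0 < (p : ℝ) ^ (-δ) := by positivity
      rw [h5] at h3 h4
      nlinarith

end Pool.Agent.U642.BG
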